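import Pool.Agent.Lib.MP_45c7d7_ag.Words

/-!
# The Erdős–Ginzburg–Ziv theorem for finite abelian groups (helper23)

Multiset form, and the decomposition of zero-sum sequences into zero-sum blocks.
-/

namespace GQ23

open Multiset

set_option linter.unusedSectionVars false

/-- the EGZ property of an additive group -/
def EGZ (A : Type) [AddCommGroup A] : Prop :=
  ∀ (L : Type) (f : L → A) (s : Multiset L), 2 * Nat.card A - 1 ≤ card s →
    ∃ t ≤ s, card t = Nat.card A ∧ (t.map f).sum = 0

lemma EGZ.of_equiv {A B : Type} [AddCommGroup A] [AddCommGroup B] (e : A ≃+ B) (h : EGZ A) :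
    EGZ B := by
  intro L f s hs
  have hc : Nat.card A = Nat.card B := Nat.card_congr e.toEquiv
  obtain ⟨t, h1, h2, h3⟩ := h L (fun l => e.symm (f l)) s (by rwa [hc])
  refine ⟨t, h1, by rw [h2, hc], ?_⟩
  have h4 : e ((t.map (fun l => e.symm (f l))).sum) = (t.map f).sum := by
    rw [map_multiset_sum, Multiset.map_map]
    congr 1
    apply Multiset.map_congr rfl
    intro x _
    simp
  rw [← h4, h3]
  exact e.map_zero

lemma EGZ.zmod (n : ℕ) : EGZ (ZMod n) := by
  classical
  intro L f s hs
  have hcard : Nat.card (ZMod n) = n := Nat.card_zmod n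
  rw [hcard] at hs ⊢
  obtain ⟨t, ht, h1, h2⟩ := ZMod.erdos_ginzburg_ziv (n := n) (ι := L × ℕ) (s := s.toEnumFinset)
    (fun p => f p.1) (by rwa [Multiset.card_toEnumFinset])
  refine ⟨t.val.map Prod.fst, ?_, ?_, ?_⟩
  · have h3 : t.val ≤ s.toEnumFinset.val := Finset.val_le_iff.2 ht
    have h4 := Multiset.map_le_map (f := Prod.fst) h3
    rwa [Multiset.map_toEnumFinset_fst] at h4
  · rw [Multiset.card_map]; exact h1
  · rw [Multiset.map_map]; exact h2

/-- many disjoint blocks -/
lemma EGZ.blocks {A : Type} [AddCommGroup A] [Finite A] (B : AddSubgroup A) (h : EGZ (A ⧸ B))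
    (L : Type) (f : L → A) (s : Multiset L) (m : ℕ)
    (hs : (m + 1) * Nat.card (A ⧸ B) - 1 ≤ card s) :
    ∀ k ≤ m, ∃ U : Multiset {u : Multiset L // card u = Nat.card (A ⧸ B) ∧ (u.map f).sum ∈ B},
      card U = k ∧ (U.map Subtype.val).sum ≤ s := by
  classical
  intro k
  induction k with
  | zero => intro _; exact ⟨0, rfl, by simp⟩
  | succ k ih =>
    intro hk
    obtain ⟨U, h1, h2⟩ := ih (by omega)
    obtain ⟨r, hr⟩ := Multiset.le_iff_exists_add.1 h2
    have hq : 0 < Nat.card (A ⧸ B) := Nat.card_pos
    have hcU : card (U.map Subtype.val).sum = k * Nat.card (A ⧸ B) := by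
      rw [← h1]
      clear h1 h2 hr
      induction U using Multiset.induction_on with
      | empty => simp
      | cons u U ih2 =>
        rw [Multiset.map_cons, Multiset.sum_cons, Multiset.card_add, ih2, u.2.1, Multiset.card_cons]
        ring
    have hcr : 2 * Nat.card (A ⧸ B) - 1 ≤ card r := by
      have h5 : card s = k * Nat.card (A ⧸ B) + card r := by
        rw [hr, Multiset.card_add, hcU]
      have h6 : (k + 2) * Nat.card (A ⧸ B) ≤ (m + 1) * Nat.card (A ⧸ B) :=
        Nat.mul_le_mul_right _ (by omega)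
      have h7 : (k + 2) * Nat.card (A ⧸ B) = k * Nat.card (A ⧸ B) + 2 * Nat.card (A ⧸ B) := by ring
      omega
    obtain ⟨t, ht1, ht2, ht3⟩ := h L (fun l => (QuotientAddGroup.mk (f l) : A ⧸ B)) r hcr
    have hmem : (t.map f).sum ∈ B := by
      rw [← QuotientAddGroup.eq_zero_iff, ← ht3]
      have := map_multiset_sum (QuotientAddGroup.mk' B) (t.map f)
      rw [Multiset.map_map] at this
      exact this
    refine ⟨⟨t, ht2, hmem⟩ ::ₘ U, by rw [Multiset.card_cons, h1], ?_⟩
    rw [Multiset.map_cons, Multiset.sum_cons, hr, add_comm]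
    exact add_le_add le_rfl ht1

lemma EGZ.ext {A : Type} [AddCommGroup A] [Finite A] (B : AddSubgroup A) (h1 : EGZ B)
    (h2 : EGZ (A ⧸ B)) : EGZ A := by
  classical
  intro L f s hs
  have hcard : Nat.card A = Nat.card (A ⧸ B) * Nat.card B :=
    AddSubgroup.card_eq_card_quotient_mul_card_addSubgroup B
  have hq : 0 < Nat.card (A ⧸ B) := Nat.card_pos
  have hb : 0 < Nat.card B := Nat.card_pos
  obtain ⟨U, hU1, hU2⟩ := h2.blocks B L f s (2 * Nat.card B - 1) (by
    have : (2 * Nat.card B - 1 + 1) * Nat.card (A ⧸ B) = 2 * Nat.card A := by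
      rw [hcard]
      have : 2 * Nat.card B - 1 + 1 = 2 * Nat.card B := by omega
      rw [this]; ring
    omega) _ le_rfl
  obtain ⟨V, hV1, hV2, hV3⟩ := h1 _
    (fun u : {u : Multiset L // card u = Nat.card (A ⧸ B) ∧ (u.map f).sum ∈ B} =>
      (⟨(u.1.map f).sum, u.2.2⟩ : B)) U (by omega)
  refine ⟨(V.map Subtype.val).sum, ?_, ?_, ?_⟩
  · obtain ⟨r, rfl⟩ := Multiset.le_iff_exists_add.1 hV1
    rw [Multiset.map_add, Multiset.sum_add] at hU2
    exact (Multiset.le_add_right _ _).trans hU2
  · rw [hcard, ← hV2]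
    clear hV1 hV2 hV3
    induction V using Multiset.induction_on with
    | empty => simp
    | cons u V ih =>
      rw [Multiset.map_cons, Multiset.sum_cons, Multiset.card_add, ih, u.2.1, Multiset.card_cons]
      ring
  · have h5 : (((V.map (fun u => (⟨(u.1.map f).sum, u.2.2⟩ : B))).sum : B) : A) =
        (((V.map Subtype.val).sum).map f).sum := by
      clear hV1 hV2 hV3
      induction V using Multiset.induction_on with
      | empty => simp
      | cons u V ih =>
        rw [Multiset.map_cons, Multiset.sum_cons, Multiset.map_cons, Multiset.sum_cons,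
          Multiset.map_add, Multiset.sum_add, ← ih]
        rfl
    rw [← h5, hV3]; rfl

theorem egz (n : ℕ) : ∀ (A : Type) [AddCommGroup A] [Finite A], Nat.card A = n → EGZ A := by
  induction n using Nat.strong_induction_on with
  | _ n ih =>
    intro A _ _ hA
    have hpos : 0 < Nat.card A := Nat.card_pos
    by_cases h1 : Nat.card A = 1
    · intro L f s hs
      obtain ⟨t, ht, hc⟩ := exists_le_card s 1 (by omega)
      have : Subsingleton A := (Nat.card_eq_one_iff_unique.1 h1).1
      exact ⟨t, ht, by rw [hc, h1], Subsingleton.elim _ _⟩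
    by_cases hp : (Nat.card A).Prime
    · have : Fact (Nat.card A).Prime := ⟨hp⟩
      have : IsAddCyclic A := isAddCyclic_of_card_dvd_prime (p := Nat.card A) dvd_rfl
      exact (EGZ.zmod (Nat.card A)).of_equiv (zmodAddCyclicAddEquiv (G := A) inferInstance)
    · -- a proper nontrivial subgroup
      obtain ⟨p, hpp, hpd⟩ := Nat.exists_prime_and_dvd h1
      have : Fact p.Prime := ⟨hpp⟩
      obtain ⟨x, hx⟩ := exists_prime_addOrderOf_dvd_card' (G := A) p hpd
      set B : AddSubgroup A := AddSubgroup.zmultiples x with hB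
      have hBc : Nat.card B = p := by rw [hB, Nat.card_zmultiples, hx]
      have hmul := AddSubgroup.card_eq_card_quotient_mul_card_addSubgroup B
      have hpn : p ≠ Nat.card A := fun h => hp (h ▸ hpp)
      have hplt : p < Nat.card A := lt_of_le_of_ne (Nat.le_of_dvd hpos hpd) hpn
      have hqlt : Nat.card (A ⧸ B) < Nat.card A := by
        rw [hmul, hBc]
        have hq : 0 < Nat.card (A ⧸ B) := Nat.card_pos
        have := hpp.two_le
        nlinarith
      exact EGZ.ext B (ih _ (by omega) B rfl) (ih _ (by omega) (A ⧸ B) rfl)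

/-- decomposition of zero-sum sequences into zero-sum blocks -/
lemma exists_blocks {A : Type} [AddCommGroup A] [Finite A] (L : Type) (f : L → A) (m : ℕ) :
    ∀ s : Multiset L, card s = m * Nat.card A → (s.map f).sum = 0 →
    ∃ U : Multiset {u : Multiset L // card u = Nat.card A ∧ (u.map f).sum = 0},
      card U = m ∧ (U.map Subtype.val).sum = s := by
  induction m with
  | zero =>
    intro s hs _
    have : s = 0 := by simpa using hs
    exact ⟨0, rfl, by simp [this]⟩
  | succ m ih =>
    intro s hs h0
    rcases Nat.eq_zero_or_pos m with rfl | hm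
    · exact ⟨{⟨s, by simpa using hs, h0⟩}, rfl, by simp⟩
    · have hq : 0 < Nat.card A := Nat.card_pos
      obtain ⟨t, ht, h1, h2⟩ := egz _ A rfl L f s (by
        rw [hs]
        have : 2 * Nat.card A ≤ (m + 1) * Nat.card A := Nat.mul_le_mul_right _ (by omega)
        omega)
      obtain ⟨r, rfl⟩ := Multiset.le_iff_exists_add.1 ht
      obtain ⟨U, hU1, hU2⟩ := ih r (by
          rw [Multiset.card_add, h1] at hs
          have : (m + 1) * Nat.card A = m * Nat.card A + Nat.card A := by ring
          omega) (by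
          rw [Multiset.map_add, Multiset.sum_add, h2, zero_add] at h0
          exact h0)
      refine ⟨⟨t, h1, h2⟩ ::ₘ U, by rw [Multiset.card_cons, hU1], ?_⟩
      rw [Multiset.map_cons, Multiset.sum_cons, hU2]

end GQ23
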