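import Pool.Agent.Lib.MP_45c7d7_ag.Tower
import Pool.Agent.Lib.MP_45c7d7_ag.EGZ

/-!
# The bottom level (helper23)

Blocks of length `q = |H / B|` over the letters, with sum in `B`.
-/

namespace GQ23

open Multiset

set_option linter.unusedSectionVars false

section Top

/-- the top letters of a multiset -/
lemma top_unique {L : Type} (r : L → ℕ) (hr : Function.Injective r) {s t s' t' : Multiset L}
    (h : s + t = s' + t') (hc : card s = card s')
    (h1 : ∀ a ∈ t, ∀ b ∈ s, r a ≤ r b) (h2 : ∀ a ∈ t', ∀ b ∈ s', r a ≤ r b) : s = s' := by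
  classical
  by_contra hne
  have hnle : ¬ s ≤ s' := fun hle => hne (Multiset.eq_of_le_of_card_le hle hc.ge)
  have hnle' : ¬ s' ≤ s := fun hle => hne (Multiset.eq_of_le_of_card_le hle hc.le).symm
  rw [Multiset.le_iff_count] at hnle hnle'
  push Not at hnle hnle'
  obtain ⟨x, hx⟩ := hnle
  obtain ⟨y, hy⟩ := hnle'
  have ex := congrArg (Multiset.count x) h
  have ey := congrArg (Multiset.count y) h
  rw [Multiset.count_add, Multiset.count_add] at ex ey
  have mx : x ∈ s := Multiset.count_pos.1 (by omega)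
  have mxt : x ∈ t' := Multiset.count_pos.1 (by omega)
  have my : y ∈ s' := Multiset.count_pos.1 (by omega)
  have myt : y ∈ t := Multiset.count_pos.1 (by omega)
  have e1 := h1 y myt x mx
  have e2 := h2 x mxt y my
  have : x = y := hr (by omega)
  subst this
  omega

end Top

section Base

variable {L H : Type} [Finite L] [AddCommGroup H] [Finite H]

/-- blocks -/
abbrev Blk (χ : L → H) (B : AddSubgroup H) : Type :=
  {y : Multiset L // card y = Nat.card (H ⧸ B) ∧ (y.map χ).sum ∈ B}

instance finite_blk (χ : L → H) (B : AddSubgroup H) : Finite (Blk χ B) := by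
  have h : Finite (Sym L (Nat.card (H ⧸ B))) := inferInstance
  let f : Blk χ B → Sym L (Nat.card (H ⧸ B)) := fun z => ⟨z.1, z.2.1⟩
  refine Finite.of_injective f (fun a b hab => Subtype.ext ?_)
  have h1 : (f a).1 = (f b).1 := by rw [hab]
  exact h1

variable {χ : L → H} {B : AddSubgroup H}

/-- the class of a letter -/
def cl (χ : L → H) (B : AddSubgroup H) (l : L) : H ⧸ B := QuotientAddGroup.mk (χ l)

lemma cl_sum (χ : L → H) (B : AddSubgroup H) (y : Multiset L) :
    (y.map (cl χ B)).sum = QuotientAddGroup.mk ((y.map χ).sum) := by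
  have := map_multiset_sum (QuotientAddGroup.mk' B) (y.map χ)
  rw [Multiset.map_map] at this
  exact this.symm

lemma cl_sum_zero (χ : L → H) (B : AddSubgroup H) (y : Multiset L) :
    (y.map (cl χ B)).sum = 0 ↔ (y.map χ).sum ∈ B := by
  rw [cl_sum, QuotientAddGroup.eq_zero_iff]

/-- pure blocks: all letters of one class -/
def Pure (y : Blk χ B) : Prop := ∀ a ∈ y.1.map (cl χ B), ∀ b ∈ y.1.map (cl χ B), a = b

open Classical in
/-- content: `1` for mixed blocks -/
noncomputable def np (y : Blk χ B) : ℕ := if Pure y then 0 else 1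

/-- rank sum -/
def rs (r : L → ℕ) (y : Blk χ B) : ℕ := (y.1.map r).sum

open Classical in
noncomputable def w2 (r : L → ℕ) (y : Blk χ B) : ℕ := if Pure y then 0 else rs r y

open Classical in
noncomputable def w3 (r : L → ℕ) (C : ℕ) (y : Blk χ B) : ℕ := if Pure y then C - (rs r y) ^ 2 else 0

/-- the key of blocks -/
noncomputable def κ0 (r : L → ℕ) (C : ℕ) {N : ℕ} (e : Blk χ B → Fin N) (y : Blk χ B) :
    ℕ ×ₗ (ℕ ×ₗ (ℕ ×ₗ Lex (Fin N →₀ ℕ))) :=
  toLex (np y, toLex (w2 r y, toLex (w3 r C y, toLex (Finsupp.single (e y) 1))))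

lemma KEY_κ0 (r : L → ℕ) (C : ℕ) {N : ℕ} (e : Blk χ B → Fin N) (w : Multiset (Blk χ B)) :
    KEY (κ0 r C e) w = toLex ((w.map np).sum, toLex ((w.map (w2 r)).sum,
      toLex ((w.map (w3 r C)).sum, toLex ((w.map (fun y => Finsupp.single (e y) 1)).sum)))) := by
  induction w using Multiset.induction_on with
  | empty => simp; rfl
  | cons y w ih =>
    rw [KEY_cons, ih, Multiset.map_cons, Multiset.sum_cons, Multiset.map_cons, Multiset.sum_cons,
      Multiset.map_cons, Multiset.sum_cons, Multiset.map_cons, Multiset.sum_cons]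
    rfl

/-- flattening of blocks -/
def fl0 (y : Blk χ B) : Multiset L := y.1

/-- label of blocks -/
def lab0 (y : Blk χ B) : B := ⟨(y.1.map χ).sum, y.2.2⟩

lemma card_FL0 (w : Multiset (Blk χ B)) :
    card (FL fl0 w) = card w * Nat.card (H ⧸ B) := by
  induction w using Multiset.induction_on with
  | empty => simp
  | cons y w ih => rw [FL_cons, Multiset.card_add, ih, Multiset.card_cons, fl0, y.2.1]; ring

lemma lab0_sum (w : Multiset (Blk χ B)) :
    (((w.map lab0).sum : B) : H) = ((FL fl0 w).map χ).sum := by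
  induction w using Multiset.induction_on with
  | empty => simp
  | cons y w ih =>
    rw [Multiset.map_cons, Multiset.sum_cons, FL_cons, Multiset.map_add, Multiset.sum_add, ← ih]
    rfl

lemma cl_FL0 (w : Multiset (Blk χ B)) : ((FL fl0 w).map (cl χ B)).sum = 0 := by
  rw [cl_sum_zero, ← lab0_sum]
  exact (w.map lab0).sum.2

variable {r : L → ℕ} {C N : ℕ} {e : Blk χ B → Fin N}

/-- comparison of the key components -/
lemma Std.cmp {w w' : Multiset (Blk χ B)} (h : Std fl0 (κ0 r C e) w) (hF : FL fl0 w' = FL fl0 w) :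
    (w.map np).sum ≤ (w'.map np).sum ∧
    ((w.map np).sum = (w'.map np).sum → (w.map (w2 r)).sum ≤ (w'.map (w2 r)).sum ∧
      ((w.map (w2 r)).sum = (w'.map (w2 r)).sum → (w.map (w3 r C)).sum ≤ (w'.map (w3 r C)).sum)) := by
  have h1 := h w' hF
  rw [KEY_κ0, KEY_κ0, Prod.Lex.toLex_le_toLex, Prod.Lex.toLex_le_toLex,
    Prod.Lex.toLex_le_toLex] at h1
  simp only at h1
  refine ⟨?_, fun h2 => ⟨?_, fun h3 => ?_⟩⟩
  · rcases h1 with h1 | h1 <;> omega
  · rcases h1 with h1 | ⟨-, h1 | h1⟩ <;> omega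
  · rcases h1 with h1 | ⟨-, h1 | ⟨-, h1 | h1⟩⟩ <;> omega

lemma uniq0 (he : Function.Injective e) (w w' : Multiset (Blk χ B)) (h : Std fl0 (κ0 r C e) w)
    (h' : Std fl0 (κ0 r C e) w') (hF : FL fl0 w = FL fl0 w') : w = w' := by
  classical
  have h1 : KEY (κ0 r C e) w = KEY (κ0 r C e) w' := le_antisymm (h w' hF.symm) (h' w hF)
  rw [KEY_κ0, KEY_κ0] at h1
  have h2 := congrArg (fun x => ofLex (ofLex (ofLex (ofLex x).2).2).2) h1
  simp only [ofLex_toLex] at h2
  have h3 : ∀ v : Multiset (Blk χ B), (v.map (fun y => Finsupp.single (e y) 1)).sum =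
      Multiset.toFinsupp (v.map e) := by
    intro v
    induction v using Multiset.induction_on with
    | empty => simp
    | cons y v ih =>
      rw [Multiset.map_cons, Multiset.sum_cons, ih, Multiset.map_cons, ← Multiset.singleton_add,
        _root_.map_add, Multiset.toFinsupp_singleton]
  rw [h3, h3] at h2
  exact Multiset.map_injective he (Multiset.toFinsupp.injective h2)

/-- swapping two letters of the same class -/
lemma exists_swap (r : L → ℕ) {y y' : Blk χ B} {a a' : L} (ha : a ∈ y.1) (ha' : a' ∈ y'.1)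
    (hcl : cl χ B a = cl χ B a') :
    ∃ z z' : Blk χ B, FL fl0 {z, z'} = FL fl0 {y, y'} ∧ (Pure z ↔ Pure y) ∧ (Pure z' ↔ Pure y') ∧
      rs r z + r a = rs r y + r a' ∧ rs r z' + r a' = rs r y' + r a := by
  obtain ⟨u, hu⟩ := Multiset.exists_cons_of_mem ha
  obtain ⟨u', hu'⟩ := Multiset.exists_cons_of_mem ha'
  have hd : -χ a + χ a' ∈ B := by
    have : (QuotientAddGroup.mk (χ a) : H ⧸ B) = QuotientAddGroup.mk (χ a') := hcl
    rwa [QuotientAddGroup.eq] at this
  have hz : (((a' ::ₘ u).map χ).sum : H) ∈ B := by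
    have h1 := y.2.2
    rw [hu, Multiset.map_cons, Multiset.sum_cons] at h1
    rw [Multiset.map_cons, Multiset.sum_cons]
    have h2 := B.add_mem h1 hd
    have e1 : χ a + (u.map χ).sum + (-χ a + χ a') = χ a' + (u.map χ).sum := by abel
    rwa [e1] at h2
  have hz' : (((a ::ₘ u').map χ).sum : H) ∈ B := by
    have h1 := y'.2.2
    rw [hu', Multiset.map_cons, Multiset.sum_cons] at h1
    rw [Multiset.map_cons, Multiset.sum_cons]
    have h2 := B.sub_mem h1 hd
    have e1 : χ a' + (u'.map χ).sum - (-χ a + χ a') = χ a + (u'.map χ).sum := by abel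
    rwa [e1] at h2
  refine ⟨⟨a' ::ₘ u, ?_, hz⟩, ⟨a ::ₘ u', ?_, hz'⟩, ?_, ?_, ?_, ?_, ?_⟩
  · rw [← y.2.1, hu]; simp
  · rw [← y'.2.1, hu']; simp
  · simp only [Multiset.insert_eq_cons, FL_cons, FL_singleton, fl0]
    rw [hu, hu']
    simp only [← Multiset.singleton_add]
    abel
  · simp only [Pure]
    rw [hu, Multiset.map_cons, Multiset.map_cons, hcl]
  · simp only [Pure]
    rw [hu', Multiset.map_cons, Multiset.map_cons, hcl]
  · simp only [rs]
    rw [hu, Multiset.map_cons, Multiset.sum_cons, Multiset.map_cons, Multiset.sum_cons]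
    ring
  · simp only [rs]
    rw [hu', Multiset.map_cons, Multiset.sum_cons, Multiset.map_cons, Multiset.sum_cons]
    ring

lemma mixed_le_pure {y y' : Blk χ B} (h : Std fl0 (κ0 r C e) {y, y'}) (hy : ¬ Pure y)
    (hy' : Pure y') {a a' : L} (ha : a ∈ y.1) (ha' : a' ∈ y'.1) (hcl : cl χ B a = cl χ B a') :
    r a ≤ r a' := by
  by_contra hlt
  push Not at hlt
  obtain ⟨z, z', hF, p1, p2, e1, e2⟩ := exists_swap r ha ha' hcl
  have hz : ¬ Pure z := fun h => hy (p1.1 h)
  have hz' : Pure z' := p2.2 hy'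
  obtain ⟨-, h2⟩ := h.cmp hF
  have h3 := (h2 (by simp [np, hy, hy', hz, hz'])).1
  simp [w2, hy, hy', hz, hz'] at h3
  omega

lemma pure_le_pure (hC : ∀ y : Blk χ B, (rs r y) ^ 2 ≤ C) {y y' : Blk χ B}
    (h : Std fl0 (κ0 r C e) {y, y'}) (hy : Pure y)
    (hy' : Pure y') (hle : rs r y ≤ rs r y') {a a' : L} (ha : a ∈ y.1) (ha' : a' ∈ y'.1)
    (hcl : cl χ B a = cl χ B a') :
    r a ≤ r a' := by
  by_contra hlt
  push Not at hlt
  obtain ⟨z, z', hF, p1, p2, e1, e2⟩ := exists_swap r ha ha' hcl
  have hz : Pure z := p1.2 hy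
  have hz' : Pure z' := p2.2 hy'
  obtain ⟨-, h2⟩ := h.cmp hF
  obtain ⟨-, h3⟩ := h2 (by simp [np, hy, hy', hz, hz'])
  have h4 := h3 (by simp [w2, hy, hy', hz, hz'])
  simp [w3, hy, hy', hz, hz'] at h4
  have b1 := hC y
  have b2 := hC y'
  have b3 := hC z
  have b4 := hC z'
  have h5 : rs r z ^ 2 + rs r z' ^ 2 ≤ rs r y ^ 2 + rs r y' ^ 2 := by omega
  zify at h5 e1 e2 hle hlt
  have e3 : (rs r z : ℤ) = rs r y + r a' - r a := by linarith
  have e4 : (rs r z' : ℤ) = rs r y' + r a - r a' := by linarith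
  rw [e3, e4] at h5
  nlinarith [mul_nonneg (sub_nonneg.2 hle) (sub_nonneg.2 hlt.le), mul_pos (sub_pos.2 hlt) (sub_pos.2 hlt)]

lemma np_pos {y : Blk χ B} : 0 < np y ↔ ¬ Pure y := by
  classical
  unfold np
  split_ifs with h <;> simp [h]

/-- a standard word of mixed blocks has fewer than `q` letters of each class -/
lemma count_lt (w : Multiset (Blk χ B)) (h : Std fl0 (κ0 r C e) w)
    (hw : ∀ y ∈ w, ¬ Pure y) (k : H ⧸ B) [DecidableEq (H ⧸ B)] :
    ((FL fl0 w).map (cl χ B)).count k < Nat.card (H ⧸ B) := by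
  classical
  by_contra hge
  push Not at hge
  rw [Multiset.count_map] at hge
  obtain ⟨t, ht, hct⟩ := exists_le_card _ _ hge
  have htF : t ≤ FL fl0 w := ht.trans (Multiset.filter_le _ _)
  have htc : ∀ a ∈ t, cl χ B a = k := fun a ha =>
    ((Multiset.mem_filter.1 (Multiset.mem_of_le ht ha)).2).symm
  have hmapt : t.map (cl χ B) = Multiset.replicate (Nat.card (H ⧸ B)) k := by
    rw [Multiset.eq_replicate]
    refine ⟨by rw [Multiset.card_map, hct], ?_⟩
    intro b hb
    obtain ⟨a, ha, rfl⟩ := Multiset.mem_map.1 hb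
    exact htc a ha
  have ht0 : (t.map (cl χ B)).sum = 0 := by
    rw [hmapt, Multiset.sum_replicate]
    exact card_nsmul_eq_zero'
  obtain ⟨F', hF'⟩ := Multiset.le_iff_exists_add.1 htF
  have hq : 0 < Nat.card (H ⧸ B) := Nat.card_pos
  have hcF := card_FL0 w
  have hm : 0 < card w := by
    rcases Nat.eq_zero_or_pos (card w) with h0 | h0
    · rw [h0, zero_mul, hF', Multiset.card_add] at hcF
      omega
    · exact h0
  obtain ⟨m, hm'⟩ : ∃ m, card w = m + 1 := ⟨card w - 1, by omega⟩
  have hcF' : card F' = m * Nat.card (H ⧸ B) := by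
    rw [hF', Multiset.card_add, hct, hm'] at hcF
    have : (m + 1) * Nat.card (H ⧸ B) = m * Nat.card (H ⧸ B) + Nat.card (H ⧸ B) := by ring
    omega
  have hF0 : (F'.map (cl χ B)).sum = 0 := by
    have h0 := cl_FL0 w
    rw [hF', Multiset.map_add, Multiset.sum_add, ht0, zero_add] at h0
    exact h0
  obtain ⟨U, hU1, hU2⟩ := exists_blocks L (cl χ B) m F' hcF' hF0
  let g : {u : Multiset L // card u = Nat.card (H ⧸ B) ∧ (u.map (cl χ B)).sum = 0} → Blk χ B :=
    fun u => ⟨u.1, u.2.1, (cl_sum_zero χ B u.1).1 u.2.2⟩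
  have hFg : FL fl0 (U.map g) = F' := by
    rw [← hU2, FL, Multiset.map_map]
    rfl
  set p : Blk χ B := ⟨t, hct, (cl_sum_zero χ B t).1 ht0⟩ with hp
  have hpp : Pure p := by
    intro a ha b hb
    have ha' : a ∈ t.map (cl χ B) := ha
    have hb' : b ∈ t.map (cl χ B) := hb
    rw [hmapt] at ha' hb'
    rw [Multiset.eq_of_mem_replicate ha', Multiset.eq_of_mem_replicate hb']
  have hF2 : FL fl0 (p ::ₘ U.map g) = FL fl0 w := by
    rw [FL_cons, hFg, hF']
    rfl
  have h1 := (h.cmp hF2).1
  have h2 : (w.map np).sum = m + 1 := by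
    rw [← hm']
    have : w.map np = Multiset.replicate (card w) 1 := by
      rw [Multiset.eq_replicate]
      refine ⟨Multiset.card_map _ _, ?_⟩
      intro b hb
      obtain ⟨y, hy, rfl⟩ := Multiset.mem_map.1 hb
      simp [np, hw y hy]
    rw [this, Multiset.sum_replicate]; simp
  have h3 : ((p ::ₘ U.map g).map np).sum ≤ m := by
    rw [Multiset.map_cons, Multiset.sum_cons]
    have e1 : np p = 0 := by simp [np, hpp]
    rw [e1, zero_add]
    have e2 : ∀ V : Multiset (Blk χ B), (V.map np).sum ≤ card V := by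
      intro V
      induction V using Multiset.induction_on with
      | empty => simp
      | cons y V ih =>
        rw [Multiset.map_cons, Multiset.sum_cons, Multiset.card_cons]
        have : np y ≤ 1 := by unfold np; split_ifs <;> simp
        omega
    exact (e2 _).trans (by rw [Multiset.card_map, hU1])
  omega

lemma np_eq_one {y : Blk χ B} (h : ¬ Pure y) : np y = 1 := by simp [np, h]

lemma np_le_one (y : Blk χ B) : np y ≤ 1 := by unfold np; split_ifs <;> simp

lemma filter_np (w : Multiset (Blk χ B)) :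
    (w.filter (fun y => 0 < np y)).map np = Multiset.replicate (card (w.filter (fun y => 0 < np y))) 1
    := by
  rw [Multiset.eq_replicate]
  refine ⟨Multiset.card_map _ _, ?_⟩
  intro b hb
  obtain ⟨y, hy, rfl⟩ := Multiset.mem_map.1 hb
  exact np_eq_one (np_pos.1 (Multiset.mem_filter.1 hy).2)

lemma sum_np (w : Multiset (Blk χ B)) :
    (w.map np).sum = card (w.filter (fun y => 0 < np y)) := by
  induction w using Multiset.induction_on with
  | empty => simp
  | cons y w ih =>
    rw [Multiset.map_cons, Multiset.sum_cons, ih]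
    by_cases hy : 0 < np y
    · rw [Multiset.filter_cons_of_pos (p := fun y => 0 < np y) _ hy, Multiset.card_cons]
      have := np_le_one y
      omega
    · rw [Multiset.filter_cons_of_neg (p := fun y => 0 < np y) _ hy]
      omega

/-- number of mixed blocks of a standard word -/
lemma bound0 (w : Multiset (Blk χ B)) (h : Std fl0 (κ0 r C e) w) :
    (w.map np).sum ≤ (Set.range (cl χ B)).ncard - 1 := by
  classical
  rw [sum_np]
  set v := w.filter (fun y => 0 < np y) with hv
  have hst : Std fl0 (κ0 r C e) v := h.mono (Multiset.filter_le _ _)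
  have hmix : ∀ y ∈ v, ¬ Pure y := fun y hy => np_pos.1 (Multiset.mem_filter.1 hy).2
  have hq : 0 < Nat.card (H ⧸ B) := Nat.card_pos
  set S : Finset (H ⧸ B) := (Set.toFinite (Set.range (cl χ B))).toFinset with hS
  have hSc : S.card = (Set.range (cl χ B)).ncard := by
    rw [hS, Set.ncard_eq_toFinset_card _ (Set.toFinite _)]
  have h1 : ∑ k ∈ S, ((FL fl0 v).map (cl χ B)).count k = card ((FL fl0 v).map (cl χ B)) := by
    apply Multiset.sum_count_eq_card
    intro a ha
    obtain ⟨l, -, rfl⟩ := Multiset.mem_map.1 ha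
    rw [hS, Set.Finite.mem_toFinset]
    exact ⟨l, rfl⟩
  rw [Multiset.card_map, card_FL0] at h1
  have h2 : ∑ k ∈ S, ((FL fl0 v).map (cl χ B)).count k ≤ S.card * (Nat.card (H ⧸ B) - 1) := by
    rw [← smul_eq_mul, ← Finset.sum_const]
    apply Finset.sum_le_sum
    intro k _
    have := count_lt v hst hmix k
    omega
  rw [← hSc]
  rcases Nat.eq_zero_or_pos (card v) with h0 | h0
  · omega
  · by_contra hcon
    push Not at hcon
    have h3 : S.card ≤ card v := by omega
    have h4 : S.card * (Nat.card (H ⧸ B) - 1) ≤ card v * (Nat.card (H ⧸ B) - 1) :=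
      Nat.mul_le_mul_right _ h3
    have h5 : card v * Nat.card (H ⧸ B) = card v * (Nat.card (H ⧸ B) - 1) + card v := by
      obtain ⟨q, hq'⟩ : ∃ q, Nat.card (H ⧸ B) = q + 1 := ⟨Nat.card (H ⧸ B) - 1, by omega⟩
      rw [hq']; simp; ring
    omega

/-- the last pure block of a class -/
lemma exists_last (hC : ∀ y : Blk χ B, (rs r y) ^ 2 ≤ C) {w : Multiset (Blk χ B)}
    (hw : PW fl0 (κ0 r C e) w) (k : H ⧸ B)
    (hex : ∃ p ∈ w, Pure p ∧ ∃ a ∈ p.1, cl χ B a = k) :
    ∃ (p : Blk χ B) (v : Multiset (Blk χ B)), w = p ::ₘ v ∧ Pure p ∧ (∀ a ∈ p.1, cl χ B a = k) ∧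
      ∀ a ∈ FL fl0 v, cl χ B a = k → ∀ b ∈ p.1, r a ≤ r b := by
  classical
  have hne : ((w.filter (fun p => Pure p ∧ ∃ a ∈ p.1, cl χ B a = k)).toFinset).Nonempty := by
    obtain ⟨p, hp, h1, h2⟩ := hex
    exact ⟨p, by rw [Multiset.mem_toFinset, Multiset.mem_filter]; exact ⟨hp, h1, h2⟩⟩
  obtain ⟨p, hp, hmax⟩ := Finset.exists_max_image _ (rs r) hne
  rw [Multiset.mem_toFinset, Multiset.mem_filter] at hp
  obtain ⟨hpw, hpp, a0, ha0, hk0⟩ := hp
  have hpk : ∀ a ∈ p.1, cl χ B a = k := by
    intro a ha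
    rw [← hk0]
    exact hpp _ (Multiset.mem_map_of_mem _ ha) _ (Multiset.mem_map_of_mem _ ha0)
  obtain ⟨v, rfl⟩ := Multiset.exists_cons_of_mem hpw
  refine ⟨p, v, rfl, hpp, hpk, ?_⟩
  intro a ha hka b hb
  -- the block containing `a`
  obtain ⟨y, hy, hay⟩ : ∃ y ∈ v, a ∈ y.1 := by
    clear hmax hw hex hpw hne
    induction v using Multiset.induction_on with
    | empty => simp at ha
    | cons y v ih =>
      rw [FL_cons, Multiset.mem_add] at ha
      rcases ha with ha | ha
      · exact ⟨y, Multiset.mem_cons_self _ _, ha⟩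
      · obtain ⟨y', h1, h2⟩ := ih ha
        exact ⟨y', Multiset.mem_cons_of_mem h1, h2⟩
  have hle : ({y, p} : Multiset (Blk χ B)) ≤ p ::ₘ v := by
    rw [Multiset.pair_comm]
    exact Multiset.cons_le_cons _ (Multiset.singleton_le.2 hy)
  have hst : Std fl0 (κ0 r C e) {y, p} := hw _ hle le_rfl
  have hcl : cl χ B a = cl χ B b := by rw [hka, hpk b hb]
  by_cases hyp : Pure y
  · refine pure_le_pure hC hst hyp hpp ?_ hay hb hcl
    apply hmax
    rw [Multiset.mem_toFinset, Multiset.mem_filter]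
    exact ⟨Multiset.mem_cons_of_mem hy, hyp, a, hay, hka⟩
  · exact mixed_le_pure hst hyp hpp hay hb hcl

/-- number of letters of a class without pure blocks of that class -/
lemma count_lt' (w : Multiset (Blk χ B)) (h : Std fl0 (κ0 r C e) (w.filter (fun y => 0 < np y)))
    (k : H ⧸ B) [DecidableEq (H ⧸ B)]
    (hno : ∀ p ∈ w, Pure p → ∀ a ∈ p.1, cl χ B a ≠ k) :
    ((FL fl0 w).map (cl χ B)).count k < Nat.card (H ⧸ B) := by
  classical
  have h1 := count_lt (w.filter (fun y => 0 < np y)) h
    (fun y hy => np_pos.1 (Multiset.mem_filter.1 hy).2) k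
  have h2 : ((FL fl0 w).map (cl χ B)).count k =
      ((FL fl0 (w.filter (fun y => 0 < np y))).map (cl χ B)).count k := by
    clear h h1
    induction w using Multiset.induction_on with
    | empty => simp
    | cons y w ih =>
      have ih' := ih (fun p hp => hno p (Multiset.mem_cons_of_mem hp))
      by_cases hy : 0 < np y
      · rw [Multiset.filter_cons_of_pos (p := fun y => 0 < np y) _ hy, FL_cons, FL_cons,
          Multiset.map_add, Multiset.map_add, Multiset.count_add, Multiset.count_add, ih']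
      · rw [Multiset.filter_cons_of_neg (p := fun y => 0 < np y) _ hy, FL_cons,
          Multiset.map_add, Multiset.count_add, ih']
        have hp : Pure y := by
          by_contra hp
          exact hy (np_pos.2 hp)
        have : ((fl0 y).map (cl χ B)).count k = 0 := by
          rw [Multiset.count_eq_zero]
          intro hk
          obtain ⟨a, ha, hak⟩ := Multiset.mem_map.1 hk
          exact hno y (Multiset.mem_cons_self _ _) hp a ha hak
        omega
  omega

lemma pair_unique (hr : Function.Injective r) (he : Function.Injective e)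
    (hC : ∀ y : Blk χ B, (rs r y) ^ 2 ≤ C) (n : ℕ) :
    ∀ w w' : Multiset (Blk χ B), card w = n → PW fl0 (κ0 r C e) w → PW fl0 (κ0 r C e) w' →
    Std fl0 (κ0 r C e) (w.filter (fun y => 0 < np y)) →
    Std fl0 (κ0 r C e) (w'.filter (fun y => 0 < np y)) → FL fl0 w = FL fl0 w' → w = w' := by
  classical
  induction n with
  | zero =>
    intro w w' hc _ _ _ _ hF
    have h0 : w = 0 := by simpa using hc
    have h1 := card_FL0 w'
    rw [← hF, card_FL0, hc] at h1
    have hq : 0 < Nat.card (H ⧸ B) := Nat.card_pos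
    have h2 : card w' = 0 := by
      rcases Nat.eq_zero_or_pos (card w') with h | h
      · exact h
      · have := Nat.mul_pos h hq
        omega
    rw [h0, Multiset.card_eq_zero.1 h2]
  | succ n ih =>
    intro w w' hc hw hw' hs hs' hF
    by_cases hall : (∀ y ∈ w, ¬ Pure y) ∧ (∀ y ∈ w', ¬ Pure y)
    · have e1 : w.filter (fun y => 0 < np y) = w :=
        Multiset.filter_eq_self.2 (fun y hy => np_pos.2 (hall.1 y hy))
      have e2 : w'.filter (fun y => 0 < np y) = w' :=
        Multiset.filter_eq_self.2 (fun y hy => np_pos.2 (hall.2 y hy))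
      rw [e1] at hs
      rw [e2] at hs'
      exact uniq0 he w w' hs hs' hF
    · -- a class with a pure block in one of the two words
      have hq : 0 < Nat.card (H ⧸ B) := Nat.card_pos
      have hcount : ∀ (v : Multiset (Blk χ B)) (p : Blk χ B) (k : H ⧸ B), p ∈ v → Pure p →
          (∃ a ∈ p.1, cl χ B a = k) →
          Nat.card (H ⧸ B) ≤ ((FL fl0 v).map (cl χ B)).count k := by
        intro v p k hp hpp ⟨a, ha, hk⟩
        obtain ⟨u, rfl⟩ := Multiset.exists_cons_of_mem hp
        rw [FL_cons, Multiset.map_add, Multiset.count_add]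
        have : (fl0 p).map (cl χ B) = Multiset.replicate (Nat.card (H ⧸ B)) k := by
          rw [Multiset.eq_replicate]
          refine ⟨by rw [Multiset.card_map, fl0, p.2.1], ?_⟩
          intro b hb
          rw [← hk]
          exact hpp b hb _ (Multiset.mem_map_of_mem _ ha)
        rw [this, Multiset.count_replicate_self]
        omega
      have hboth : ∃ k, (∃ p ∈ w, Pure p ∧ ∃ a ∈ p.1, cl χ B a = k) ∧
          (∃ p ∈ w', Pure p ∧ ∃ a ∈ p.1, cl χ B a = k) := by
        have hone : (∃ y ∈ w, Pure y) ∨ (∃ y ∈ w', Pure y) := by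
          by_contra hcon
          push Not at hcon
          exact hall ⟨hcon.1, hcon.2⟩
        have hne : ∀ p : Blk χ B, ∃ a, a ∈ p.1 := fun p =>
          Multiset.card_pos_iff_exists_mem.1 (by rw [p.2.1]; exact hq)
        rcases hone with ⟨p, hp, hpp⟩ | ⟨p, hp, hpp⟩
        · obtain ⟨a, ha⟩ := hne p
          refine ⟨cl χ B a, ⟨p, hp, hpp, a, ha, rfl⟩, ?_⟩
          by_contra hcon
          push Not at hcon
          have h1 := count_lt' w' hs' (cl χ B a) (fun p' hp' hpp' a' ha' => hcon p' hp' hpp' a' ha')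
          have h2 := hcount w p (cl χ B a) hp hpp ⟨a, ha, rfl⟩
          rw [hF] at h2
          omega
        · obtain ⟨a, ha⟩ := hne p
          refine ⟨cl χ B a, ?_, ⟨p, hp, hpp, a, ha, rfl⟩⟩
          by_contra hcon
          push Not at hcon
          have h1 := count_lt' w hs (cl χ B a) (fun p' hp' hpp' a' ha' => hcon p' hp' hpp' a' ha')
          have h2 := hcount w' p (cl χ B a) hp hpp ⟨a, ha, rfl⟩
          rw [hF] at h1
          omega
      obtain ⟨k, hk, hk'⟩ := hboth
      obtain ⟨p, v, rfl, hpp, hpk, htop⟩ := exists_last hC hw k hk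
      obtain ⟨p', v', rfl, hpp', hpk', htop'⟩ := exists_last hC hw' k hk'
      have hpe : p = p' := by
        apply Subtype.ext
        have e1 : (FL fl0 (p ::ₘ v)).filter (fun a => cl χ B a = k) =
            p.1 + (FL fl0 v).filter (fun a => cl χ B a = k) := by
          rw [FL_cons, Multiset.filter_add]
          congr 1
          exact Multiset.filter_eq_self.2 hpk
        have e2 : (FL fl0 (p' ::ₘ v')).filter (fun a => cl χ B a = k) =
            p'.1 + (FL fl0 v').filter (fun a => cl χ B a = k) := by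
          rw [FL_cons, Multiset.filter_add]
          congr 1
          exact Multiset.filter_eq_self.2 hpk'
        refine top_unique r hr (t := (FL fl0 v).filter (fun a => cl χ B a = k))
          (t' := (FL fl0 v').filter (fun a => cl χ B a = k)) ?_ (by rw [p.2.1, p'.2.1]) ?_ ?_
        · rw [← e1, ← e2, hF]
        · intro a ha b hb
          rw [Multiset.mem_filter] at ha
          exact htop a ha.1 ha.2 b hb
        · intro a ha b hb
          rw [Multiset.mem_filter] at ha
          exact htop' a ha.1 ha.2 b hb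
      subst hpe
      have hnp : ¬ 0 < np p := fun h => np_pos.1 h hpp
      rw [Multiset.filter_cons_of_neg (p := fun y => 0 < np y) _ hnp] at hs hs'
      rw [FL_cons, FL_cons] at hF
      rw [ih v v' (by simpa using hc) (hw.mono (Multiset.le_cons_self _ _))
        (hw'.mono (Multiset.le_cons_self _ _)) hs hs' (add_left_cancel hF)]

theorem good0 (hr : Function.Injective r) (he : Function.Injective e)
    (hC : ∀ y : Blk χ B, (rs r y) ^ 2 ≤ C) :
    Good (fl0 : Blk χ B → Multiset L) (κ0 r C e) lab0 np 1 ((Set.range (cl χ B)).ncard - 1) where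
  sat_card := by
    intro w w' hF
    have h1 := card_FL0 w
    rw [hF, card_FL0] at h1
    exact (Nat.eq_of_mul_eq_mul_right Nat.card_pos h1).symm
  sat_lab := by
    intro w w' hF
    apply Subtype.ext
    rw [lab0_sum, lab0_sum, hF]
  uniq := fun w w' => uniq0 he w w'
  pair := by
    intro w hw hs
    obtain ⟨m, h1, h2⟩ := exists_std fl0 (κ0 r C e) w
    have h3 := pair_unique hr he hC (card m) m w rfl h2.pw hw
      (h2.mono (Multiset.filter_le _ _)) hs h1
    rw [← h3]; exact h2
  bound := fun w h => bound0 w h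
  le := np_le_one
  s4 := by
    intro w _ hc hpos
    obtain ⟨y, hy⟩ := Multiset.card_pos_iff_exists_mem.1 (show 0 < card w by omega)
    exact ⟨y, hy, hpos y hy⟩
  s3 := by
    intro w _ hc hpos
    obtain ⟨v, hv, hcv⟩ := exists_le_card w 2 (by omega)
    refine ⟨v, hv, hcv, ?_⟩
    have : v.map np = Multiset.replicate 2 1 := by
      rw [Multiset.eq_replicate]
      refine ⟨by rw [Multiset.card_map, hcv], ?_⟩
      intro b hb
      obtain ⟨y, hy, rfl⟩ := Multiset.mem_map.1 hb
      exact np_eq_one (np_pos.1 (hpos y (Multiset.mem_of_le hv hy)))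
    rw [this]; simp

end Base

/-- **Main combinatorial theorem.** -/
theorem qorder_main {L H : Type} [Finite L] [AddCommGroup H] [Finite H] (χ : L → H)
    (B : AddSubgroup H) (a : ℕ) (hB : Nat.card B = 2 ^ a)
    (hcl : (Set.range (cl χ B)).ncard ≤ 2 ^ a + 1) :
    QOrder (fun ω : Multiset L => card ω = Nat.card H ∧ (ω.map χ).sum = 0) := by
  obtain ⟨n, ⟨f⟩⟩ := Finite.exists_equiv_fin L
  obtain ⟨N, ⟨e⟩⟩ := Finite.exists_equiv_fin (Blk χ B)
  set r : L → ℕ := fun l => (f l : ℕ) with hr
  have hrinj : Function.Injective r := fun x y h => f.injective (Fin.ext h)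
  obtain ⟨C, hC⟩ : ∃ C, ∀ y : Blk χ B, (rs r y) ^ 2 ≤ C := by
    obtain ⟨M, hM⟩ := (Set.finite_range (fun y : Blk χ B => (rs r y) ^ 2)).bddAbove
    exact ⟨M, fun z => hM ⟨z, rfl⟩⟩
  have hcard : Nat.card H = Nat.card (H ⧸ B) * 2 ^ a := by
    rw [← hB]; exact AddSubgroup.card_eq_card_quotient_mul_card_addSubgroup B
  refine tower L ((Set.range (cl χ B)).ncard - 1) _ a (Blk χ B) B _ fl0 (κ0 r C e) lab0 np 1 hB
    (good0 hrinj e.injective hC) (by omega) ?_
  intro ω
  constructor
  · rintro ⟨h1, h2⟩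
    obtain ⟨U, hU1, hU2⟩ := exists_blocks L (cl χ B) (2 ^ a) ω (by rw [h1, hcard]; ring)
      ((cl_sum_zero χ B ω).2 (by rw [h2]; exact B.zero_mem))
    let g : {u : Multiset L // card u = Nat.card (H ⧸ B) ∧ (u.map (cl χ B)).sum = 0} → Blk χ B :=
      fun u => ⟨u.1, u.2.1, (cl_sum_zero χ B u.1).1 u.2.2⟩
    have hFg : FL fl0 (U.map g) = ω := by
      rw [← hU2, FL, Multiset.map_map]
      rfl
    refine ⟨U.map g, by rw [Multiset.card_map, hU1], ?_, hFg⟩
    apply Subtype.ext
    rw [lab0_sum, hFg, h2]; rfl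
  · rintro ⟨z, h1, h2, rfl⟩
    refine ⟨?_, ?_⟩
    · rw [card_FL0, h1, hcard]; ring
    · rw [← lab0_sum, h2]; rfl

end GQ23
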