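import Mathlib

/-!
# Definitions for `MP_45c7d7_ag` (helper23)

Toric ideals of sets of monomials, quadratic ideals, Gröbner bases of quadrics, and the set of
monomials of degree `|G|` fixed by a finite group `G` of matrices.
-/

namespace GQ23

open MvPolynomial

universe u

/-- The algebra map `K[w_u : u ∈ S] → K[x]`, `w_u ↦ x^u`. -/
noncomputable def toricMap (K : Type u) [Field K] {L : Type} (S : Set (L →₀ ℕ)) :
    MvPolynomial S K →ₐ[K] MvPolynomial L K :=
  aeval (fun s : S => monomial s.1 (1 : K))

/-- The toric ideal of a set `S` of exponents: the kernel of `w_u ↦ x^u`, `u ∈ S`. -/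
noncomputable def toricIdeal (K : Type u) [Field K] {L : Type} (S : Set (L →₀ ℕ)) :
    Ideal (MvPolynomial S K) :=
  RingHom.ker (toricMap K S)

/-- `I` is generated by quadrics. -/
def IsQuadratic {σ : Type} {K : Type u} [Field K] (I : Ideal (MvPolynomial σ K)) : Prop :=
  I = Ideal.span {g | g ∈ I ∧ g.IsHomogeneous 2}

/-- With respect to the monomial order `m`, `I` has a Gröbner basis of quadrics: the leading monomial
of every nonzero element of `I` is divisible by the leading monomial of a nonzero homogeneous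
element of degree two of `I`. -/
def QuadraticGroebner {σ : Type} {K : Type u} [Field K] (m : MonomialOrder.{0, 0} σ)
    (I : Ideal (MvPolynomial σ K)) : Prop :=
  ∀ f ∈ I, f ≠ 0 → ∃ g ∈ I, g ≠ 0 ∧ g.IsHomogeneous 2 ∧ m.degree g ≤ m.degree f

/-- `I` has a quadratic Gröbner basis for some linear coordinate system and some monomial order. -/
def GQuadratic {σ : Type} {K : Type u} [Field K] (I : Ideal (MvPolynomial σ K)) : Prop :=
  ∃ e : MvPolynomial σ K ≃ₐ[K] MvPolynomial σ K, (∀ i, (e (X i)).IsHomogeneous 1) ∧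
    ∃ m : MonomialOrder.{0, 0} σ,
      QuadraticGroebner m (I.map (e : MvPolynomial σ K →+* MvPolynomial σ K))

/-- The linear substitution `x_j ↦ ∑ i, g i j * x_i` of a matrix `g`. -/
noncomputable def act {K : Type u} [Field K] {n : ℕ} (g : Matrix (Fin (n + 1)) (Fin (n + 1)) K) :
    MvPolynomial (Fin (n + 1)) K →ₐ[K] MvPolynomial (Fin (n + 1)) K :=
  aeval (fun j => ∑ i, C (g i j) * X i)

/-- `Ω`: the exponents of the monomials of degree `|G|` that are fixed by every element of `G`. -/
def Omega {K : Type u} [Field K] {n : ℕ} (G : Subgroup (GL (Fin (n + 1)) K)) :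
    Set (Fin (n + 1) →₀ ℕ) :=
  {u | u.degree = Nat.card G ∧
    ∀ g ∈ G, act (g : Matrix (Fin (n + 1)) (Fin (n + 1)) K) (monomial u (1 : K)) = monomial u 1}

/-- The number of different characters `g ↦ g i i`, `i = 0, …, n`, on the elements of odd order
of `G`. -/
noncomputable def oddWeights {K : Type u} [Field K] {n : ℕ}
    (G : Subgroup (GL (Fin (n + 1)) K)) : ℕ :=
  (Set.range (fun (i : Fin (n + 1)) (g : {g : GL (Fin (n + 1)) K // g ∈ G ∧ Odd (orderOf g)}) =>
    (g.1 : Matrix (Fin (n + 1)) (Fin (n + 1)) K) i i)).ncard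

end GQ23
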