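import Pool.Agent.Lib.MP_45c7d7_ag.Words
import Pool.Agent.Lib.MP_45c7d7_ag.Defs

/-!
# From orders on words to Gröbner bases of toric ideals (helper23)
-/

namespace GQ23

open MvPolynomial

set_option linter.unusedSectionVars false

universe u

section Wf

variable {Γ : Type} [AddCommMonoid Γ] [LinearOrder Γ] [IsOrderedCancelAddMonoid Γ]
  [WellFoundedLT Γ]

lemma wf_nonneg (x : Γ) : 0 ≤ x := by
  by_contra hx
  push Not at hx
  obtain ⟨m, hm, hmin⟩ := (wellFounded_lt (α := Γ)).has_min {y | y < 0} ⟨x, hx⟩
  have h1 : m + m < m := by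
    calc m + m < m + 0 := add_lt_add_right hm m
      _ = m := add_zero m
  exact hmin (m + m) (h1.trans hm) h1

end Wf

section Order

variable {σ : Type} {Γ : Type} [AddCommMonoid Γ] [LinearOrder Γ] [IsOrderedCancelAddMonoid Γ]
  [WellFoundedLT Γ]

/-- the range of an injective additive map -/
noncomputable def eqvOfInj (Φ : (σ →₀ ℕ) →+ Γ) (h : Function.Injective Φ) :
    (σ →₀ ℕ) ≃+ (AddMonoidHom.mrange Φ) :=
  AddEquiv.ofBijective (AddMonoidHom.mrangeRestrict Φ)
    ⟨fun _ _ hxy => h (congrArg Subtype.val hxy), AddMonoidHom.mrangeRestrict_surjective Φ⟩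

/-- a monomial order from an injective additive map -/
noncomputable def moOfInj (Φ : (σ →₀ ℕ) →+ Γ) (h : Function.Injective Φ) :
    MonomialOrder.{0, 0} σ where
  syn := AddMonoidHom.mrange Φ
  toSyn := eqvOfInj Φ h
  toSyn_monotone := by
    intro a b hab
    obtain ⟨c, rfl⟩ := le_iff_exists_add.1 hab
    show Φ a ≤ Φ (a + c)
    rw [map_add]
    exact le_add_of_nonneg_right (wf_nonneg _)
  wellFoundedLT_syn := inferInstance

lemma moOfInj_le (Φ : (σ →₀ ℕ) →+ Γ) (h : Function.Injective Φ) (a b : σ →₀ ℕ) :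
    (moOfInj Φ h).toSyn a ≤ (moOfInj Φ h).toSyn b ↔ Φ a ≤ Φ b := Iff.rfl

lemma moOfInj_lt (Φ : (σ →₀ ℕ) →+ Γ) (h : Function.Injective Φ) (a b : σ →₀ ℕ) :
    (moOfInj Φ h).toSyn a < (moOfInj Φ h).toSyn b ↔ Φ a < Φ b := Iff.rfl

end Order

section Quad

variable {σ : Type} {K : Type u} [Field K]

lemma QuadraticGroebner.isQuadratic {m : MonomialOrder.{0, 0} σ} {I : Ideal (MvPolynomial σ K)}
    (h : QuadraticGroebner m I) : IsQuadratic I := by
  apply le_antisymm
  · intro f
    induction hd : m.toSyn (m.degree f) using WellFoundedLT.induction generalizing f with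
    | _ d ih =>
      intro hf
      by_cases hf0 : f = 0
      · rw [hf0]; exact Ideal.zero_mem _
      · obtain ⟨g, hg, hg0, hgh, hle⟩ := h f hf hf0
        have hgs : g ∈ Ideal.span {g | g ∈ I ∧ g.IsHomogeneous 2} := Ideal.subset_span ⟨hg, hgh⟩
        have hu : IsUnit (m.leadingCoeff g) := by
          rw [isUnit_iff_ne_zero, Ne, m.leadingCoeff_eq_zero_iff]; exact hg0
        have hdg : m.degree g ≠ 0 := by
          intro h0
          have h1 : coeff (m.degree g) g ≠ 0 := (m.coeff_degree_ne_zero_iff).2 hg0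
          have h2 := hgh h1
          rw [h0] at h2
          simp at h2
        have hdf : m.degree f ≠ 0 := by
          intro h0
          rw [h0] at hle
          exact hdg (le_antisymm hle (by simp))
        have hlt := m.degree_reduce_lt hu hle hdf
        have hmem : m.reduce hu f ∈ I := by
          unfold MonomialOrder.reduce
          exact I.sub_mem hf (I.mul_mem_left _ hg)
        have h3 := ih _ (by rw [← hd]; exact hlt) rfl hmem
        have h4 : f = m.reduce hu f +
            monomial (m.degree f - m.degree g) (hu.unit⁻¹ * m.leadingCoeff f) * g := by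
          unfold MonomialOrder.reduce
          ring
        rw [h4]
        exact Ideal.add_mem _ h3 (Ideal.mul_mem_left _ _ hgs)
  · rw [Ideal.span_le]
    exact fun g hg => hg.1

lemma QuadraticGroebner.gQuadratic {m : MonomialOrder.{0, 0} σ} {I : Ideal (MvPolynomial σ K)}
    (h : QuadraticGroebner m I) : GQuadratic I := by
  refine ⟨AlgEquiv.refl, fun i => by simpa using isHomogeneous_X K i, m, ?_⟩
  have : I.map ((AlgEquiv.refl : MvPolynomial σ K ≃ₐ[K] MvPolynomial σ K) :
      MvPolynomial σ K →+* MvPolynomial σ K) = I := by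
    have e : ((AlgEquiv.refl : MvPolynomial σ K ≃ₐ[K] MvPolynomial σ K) :
      MvPolynomial σ K →+* MvPolynomial σ K) = RingHom.id _ := by
      ext <;> simp
    rw [e, Ideal.map_id]
  rw [this]
  exact h

end Quad

section Toric

variable {L : Type} (K : Type u) [Field K] (S : Set (L →₀ ℕ))

/-- exponents -/
noncomputable def piS (α : S →₀ ℕ) : L →₀ ℕ := α.sum (fun s k => k • s.1)

variable {S}

lemma piS_add (α β : S →₀ ℕ) : piS S (α + β) = piS S α + piS S β := by
  unfold piS
  classical
  exact Finsupp.sum_add_index' (by simp) (by intros; exact add_nsmul _ _ _)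

lemma piS_single (s : S) : piS S (Finsupp.single s 1) = s.1 := by
  unfold piS
  rw [Finsupp.sum_single_index] <;> simp

lemma toricMap_monomial (α : S →₀ ℕ) (c : K) :
    toricMap K S (monomial α c) = monomial (piS S α) c := by
  unfold toricMap
  rw [aeval_monomial]
  have h1 : (α.prod fun s k => (monomial s.1 (1 : K)) ^ k) = monomial (piS S α) 1 := by
    unfold piS Finsupp.prod Finsupp.sum
    classical
    have : ∀ T : Finset S, (∏ a ∈ T, (monomial a.1 (1 : K)) ^ (α a)) =
        monomial (∑ a ∈ T, α a • a.1) 1 := by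
      intro T
      induction T using Finset.induction_on with
      | empty => simp
      | insert a T ha ih =>
        rw [Finset.prod_insert ha, Finset.sum_insert ha, ih, monomial_pow, monomial_mul]
        simp
    exact this _
  rw [h1, MvPolynomial.algebraMap_eq, C_mul_monomial, mul_one]

open Classical in
lemma coeff_toricMap (f : MvPolynomial S K) (u : L →₀ ℕ) :
    coeff u (toricMap K S f) = ∑ β ∈ f.support, if piS S β = u then coeff β f else 0 := by
  conv_lhs => rw [f.as_sum, map_sum]
  rw [coeff_sum]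
  apply Finset.sum_congr rfl
  intro β _
  rw [toricMap_monomial, coeff_monomial]

lemma toM_inj {α : Type} : Function.Injective (Finsupp.toMultiset : (α →₀ ℕ) → Multiset α) := by
  classical
  exact Function.LeftInverse.injective (g := Multiset.toFinsupp) Finsupp.toMultiset_toFinsupp

lemma toM_surj {α : Type} : Function.Surjective (Finsupp.toMultiset : (α →₀ ℕ) → Multiset α) := by
  classical
  exact Function.RightInverse.surjective (g := Multiset.toFinsupp) Multiset.toFinsupp_toMultiset

/-- the letters of words -/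
noncomputable def iotaS (s : S) : {ω : Multiset L // ∃ v ∈ S, Finsupp.toMultiset v = ω} :=
  ⟨Finsupp.toMultiset s.1, s.1, s.2, rfl⟩

lemma iotaS_bij : Function.Bijective (iotaS (S := S)) := by
  constructor
  · intro a b hab
    exact Subtype.ext (toM_inj (congrArg Subtype.val hab))
  · rintro ⟨ω, v, hv, rfl⟩
    exact ⟨⟨v, hv⟩, rfl⟩

/-- the word of an exponent -/
noncomputable def wordS (α : S →₀ ℕ) : Multiset {ω : Multiset L // ∃ v ∈ S, Finsupp.toMultiset v = ω} :=
  (Finsupp.toMultiset α).map iotaS

lemma wordS_add (α β : S →₀ ℕ) : wordS (α + β) = wordS α + wordS β := by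
  simp [wordS]

lemma wordS_inj : Function.Injective (wordS (S := S)) := by
  intro a b hab
  exact toM_inj (Multiset.map_injective iotaS_bij.1 hab)

lemma wordS_surj : Function.Surjective (wordS (S := S)) := by
  intro w
  obtain ⟨v, rfl⟩ : ∃ v : Multiset S, v.map iotaS = w := by
    refine ⟨w.map (Function.surjInv iotaS_bij.2), ?_⟩
    rw [Multiset.map_map]
    conv_rhs => rw [← Multiset.map_id w]
    apply Multiset.map_congr rfl
    intro x _
    exact Function.surjInv_eq _ x
  obtain ⟨α, rfl⟩ := toM_surj v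
  exact ⟨α, rfl⟩

lemma FL_wordS (α : S →₀ ℕ) : FL Subtype.val (wordS α) = Finsupp.toMultiset (piS S α) := by
  obtain ⟨w, hw⟩ : ∃ w : Multiset S, w = Finsupp.toMultiset α := ⟨_, rfl⟩
  induction w using Multiset.induction_on generalizing α with
  | empty =>
    have : α = 0 := toM_inj (by rw [← hw]; simp)
    subst this
    simp [wordS, piS]
  | cons s w ih =>
    obtain ⟨β, hβ⟩ := toM_surj w
    have hα : α = Finsupp.single s 1 + β := by
      apply toM_inj
      rw [← hw, map_add, hβ, Finsupp.toMultiset_single, one_smul, Multiset.singleton_add]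
    rw [hα, wordS_add, FL_add, piS_add, map_add, ih β hβ.symm, piS_single]
    congr 1
    simp [wordS, iotaS]

theorem quadraticGroebner_of_qorder [Finite S] (d : ℕ) (hd : 0 < d) (hS : ∀ s ∈ S, s.degree = d)
    (h : QOrder (fun ω : Multiset L => ∃ v ∈ S, Finsupp.toMultiset v = ω)) :
    ∃ m : MonomialOrder.{0, 0} S, QuadraticGroebner m (toricIdeal K S) := by
  classical
  obtain ⟨Γ, _, _, _, _, κ, hq, huq⟩ := h
  obtain ⟨N, ⟨e⟩⟩ := Finite.exists_equiv_fin S
  let Φ : (S →₀ ℕ) →+ Γ ×ₗ Lex (Fin N →₀ ℕ) :=
    { toFun := fun α => toLex (KEY κ (wordS α), toLex (Finsupp.mapDomain e α))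
      map_zero' := by simp [wordS]
      map_add' := by
        intro α β
        rw [wordS_add, KEY_add, Finsupp.mapDomain_add]
        rfl }
  have hΦ : Function.Injective Φ := by
    intro α β hab
    have h1 := congrArg (fun x => ofLex (ofLex x).2) hab
    exact Finsupp.mapDomain_injective e.injective h1
  -- comparison
  have hle : ∀ α β, Φ α ≤ Φ β → KEY κ (wordS α) ≤ KEY κ (wordS β) := by
    intro α β hab
    have h1 : toLex (KEY κ (wordS α), toLex (Finsupp.mapDomain e α)) ≤
      toLex (KEY κ (wordS β), toLex (Finsupp.mapDomain e β)) := hab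
    rw [Prod.Lex.toLex_le_toLex] at h1
    rcases h1 with h1 | h1
    · exact h1.le
    · exact h1.1.le
  have hlt : ∀ α β, KEY κ (wordS α) < KEY κ (wordS β) → Φ α < Φ β := by
    intro α β hab
    show toLex (KEY κ (wordS α), toLex (Finsupp.mapDomain e α)) <
      toLex (KEY κ (wordS β), toLex (Finsupp.mapDomain e β))
    rw [Prod.Lex.toLex_lt_toLex]
    exact Or.inl hab
  -- the length of a word is determined by its flattening
  have hcard : ∀ w : Multiset {ω : Multiset L // ∃ v ∈ S, Finsupp.toMultiset v = ω},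
      (FL Subtype.val w).card = w.card * d := by
    intro w
    induction w using Multiset.induction_on with
    | empty => simp
    | cons ω w ih =>
      obtain ⟨ω, v, hv, rfl⟩ := ω
      rw [FL_cons, Multiset.card_add, ih, Multiset.card_cons, Finsupp.card_toMultiset]
      have : (v.sum fun _ => id) = d := by
        rw [← hS v hv]; rfl
      rw [this]; ring
  refine ⟨moOfInj Φ hΦ, ?_⟩
  intro f hf hf0
  set m := moOfInj Φ hΦ with hm
  have hfker : toricMap K S f = 0 := hf
  set α := m.degree f with hα
  have hcα : coeff α f ≠ 0 := (m.coeff_degree_ne_zero_iff).2 hf0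
  -- another exponent in the same fibre
  obtain ⟨β, hβ, hπ, hne⟩ : ∃ β ∈ f.support, piS S β = piS S α ∧ β ≠ α := by
    by_contra hcon
    push Not at hcon
    have h1 := coeff_toricMap K f (piS S α)
    rw [hfker, coeff_zero] at h1
    rw [Finset.sum_eq_single α] at h1
    · rw [if_pos rfl] at h1
      exact hcα h1.symm
    · intro β hβ hne
      rw [if_neg]
      intro hπ
      exact hne (hcon β hβ hπ)
    · intro hn
      exact absurd (mem_support_iff.2 hcα) hn
  have hβα : Φ β ≤ Φ α := (moOfInj_le Φ hΦ β α).1 (m.le_degree hβ)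
  have hnstd : ¬ Std Subtype.val κ (wordS α) := by
    intro hst
    have h1 : FL Subtype.val (wordS β) = FL Subtype.val (wordS α) := by
      rw [FL_wordS, FL_wordS, hπ]
    have h2 : KEY κ (wordS β) = KEY κ (wordS α) := le_antisymm (hle _ _ hβα) (hst _ h1)
    have h3 : Std Subtype.val κ (wordS β) := by
      intro w' hw'
      rw [h2]
      exact hst w' (hw'.trans h1)
    exact hne (wordS_inj (huq _ _ h3 hst h1))
  -- a nonstandard subword of length at most two
  obtain ⟨b, hb, hcb, hbst⟩ : ∃ b ≤ wordS α, b.card ≤ 2 ∧ ¬ Std Subtype.val κ b := by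
    by_contra hcon
    push Not at hcon
    exact hnstd (hq _ hcon)
  obtain ⟨w', hFw, hKw⟩ : ∃ w', FL Subtype.val w' = FL Subtype.val b ∧ KEY κ w' < KEY κ b := by
    unfold Std at hbst
    push Not at hbst
    exact hbst
  have hcw : w'.card = b.card := by
    have h1 := hcard w'
    rw [hFw, hcard b] at h1
    exact (Nat.eq_of_mul_eq_mul_right hd h1).symm
  have hb2 : b.card = 2 := by
    have h3 : b.card = 0 ∨ b.card = 1 ∨ b.card = 2 := by omega
    rcases h3 with h3 | h3 | h3
    · exfalso
      rw [Multiset.card_eq_zero.1 h3, Multiset.card_eq_zero.1 (hcw.trans h3)] at hKw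
      exact lt_irrefl _ hKw
    · exfalso
      obtain ⟨x, rfl⟩ := Multiset.card_eq_one.1 h3
      obtain ⟨y, rfl⟩ := Multiset.card_eq_one.1 (hcw.trans h3)
      rw [FL_singleton, FL_singleton] at hFw
      rw [Subtype.ext hFw] at hKw
      exact lt_irrefl _ hKw
    · exact h3
  obtain ⟨γ, rfl⟩ := wordS_surj b
  obtain ⟨δ, rfl⟩ := wordS_surj w'
  have hγα : γ ≤ α := by
    obtain ⟨c, hc⟩ := Multiset.le_iff_exists_add.1 hb
    obtain ⟨ε, rfl⟩ := wordS_surj c
    rw [← wordS_add] at hc
    rw [wordS_inj hc]
    exact le_self_add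
  have hdeg : ∀ θ : S →₀ ℕ, (wordS θ).card = θ.degree := by
    intro θ
    rw [wordS, Multiset.card_map, Finsupp.card_toMultiset]; rfl
  have hπ2 : piS S δ = piS S γ := by
    rw [FL_wordS, FL_wordS] at hFw
    exact toM_inj hFw
  have hlt2 : Φ δ < Φ γ := hlt _ _ hKw
  have hdγ : m.degree (monomial γ (1 : K)) = γ := by
    rw [m.degree_monomial, if_neg one_ne_zero]
  have hdδ : m.degree (monomial δ (1 : K)) = δ := by
    rw [m.degree_monomial, if_neg one_ne_zero]
  have hdg : m.degree (monomial γ (1 : K) - monomial δ 1) = γ := by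
    rw [m.degree_sub_of_lt, hdγ]
    rw [hdγ, hdδ]
    exact (moOfInj_lt Φ hΦ δ γ).2 hlt2
  refine ⟨monomial γ 1 - monomial δ 1, ?_, ?_, ?_, ?_⟩
  · show toricMap K S _ = 0
    rw [map_sub, toricMap_monomial, toricMap_monomial, hπ2, sub_self]
  · intro h0
    rw [sub_eq_zero] at h0
    have : γ = δ := by rw [← hdγ, ← hdδ, h0]
    rw [this] at hlt2
    exact lt_irrefl _ hlt2
  · apply IsHomogeneous.sub
    · apply isHomogeneous_monomial
      rw [← hdeg, hb2]
    · apply isHomogeneous_monomial
      rw [← hdeg, hcw, hb2]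
  · rw [hdg]; exact hγα

end Toric

end GQ23
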