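import Pool.Agent.Lib.MP_45c7d7_ag.Base
import Pool.Agent.Lib.MP_45c7d7_ag.Toric

/-!
# Finite diagonal groups (helper23)
-/

namespace GQ23

open MvPolynomial

universe u

variable {K : Type u} [Field K] {n : ℕ}

lemma prod_toM {L : Type} (f : L → K) (u : L →₀ ℕ) :
    ((Finsupp.toMultiset u).map f).prod = u.prod fun j k => f j ^ k := by
  induction u using Finsupp.induction_linear with
  | zero => simp
  | add u v hu hv =>
    rw [map_add, Multiset.map_add, Multiset.prod_add, hu, hv]
    rw [Finsupp.prod_add_index' (by simp) (by intros; exact pow_add _ _ _)]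
  | single a k =>
    rw [Finsupp.prod_single_index (by simp), Finsupp.toMultiset_single, Multiset.map_nsmul,
      Multiset.prod_nsmul]
    simp

lemma mem_sylow {M : Type u} [CommGroup M] {p : ℕ} [Fact p.Prime]
    (P : Sylow p M) (η : M) (a : ℕ) (h : η ^ (p ^ a) = 1) : η ∈ (P : Subgroup M) := by
  have hpg : IsPGroup p (Subgroup.zpowers η) := by
    rintro ⟨x, hx⟩
    obtain ⟨z, rfl⟩ := Subgroup.mem_zpowers_iff.1 hx
    refine ⟨a, Subtype.ext ?_⟩
    show (η ^ z) ^ (p ^ a) = 1
    calc (η ^ z) ^ (p ^ a) = η ^ (z * ((p ^ a : ℕ) : ℤ)) := by rw [zpow_mul, zpow_natCast]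
      _ = (η ^ (p ^ a)) ^ z := by rw [mul_comm, zpow_mul, zpow_natCast]
      _ = 1 := by rw [h, one_zpow]
  exact hpg.le_sylow_of_normal P (Subgroup.mem_zpowers η)

section Diag

variable (G : Subgroup (GL (Fin (n + 1)) K))
  (hG : ∀ g ∈ G, (g : Matrix (Fin (n + 1)) (Fin (n + 1)) K).IsDiag)

/-- the coordinate characters, with values in `K` -/
def chiK (i : Fin (n + 1)) : G →* K where
  toFun g := (g.1 : Matrix (Fin (n + 1)) (Fin (n + 1)) K) i i
  map_one' := by simp
  map_mul' := by
    intro g h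
    simp only [Subgroup.coe_mul, Matrix.GeneralLinearGroup.coe_mul, Matrix.mul_apply]
    rw [Finset.sum_eq_single i]
    · intro j _ hj
      rw [hG g.1 g.2 (Ne.symm hj), zero_mul]
    · intro h; exact absurd (Finset.mem_univ i) h

/-- the coordinate characters -/
def chi (i : Fin (n + 1)) : G →* Kˣ := (chiK G hG i).toHomUnits

lemma chi_apply (i : Fin (n + 1)) (g : G) :
    ((chi G hG i g : Kˣ) : K) = (g.1 : Matrix (Fin (n + 1)) (Fin (n + 1)) K) i i := rfl

lemma act_monomial (g : GL (Fin (n + 1)) K) (hg : (g : Matrix (Fin (n + 1)) (Fin (n + 1)) K).IsDiag)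
    (u : Fin (n + 1) →₀ ℕ) :
    act (g : Matrix (Fin (n + 1)) (Fin (n + 1)) K) (monomial u (1 : K)) =
      monomial u (u.prod fun j k => ((g : Matrix (Fin (n + 1)) (Fin (n + 1)) K) j j) ^ k) := by
  unfold act
  rw [aeval_monomial]
  have h1 : ∀ j, (∑ i, C ((g : Matrix (Fin (n + 1)) (Fin (n + 1)) K) i j) * X i :
      MvPolynomial (Fin (n + 1)) K) = C ((g : Matrix (Fin (n + 1)) (Fin (n + 1)) K) j j) * X j := by
    intro j
    rw [Finset.sum_eq_single j]
    · intro i _ hi
      rw [hg hi, C_0, zero_mul]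
    · intro h; exact absurd (Finset.mem_univ j) h
  simp only [h1, mul_pow]
  rw [Finsupp.prod_mul, map_one, one_mul]
  have h2 : (u.prod fun (j : Fin (n + 1)) (k : ℕ) => (C ((g : Matrix (Fin (n + 1)) (Fin (n + 1)) K) j j) : MvPolynomial (Fin (n + 1)) K) ^ k)
      = C (u.prod fun j k => ((g : Matrix (Fin (n + 1)) (Fin (n + 1)) K) j j) ^ k) := by
    simp only [Finsupp.prod, ← C_pow, map_prod]
  rw [h2, monomial_eq]

lemma mem_Omega (u : Fin (n + 1) →₀ ℕ) :
    u ∈ Omega G ↔ (Finsupp.toMultiset u).card = Nat.card G ∧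
      ((Finsupp.toMultiset u).map (chi G hG)).prod = 1 := by
  unfold Omega
  rw [Set.mem_ofPred_eq]
  have h0 : (Finsupp.toMultiset u).card = u.degree := by
    rw [Finsupp.card_toMultiset]; rfl
  rw [h0]
  apply and_congr_right
  intro _
  have hval : ∀ g : G, (((((Finsupp.toMultiset u).map (chi G hG)).prod g : Kˣ)) : K) =
      u.prod fun j k => ((g.1 : Matrix (Fin (n + 1)) (Fin (n + 1)) K) j j) ^ k := by
    intro g
    have e1 : ∀ w : Multiset (Fin (n + 1)), ((((w.map (chi G hG)).prod g : Kˣ)) : K) =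
        (w.map (fun j => (g.1 : Matrix (Fin (n + 1)) (Fin (n + 1)) K) j j)).prod := by
      intro w
      induction w using Multiset.induction_on with
      | empty => simp
      | cons j w ih =>
        rw [Multiset.map_cons, Multiset.prod_cons, Multiset.map_cons, Multiset.prod_cons, ← ih,
          MonoidHom.mul_apply, Units.val_mul, chi_apply]
    rw [e1, prod_toM]
  constructor
  · intro h
    ext g
    rw [hval]
    have h1 := h g.1 g.2
    rw [act_monomial g.1 (hG g.1 g.2)] at h1
    have h2 := congrArg (coeff u) h1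
    rw [coeff_monomial, coeff_monomial, if_pos rfl, if_pos rfl] at h2
    rw [h2]; simp
  · intro h g hg
    rw [act_monomial g (hG g hg)]
    have h1 := hval ⟨g, hg⟩
    rw [h] at h1
    rw [← h1]
    simp

end Diag

section MainThm

lemma finite_Omega (G : Subgroup (GL (Fin (n + 1)) K)) : Finite (Omega G) := by
  have h : Finite (Sym (Fin (n + 1)) (Nat.card G)) := inferInstance
  let f : Omega G → Sym (Fin (n + 1)) (Nat.card G) := fun u => ⟨Finsupp.toMultiset u.1, by
    rw [Finsupp.card_toMultiset]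
    exact u.2.1⟩
  refine Finite.of_injective f (fun a b hab => Subtype.ext (toM_inj ?_))
  have h1 : (f a).1 = (f b).1 := by rw [hab]
  exact h1

theorem exists_quadraticGroebner [IsAlgClosed K] (G : Subgroup (GL (Fin (n + 1)) K)) [Finite G]
    (hK : (Nat.card G : K) ≠ 0)
    (hG : ∀ g ∈ G, (g : Matrix (Fin (n + 1)) (Fin (n + 1)) K).IsDiag)
    (hodd : oddWeights G ≤ 2 ^ padicValNat 2 (Nat.card G) + 1) :
    ∃ m : MonomialOrder.{0, 0} (Omega G), QuadraticGroebner m (toricIdeal K (Omega G)) := by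
  classical
  have hfinΩ := finite_Omega G
  refine quadraticGroebner_of_qorder K (Nat.card G) Nat.card_pos (fun s hs => hs.1) ?_
  -- `G` is commutative
  have hcomm : ∀ g h : G, g * h = h * g := by
    intro g h
    apply Subtype.ext
    apply Units.ext
    show (g.1 : Matrix (Fin (n + 1)) (Fin (n + 1)) K) * h.1 = h.1 * g.1
    have e1 := (hG g.1 g.2).diagonal_diag
    have e2 := (hG h.1 h.2).diagonal_diag
    rw [← e1, ← e2, Matrix.diagonal_mul_diagonal, Matrix.diagonal_mul_diagonal]
    congr 1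
    ext i
    exact mul_comm _ _
  let _ : CommGroup G := { (inferInstance : Group G) with mul_comm := hcomm }
  have hexp : (Monoid.exponent G : K) ≠ 0 := by
    intro h0
    apply hK
    obtain ⟨c, hc⟩ := Group.exponent_dvd_nat_card (G := G)
    rw [hc, Nat.cast_mul, h0, zero_mul]
  have : NeZero (Monoid.exponent G : K) := ⟨hexp⟩
  have hcard : Nat.card (G →* Kˣ) = Nat.card G :=
    CommGroup.card_monoidHom_of_hasEnoughRootsOfUnity G K
  have hfinM : Finite (G →* Kˣ) := Nat.finite_of_card_ne_zero (by rw [hcard]; exact Nat.card_pos.ne')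
  -- transport to a type in the lowest universe
  obtain ⟨ι, _, p, _, ex, ⟨e⟩⟩ := AddCommGroup.equiv_directSum_zmod_of_finite (Additive (G →* Kˣ))
  set H0 := DirectSum ι (fun i => ZMod (p i ^ ex i)) with hH0
  have hfinH : Finite H0 := Finite.of_equiv _ e.toEquiv
  have hcardH : Nat.card H0 = Nat.card G := by
    rw [← hcard]; exact (Nat.card_congr e.toEquiv).symm
  set χ : Fin (n + 1) → H0 := fun i => e (Additive.ofMul (chi G hG i)) with hχ
  have hsum : ∀ w : Multiset (Fin (n + 1)), (w.map χ).sum = 0 ↔ (w.map (chi G hG)).prod = 1 := by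
    intro w
    have e1 : (w.map χ).sum = e (Additive.ofMul ((w.map (chi G hG)).prod)) := by
      induction w using Multiset.induction_on with
      | empty => simp
      | cons j w ih =>
        rw [Multiset.map_cons, Multiset.sum_cons, ih, Multiset.map_cons, Multiset.prod_cons,
          ofMul_mul, map_add]
    rw [e1]
    constructor
    · intro h
      have h1 : Additive.ofMul ((w.map (chi G hG)).prod) = 0 := by
        apply e.injective; rw [h, map_zero]
      exact h1
    · intro h
      rw [h]; simp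
  -- the Sylow 2-subgroup
  set a := padicValNat 2 (Nat.card G) with ha
  have f2 : Fact (Nat.Prime 2) := ⟨Nat.prime_two⟩
  obtain ⟨P⟩ : Nonempty (Sylow 2 (G →* Kˣ)) := inferInstance
  have hP : Nat.card P = 2 ^ a := by
    rw [P.card_eq_multiplicity, hcard, Nat.factorization_def _ Nat.prime_two]
  let eh : Additive (G →* Kˣ) →+ H0 := e.toAddMonoidHom
  have heh : Function.Injective eh := e.injective
  set B : AddSubgroup H0 := (Subgroup.toAddSubgroup (P : Subgroup (G →* Kˣ))).map eh with hB
  have hBcard : Nat.card B = 2 ^ a := by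
    rw [← hP]
    exact (Nat.card_congr (AddSubgroup.equivMapOfInjective
      (Subgroup.toAddSubgroup (P : Subgroup (G →* Kˣ))) eh heh).toEquiv).symm
  have hkey : ∀ i j : Fin (n + 1),
      (∀ g : {g : GL (Fin (n + 1)) K // g ∈ G ∧ Odd (orderOf g)},
        (g.1 : Matrix (Fin (n + 1)) (Fin (n + 1)) K) i i = (g.1 : Matrix _ _ K) j j) →
      cl χ B i = cl χ B j := by
    intro i j hij
    set η : G →* Kˣ := (chi G hG i)⁻¹ * chi G hG j with hη
    have hη2 : η ^ (2 ^ a) = 1 := by
      ext g
      obtain ⟨m, hm⟩ : 2 ^ a ∣ Nat.card G := pow_padicValNat_dvd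
      have hmodd : Odd m := by
        rw [← Nat.not_even_iff_odd, even_iff_two_dvd]
        intro h2
        apply pow_succ_padicValNat_not_dvd (p := 2) (n := Nat.card G) Nat.card_pos.ne'
        rw [← ha, pow_succ]
        rw [hm]
        exact Nat.mul_dvd_mul_left _ h2
      have ho : Odd (orderOf ((g ^ (2 ^ a) : G) : GL (Fin (n + 1)) K)) := by
        rw [Subgroup.orderOf_coe]
        apply Odd.of_dvd_nat hmodd
        apply orderOf_dvd_of_pow_eq_one
        rw [← pow_mul, ← hm]
        exact pow_card_eq_one'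
      have h1 := hij ⟨_, (g ^ (2 ^ a) : G).2, ho⟩
      have h2 : chi G hG i (g ^ (2 ^ a)) = chi G hG j (g ^ (2 ^ a)) := Units.ext h1
      have h3 : (η ^ (2 ^ a)) g = 1 := by
        rw [MonoidHom.pow_apply, ← map_pow, hη, MonoidHom.mul_apply, MonoidHom.inv_apply, h2,
          inv_mul_cancel]
      rw [h3]; simp
    have hηP : η ∈ (P : Subgroup (G →* Kˣ)) := by
      exact mem_sylow P η a hη2
    unfold cl
    rw [QuotientAddGroup.eq]
    refine ⟨Additive.ofMul η, hηP, ?_⟩
    rw [hη]
    show e (Additive.ofMul ((chi G hG i)⁻¹ * chi G hG j)) = -χ i + χ j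
    rw [ofMul_mul, ofMul_inv, map_add]
    exact congrArg (· + e (Additive.ofMul (chi G hG j))) (map_neg e (Additive.ofMul (chi G hG i)))
  have hncard : (Set.range (cl χ B)).ncard ≤ oddWeights G := by
    unfold oddWeights
    set ψ := (fun (i : Fin (n + 1)) (g : {g : GL (Fin (n + 1)) K // g ∈ G ∧ Odd (orderOf g)}) =>
      (g.1 : Matrix (Fin (n + 1)) (Fin (n + 1)) K) i i) with hψ
    have h1 : Set.range (cl χ B) ⊆ (fun f => if h : ∃ i, ψ i = f then cl χ B h.choose else 0) ''
        Set.range ψ := by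
      rintro _ ⟨i, rfl⟩
      refine ⟨ψ i, ⟨i, rfl⟩, ?_⟩
      have hex : ∃ i', ψ i' = ψ i := ⟨i, rfl⟩
      show (if h : ∃ i', ψ i' = ψ i then cl χ B h.choose else 0) = cl χ B i
      rw [dif_pos hex]
      apply hkey
      intro g
      exact congrFun hex.choose_spec g
    exact (Set.ncard_le_ncard h1 (Set.toFinite _)).trans (Set.ncard_image_le (Set.toFinite _))
  have hmain := qorder_main χ B a hBcard (hncard.trans hodd)
  have hPeq : (fun ω : Multiset (Fin (n + 1)) => ω.card = Nat.card H0 ∧ (ω.map χ).sum = 0) =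
      (fun ω : Multiset (Fin (n + 1)) => ∃ v ∈ Omega G, Finsupp.toMultiset v = ω) := by
    funext ω
    apply propext
    rw [hcardH, hsum]
    constructor
    · rintro ⟨h1, h2⟩
      obtain ⟨v, rfl⟩ := toM_surj ω
      exact ⟨v, (mem_Omega G hG v).2 ⟨h1, h2⟩, rfl⟩
    · rintro ⟨v, hv, rfl⟩
      exact (mem_Omega G hG v).1 hv
  rw [hPeq] at hmain
  exact hmain

end MainThm

end GQ23
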