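import Pool.Agent.Lib.MP_45c7d7_ag.EGZ

/-!
# One special letter: words, transfer, canonical blocks (helper49)
-/

namespace GQ49

open Multiset

set_option linter.unusedSectionVars false

section Words

variable {Y Y₁ M : Type} [AddCommMonoid M]

/-- flattening of a word with values in a commutative monoid -/
def F (fl : Y → M) (w : Multiset Y) : M := (w.map fl).sum

/-- key of a word -/
def Ky (κ : Y → ℕ) (w : Multiset Y) : ℕ := (w.map κ).sum

/-- minimal key in the fibre -/
def St (fl : Y → M) (κ : Y → ℕ) (w : Multiset Y) : Prop :=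
  ∀ w', F fl w' = F fl w → Ky κ w ≤ Ky κ w'

/-- pairwise standard -/
def Pw (fl : Y → M) (κ : Y → ℕ) (w : Multiset Y) : Prop :=
  ∀ b ≤ w, card b ≤ 2 → St fl κ b

@[simp] lemma F_add (fl : Y → M) (v w : Multiset Y) : F fl (v + w) = F fl v + F fl w := by
  simp [F]

@[simp] lemma F_zero (fl : Y → M) : F fl 0 = 0 := by simp [F]

@[simp] lemma F_cons (fl : Y → M) (y : Y) (w : Multiset Y) :
    F fl (y ::ₘ w) = fl y + F fl w := by simp [F]

@[simp] lemma F_singleton (fl : Y → M) (y : Y) : F fl {y} = fl y := by simp [F]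

@[simp] lemma Ky_add (κ : Y → ℕ) (v w : Multiset Y) : Ky κ (v + w) = Ky κ v + Ky κ w := by
  simp [Ky]

@[simp] lemma Ky_zero (κ : Y → ℕ) : Ky κ (0 : Multiset Y) = 0 := by simp [Ky]

@[simp] lemma Ky_cons (κ : Y → ℕ) (y : Y) (w : Multiset Y) :
    Ky κ (y ::ₘ w) = κ y + Ky κ w := by simp [Ky]

@[simp] lemma Ky_singleton (κ : Y → ℕ) (y : Y) : Ky κ ({y} : Multiset Y) = κ y := by simp [Ky]

lemma F_map (fl : Y → M) (D : Y₁ → Y) (w : Multiset Y₁) :
    F fl (w.map D) = F (fun z => fl (D z)) w := by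
  simp only [F, Multiset.map_map, Function.comp_def]

lemma Ky_map (κ : Y → ℕ) (D : Y₁ → Y) (w : Multiset Y₁) :
    Ky κ (w.map D) = Ky (fun z => κ (D z)) w := by
  simp only [Ky, Multiset.map_map, Function.comp_def]

lemma St.mono {fl : Y → M} {κ : Y → ℕ} {v w : Multiset Y} (hw : St fl κ w) (h : v ≤ w) :
    St fl κ v := by
  obtain ⟨u, rfl⟩ := Multiset.le_iff_exists_add.1 h
  intro v' hv'
  have h1 := hw (v' + u) (by rw [F_add, F_add, hv'])
  rw [Ky_add, Ky_add] at h1
  omega

lemma Pw.mono {fl : Y → M} {κ : Y → ℕ} {v w : Multiset Y} (hw : Pw fl κ w) (h : v ≤ w) :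
    Pw fl κ v := fun b hb hc => hw b (hb.trans h) hc

lemma St.pw {fl : Y → M} {κ : Y → ℕ} {w : Multiset Y} (hw : St fl κ w) : Pw fl κ w :=
  fun _ hb _ => hw.mono hb

lemma exists_st (fl : Y → M) (κ : Y → ℕ) (w : Multiset Y) :
    ∃ w', F fl w' = F fl w ∧ St fl κ w' := by
  obtain ⟨g, ⟨w', h1, h2⟩, h3⟩ := (wellFounded_lt (α := ℕ)).has_min
    (Ky κ '' {w' | F fl w' = F fl w}) ⟨_, w, rfl, rfl⟩
  refine ⟨w', h1, fun v hv => ?_⟩
  rw [h2]
  exact not_lt.1 (h3 _ ⟨v, hv.trans h1, rfl⟩)

/-- the uniqueness property -/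
def Un (fl : Y → M) (κ : Y → ℕ) (Q : M → Prop) : Prop :=
  ∀ w w', Pw fl κ w → Pw fl κ w' → F fl w = F fl w' → Q (F fl w) → w = w'

/-- transfer of the uniqueness property along a surjection of alphabets -/
lemma transfer (fl : Y → M) (D : Y₁ → Y) (hD : Function.Surjective D)
    (K : Y₁ → ℕ) (Q : M → Prop) (hQ : ∀ a b, Q (a + b) → Q a)
    (hcard : ∀ w w' : Multiset Y, F fl w = F fl w' → card w = card w')
    (hfl : Function.Injective fl)
    (h : Un (fun z => fl (D z)) K Q) : ∃ κ : Y → ℕ, Un fl κ Q := by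
  classical
  have hcard1 : ∀ w w' : Multiset Y₁, F (fun z => fl (D z)) w = F (fun z => fl (D z)) w' →
      card w = card w' := by
    intro w w' hw
    have h1 := hcard (w.map D) (w'.map D) (by rw [F_map, F_map]; exact hw)
    simpa using h1
  have hsel : ∀ y : Y, ∃ z, D z = y ∧ St (fun z => fl (D z)) K {z} := by
    intro y
    obtain ⟨z, hz⟩ := hD y
    obtain ⟨w', h1, h2⟩ := exists_st (fun z => fl (D z)) K ({z} : Multiset Y₁)
    have h3 := hcard1 _ _ h1
    rw [Multiset.card_singleton, Multiset.card_eq_one] at h3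
    obtain ⟨z', rfl⟩ := h3
    refine ⟨z', ?_, h2⟩
    rw [F_singleton, F_singleton] at h1
    exact (hfl h1).trans hz
  choose ε hε1 hε2 using hsel
  have hinj : Function.Injective ε := by
    intro a b hab
    rw [← hε1 a, ← hε1 b, hab]
  have hF : ∀ α : Multiset Y, F (fun z => fl (D z)) (α.map ε) = F fl α := by
    intro α
    rw [F_map]
    simp only [hε1]
  have key : ∀ w : Multiset Y, Pw fl (fun y => K (ε y)) w → Q (F fl w) →
      Pw (fun z => fl (D z)) K (w.map ε) := by
    intro w hw hQw b hb hcb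
    obtain ⟨v, hv, rfl⟩ := GQ23.exists_le_map ε w b hb
    have hQv : Q (F fl v) := by
      obtain ⟨u, rfl⟩ := Multiset.le_iff_exists_add.1 hv
      rw [F_add] at hQw
      exact hQ _ _ hQw
    obtain ⟨v₂, h1, h2⟩ := exists_st (fun z => fl (D z)) K (v.map ε)
    have hlift : v₂ = (v₂.map D).map ε := by
      rw [Multiset.map_map]
      conv_lhs => rw [← Multiset.map_id v₂]
      apply Multiset.map_congr rfl
      intro z hz
      have h3 : St (fun z => fl (D z)) K {z} := h2.mono (Multiset.singleton_le.2 hz)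
      have h4 : Q (fl (D z)) := by
        obtain ⟨u, hu⟩ := Multiset.exists_cons_of_mem hz
        have h5 : Q (F (fun z => fl (D z)) v₂) := by rw [h1, hF]; exact hQv
        rw [hu, F_cons] at h5
        exact hQ _ _ h5
      have h5 := h {z} {ε (D z)} h3.pw (hε2 (D z)).pw
        (by rw [F_singleton, F_singleton, hε1]) (by rw [F_singleton]; exact h4)
      simpa using h5
    have h3 := hw v hv (by simpa using hcb) (v₂.map D) (by
      rw [F_map, h1, hF])
    have h4 : Ky (fun y => K (ε y)) (v₂.map D) = Ky K v₂ := by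
      conv_rhs => rw [hlift]
      rw [Ky_map K ε]
    have h5 : Ky (fun y => K (ε y)) v = Ky K (v.map ε) := by rw [Ky_map K ε]
    rw [h4, h5] at h3
    intro w' hw'
    exact h3.trans (h2 w' (hw'.trans h1.symm))
  refine ⟨fun y => K (ε y), ?_⟩
  intro w w' hw hw' hFw hQw
  have h1 := h _ _ (key w hw hQw) (key w' hw' (hFw ▸ hQw)) (by rw [hF, hF, hFw])
    (by rw [hF]; exact hQw)
  exact Multiset.map_injective hinj h1

end Words

section Canon

variable {L Q : Type}

lemma mem_sum' {α : Type} {B : Multiset (Multiset α)} {a : α} : a ∈ B.sum ↔ ∃ β ∈ B, a ∈ β :=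
  Multiset.mem_join (S := B)

/-- the sum of ranks -/
def ts (t : L → ℕ) (β : Multiset L) : ℕ := (β.map t).sum

lemma ts_add (t : L → ℕ) (a b : Multiset L) : ts t (a + b) = ts t a + ts t b := by simp [ts]

lemma ts_cons (t : L → ℕ) (x : L) (b : Multiset L) : ts t (x ::ₘ b) = t x + ts t b := by simp [ts]

/-- conditions on a decomposition `m = R + B.sum` into a remainder and pure blocks -/
structure Can (t : L → ℕ) (q : L → Q) (b : ℕ) (R : Multiset L) (B : Multiset (Multiset L)) :
    Prop where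
  card_eq : ∀ β ∈ B, card β = b
  pure : ∀ β ∈ B, ∀ x ∈ β, ∀ y ∈ β, q x = q y
  c1 : ∀ β β', {β, β'} ≤ B → ts t β' ≤ ts t β → ∀ x ∈ β, ∀ y ∈ β', q x = q y → t y ≤ t x
  c2 : ∀ β ∈ B, ∀ x ∈ R, ∀ y ∈ β, q x = q y → t x ≤ t y

lemma Can.mono {t : L → ℕ} {q : L → Q} {b : ℕ} {R : Multiset L} {B B' : Multiset (Multiset L)}
    (h : Can t q b R B) (hB : B' ≤ B) : Can t q b R B' where
  card_eq := fun β hβ => h.card_eq β (Multiset.mem_of_le hB hβ)
  pure := fun β hβ => h.pure β (Multiset.mem_of_le hB hβ)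
  c1 := fun β β' hle => h.c1 β β' (hle.trans hB)
  c2 := fun β hβ => h.c2 β (Multiset.mem_of_le hB hβ)

/-- the top block of its class -/
lemma Can.top [DecidableEq Q] {t : L → ℕ} {q : L → Q} {b : ℕ} {R : Multiset L}
    {B : Multiset (Multiset L)} (h : Can t q b R (B)) {β : Multiset L} {B₀ : Multiset (Multiset L)}
    (hB : B = β ::ₘ B₀) {c : Q} (hc : ∀ x ∈ β, q x = c)
    (hmax : ∀ β' ∈ B₀, (∀ x ∈ β', q x = c) → ts t β' ≤ ts t β) :
    ∀ a ∈ (R + B₀.sum).filter (fun x => q x = c), ∀ x ∈ β, t a ≤ t x := by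
  intro a ha x hx
  rw [Multiset.mem_filter, Multiset.mem_add] at ha
  obtain ⟨ha, hac⟩ := ha
  rcases ha with ha | ha
  · exact h.c2 β (by rw [hB]; exact Multiset.mem_cons_self _ _) a ha x hx (by rw [hac, hc x hx])
  · obtain ⟨β', hβ', haβ⟩ := mem_sum'.1 ha
    have hpure : ∀ y ∈ β', q y = c := fun y hy => by
      rw [h.pure β' (by rw [hB]; exact Multiset.mem_cons_of_mem hβ') y hy a haβ, hac]
    refine h.c1 β β' ?_ (hmax β' hβ' hpure) x hx a haβ (by rw [hac, hc x hx])
    rw [hB, Multiset.insert_eq_cons]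
    exact (Multiset.cons_le_cons_iff β).2 (Multiset.singleton_le.2 hβ')

lemma exists_max {α : Type} (f : α → ℕ) (s : Multiset α) (h : s ≠ 0) :
    ∃ a ∈ s, ∀ b ∈ s, f b ≤ f a := by
  classical
  obtain ⟨a, ha, hmax⟩ := Finset.exists_max_image s.toFinset f
    (by
      obtain ⟨a, ha⟩ := Multiset.exists_mem_of_ne_zero h
      exact ⟨a, Multiset.mem_toFinset.2 ha⟩)
  exact ⟨a, Multiset.mem_toFinset.1 ha, fun b hb => hmax b (Multiset.mem_toFinset.2 hb)⟩

/-- the top letters of a multiset -/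
lemma top_unique {L : Type} (r : L → ℕ) (hr : Function.Injective r) {s t s' t' : Multiset L}
    (h : s + t = s' + t') (hc : card s = card s')
    (h1 : ∀ a ∈ t, ∀ b ∈ s, r a ≤ r b) (h2 : ∀ a ∈ t', ∀ b ∈ s', r a ≤ r b) : s = s' := by
  classical
  by_contra hne
  have hnle : ¬ s ≤ s' := fun hle => hne (Multiset.eq_of_le_of_card_le hle hc.ge)
  have hnle' : ¬ s' ≤ s := fun hle => hne (Multiset.eq_of_le_of_card_le hle hc.le).symm
  rw [Multiset.le_iff_count] at hnle hnle'
  push Not at hnle hnle'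
  obtain ⟨x, hx⟩ := hnle
  obtain ⟨y, hy⟩ := hnle'
  have ex := congrArg (Multiset.count x) h
  have ey := congrArg (Multiset.count y) h
  rw [Multiset.count_add, Multiset.count_add] at ex ey
  have mx : x ∈ s := Multiset.count_pos.1 (by omega)
  have mxt : x ∈ t' := Multiset.count_pos.1 (by omega)
  have my : y ∈ s' := Multiset.count_pos.1 (by omega)
  have myt : y ∈ t := Multiset.count_pos.1 (by omega)
  have e1 := h1 y myt x mx
  have e2 := h2 x mxt y my
  have : x = y := hr (by omega)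
  subst this
  omega

/-- uniqueness of the canonical decomposition -/
lemma Can.unique [DecidableEq Q] {t : L → ℕ} (ht : Function.Injective t) {q : L → Q} {b : ℕ} (hb : 0 < b)
    {R R' : Multiset L} (n : ℕ) : ∀ {B B' : Multiset (Multiset L)}, card B = n →
    Can t q b R B → Can t q b R' B' →
    (∀ c, countP (fun x => q x = c) R = countP (fun x => q x = c) R') →
    R + B.sum = R' + B'.sum → B = B' ∧ R = R' := by
  classical
  induction n with
  | zero =>
    intro B B' hB h h' hcls heq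
    obtain rfl := Multiset.card_eq_zero.1 hB
    rw [Multiset.sum_zero, add_zero] at heq
    have hB' : B' = 0 := by
      by_contra hne
      obtain ⟨β, hβ⟩ := Multiset.exists_mem_of_ne_zero hne
      have hcβ := h'.card_eq β hβ
      obtain ⟨x, hx⟩ := Multiset.card_pos_iff_exists_mem.1 (by rw [hcβ]; exact hb)
      have h1 := hcls (q x)
      have h2 : 0 < countP (fun y => q y = q x) B'.sum :=
        Multiset.countP_pos.2 ⟨x, mem_sum'.2 ⟨β, hβ, hx⟩, rfl⟩
      rw [heq, Multiset.countP_add] at h1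
      omega
    subst hB'
    refine ⟨rfl, by simpa using heq⟩
  | succ n ih =>
    intro B B' hB h h' hcls heq
    have hne : B ≠ 0 := by rintro rfl; simp at hB
    obtain ⟨β, hβ, hmax⟩ := exists_max (ts t) B hne
    obtain ⟨B₀, rfl⟩ := Multiset.exists_cons_of_mem hβ
    have hcβ := h.card_eq β hβ
    obtain ⟨x₀, hx₀⟩ := Multiset.card_pos_iff_exists_mem.1 (by rw [hcβ]; exact hb)
    set c := q x₀ with hc
    have hcall : ∀ x ∈ β, q x = c := fun x hx => h.pure β hβ x hx x₀ hx₀
    -- a block of class `c` in `B'`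
    have hpos : 0 < countP (fun x => q x = c) B'.sum := by
      have h1 := congrArg (countP (fun x => q x = c)) heq
      rw [Multiset.countP_add, Multiset.countP_add, hcls c] at h1
      have h2 : 0 < countP (fun x => q x = c) (β ::ₘ B₀).sum :=
        Multiset.countP_pos.2 ⟨x₀, mem_sum'.2 ⟨β, hβ, hx₀⟩, rfl⟩
      omega
    obtain ⟨x₁, hx₁, hqx₁⟩ := Multiset.countP_pos.1 hpos
    obtain ⟨β₁, hβ₁, hxβ₁⟩ := mem_sum'.1 hx₁
    have hβ₁c : ∀ x ∈ β₁, q x = c := fun x hx => by rw [h'.pure β₁ hβ₁ x hx x₁ hxβ₁, hqx₁]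
    obtain ⟨β', hβ', hmax'⟩ := exists_max (ts t) (B'.filter (fun γ => ∀ x ∈ γ, q x = c))
      (by
        intro h0
        have : β₁ ∈ B'.filter (fun γ => ∀ x ∈ γ, q x = c) := Multiset.mem_filter.2 ⟨hβ₁, hβ₁c⟩
        rw [h0] at this
        simp at this)
    rw [Multiset.mem_filter] at hβ'
    obtain ⟨hβ'm, hβ'c⟩ := hβ'
    obtain ⟨B₀', rfl⟩ := Multiset.exists_cons_of_mem hβ'm
    have e1 : β + (R + B₀.sum).filter (fun x => q x = c) =
        (R + (β ::ₘ B₀).sum).filter (fun x => q x = c) := by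
      rw [Multiset.sum_cons, add_left_comm, Multiset.filter_add (p := fun x => q x = c) β,
        Multiset.filter_eq_self.2 hcall]
    have e2 : β' + (R' + B₀'.sum).filter (fun x => q x = c) =
        (R' + (β' ::ₘ B₀').sum).filter (fun x => q x = c) := by
      rw [Multiset.sum_cons, add_left_comm, Multiset.filter_add (p := fun x => q x = c) β',
        Multiset.filter_eq_self.2 hβ'c]
    have hββ' : β = β' := by
      refine top_unique t ht (t := (R + B₀.sum).filter (fun x => q x = c))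
        (t' := (R' + B₀'.sum).filter (fun x => q x = c)) (by rw [e1, e2, heq])
        (by rw [hcβ, h'.card_eq β' hβ'm]) ?_ ?_
      · exact h.top rfl hcall (fun γ hγ _ => hmax γ (Multiset.mem_cons_of_mem hγ))
      · exact h'.top rfl hβ'c (fun γ hγ hγc => hmax' γ
          (Multiset.mem_filter.2 ⟨Multiset.mem_cons_of_mem hγ, hγc⟩))
    subst hββ'
    have h3 := ih (B := B₀) (B' := B₀') (by simpa using hB) (h.mono (Multiset.le_cons_self _ _))
      (h'.mono (Multiset.le_cons_self _ _)) hcls (by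
        rw [Multiset.sum_cons, Multiset.sum_cons] at heq
        have h4 : β + (R + B₀.sum) = β + (R' + B₀'.sum) := by
          rw [add_left_comm, heq, add_left_comm]
        exact add_left_cancel h4)
    exact ⟨by rw [h3.1], h3.2⟩

end Canon

end GQ49
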