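import Pool.Agent.Lib.MP_45c7d7_ag.Sp1

/-!
# Letters with at most one special label (helper49)
-/

namespace GQ49

open Multiset

set_option linter.unusedSectionVars false

section Letters

variable {L S H : Type} [AddCommGroup H]

/-- weight of an optional special label -/
def wo (ws : S → ℕ) (o : Option S) : ℕ := o.elim 0 ws

/-- value of an optional special label -/
def so (σ : S → H) (o : Option S) : H := o.elim 0 σ

/-- an optional special label as a multiset -/
def om (o : Option S) : Multiset S := o.elim 0 (fun s => {s})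

@[simp] lemma wo_none (ws : S → ℕ) : wo ws none = 0 := rfl
@[simp] lemma wo_some (ws : S → ℕ) (s : S) : wo ws (some s) = ws s := rfl
@[simp] lemma so_none (σ : S → H) : so σ none = 0 := rfl
@[simp] lemma so_some (σ : S → H) (s : S) : so σ (some s) = σ s := rfl
@[simp] lemma om_none : om (none : Option S) = 0 := rfl
@[simp] lemma om_some (s : S) : om (some s) = {s} := rfl

lemma om_map_sum_wo (ws : S → ℕ) (o : Option S) : ((om o).map ws).sum = wo ws o := by
  cases o <;> simp

lemma om_map_sum_so (σ : S → H) (o : Option S) : ((om o).map σ).sum = so σ o := by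
  cases o <;> simp

lemma om_inj {o o' : Option S} (h : om o = om o') : o = o' := by
  cases o with
  | none =>
    cases o' with
    | none => rfl
    | some s => simp at h
  | some s =>
    cases o' with
    | none => simp at h
    | some s' => simpa using h

lemma exists_om {m : Multiset S} (h : card m ≤ 1) : ∃ o, m = om o := by
  rcases Nat.lt_or_ge 0 (card m) with h0 | h0
  · obtain ⟨s, rfl⟩ := Multiset.card_eq_one.1 (le_antisymm h h0)
    exact ⟨some s, rfl⟩
  · exact ⟨none, by simpa using h0⟩

lemma card_om (o : Option S) : card (om o) ≤ 1 := by cases o <;> simp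

/-- letters: at most one special label, total weight `N`, total value `0` -/
abbrev Lt (χ : L → H) (ws : S → ℕ) (σ : S → H) (N : ℕ) : Type :=
  {y : Option S × Multiset L // wo ws y.1 + card y.2 = N ∧ so σ y.1 + (y.2.map χ).sum = 0}

/-- flattening of a letter -/
def fl {χ : L → H} {ws : S → ℕ} {σ : S → H} {N : ℕ} (y : Lt χ ws σ N) :
    Multiset S × Multiset L := (om y.1.1, y.1.2)

/-- total weight -/
def wt (ws : S → ℕ) (p : Multiset S × Multiset L) : ℕ := (p.1.map ws).sum + card p.2

/-- total value -/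
def sm (χ : L → H) (σ : S → H) (p : Multiset S × Multiset L) : H :=
  (p.1.map σ).sum + (p.2.map χ).sum

lemma wt_add (ws : S → ℕ) (p p' : Multiset S × Multiset L) :
    wt ws (p + p') = wt ws p + wt ws p' := by
  simp [wt]; ring

lemma sm_add (χ : L → H) (σ : S → H) (p p' : Multiset S × Multiset L) :
    sm χ σ (p + p') = sm χ σ p + sm χ σ p' := by
  simp only [sm, Prod.fst_add, Prod.snd_add, Multiset.map_add, Multiset.sum_add]; abel

variable {χ : L → H} {ws : S → ℕ} {σ : S → H} {N : ℕ}

lemma fl_inj : Function.Injective (fl : Lt χ ws σ N → _) := by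
  intro y y' h
  have h1 := congrArg Prod.fst h
  have h2 := congrArg Prod.snd h
  exact Subtype.ext (Prod.ext (om_inj h1) h2)

lemma wt_fl (y : Lt χ ws σ N) : wt ws (fl y) = N := by
  simp only [wt, fl, om_map_sum_wo]; exact y.2.1

lemma sm_fl (y : Lt χ ws σ N) : sm χ σ (fl y) = 0 := by
  simp only [sm, fl, om_map_sum_so]; exact y.2.2

lemma wt_F (w : Multiset (Lt χ ws σ N)) : wt ws (F fl w) = card w * N := by
  induction w using Multiset.induction_on with
  | empty => simp [wt]
  | cons y w ih => rw [F_cons, wt_add, ih, wt_fl, Multiset.card_cons]; ring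

lemma sm_F (w : Multiset (Lt χ ws σ N)) : sm χ σ (F fl w) = 0 := by
  induction w using Multiset.induction_on with
  | empty => simp [sm]
  | cons y w ih => rw [F_cons, sm_add, ih, sm_fl, add_zero]

lemma card_of_F (hN : 0 < N) (w w' : Multiset (Lt χ ws σ N)) (h : F fl w = F fl w') :
    card w = card w' := by
  have h1 := wt_F w
  rw [h, wt_F w'] at h1
  exact (Nat.eq_of_mul_eq_mul_right hN h1).symm

lemma exists_letter (p : Multiset S × Multiset L) (hc : card p.1 ≤ 1) (hw : wt ws p = N)
    (hs : sm χ σ p = 0) : ∃ y : Lt χ ws σ N, fl y = p := by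
  obtain ⟨o, ho⟩ := exists_om hc
  refine ⟨⟨(o, p.2), ?_, ?_⟩, ?_⟩
  · rw [← hw, wt, ho, om_map_sum_wo]
  · rw [← hs, sm, ho, om_map_sum_so]
  · exact Prod.ext ho.symm rfl

instance finite_card_le [Finite L] (n : ℕ) : Finite {m : Multiset L // card m ≤ n} := by
  have h : Finite (Σ k : Fin (n + 1), Sym L k) := inferInstance
  let f : {m : Multiset L // card m ≤ n} → Σ k : Fin (n + 1), Sym L k :=
    fun m => ⟨⟨card m.1, Nat.lt_succ_of_le m.2⟩, ⟨m.1, rfl⟩⟩
  refine Finite.of_injective f ?_
  intro a b hab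
  have h1 : ((f a).2 : Multiset L) = ((f b).2 : Multiset L) := by rw [hab]
  exact Subtype.ext h1

instance finite_Lt [Finite L] [Finite S] : Finite (Lt χ ws σ N) := by
  let f : Lt χ ws σ N → Option S × {m : Multiset L // card m ≤ N} :=
    fun y => (y.1.1, ⟨y.1.2, by have := y.2.1; omega⟩)
  refine Finite.of_injective f ?_
  intro a b hab
  have h1 := congrArg Prod.fst hab
  have h2 := congrArg (fun x => (Prod.snd x).1) hab
  exact Subtype.ext (Prod.ext h1 h2)

/-- `EGZ` for multiples -/
lemma egz_mul {A : Type} [AddCommGroup A] [Finite A] (f : L → A) (k : ℕ) :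
    ∀ s : Multiset L, (k + 1) * Nat.card A - 1 ≤ card s →
    ∃ t ≤ s, card t = k * Nat.card A ∧ (t.map f).sum = 0 := by
  classical
  induction k with
  | zero => intro s _; exact ⟨0, Multiset.zero_le _, by simp, by simp⟩
  | succ k ih =>
    intro s hs
    have hpos : 0 < Nat.card A := Nat.card_pos
    have e1 : (k + 1 + 1) * Nat.card A = (k + 1) * Nat.card A + Nat.card A := by ring
    have e2 : (k + 1) * Nat.card A = k * Nat.card A + Nat.card A := by ring
    obtain ⟨t, ht, h1, h2⟩ := GQ23.egz _ A rfl L f s (by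
      have h3 : 2 * Nat.card A ≤ (k + 1 + 1) * Nat.card A := Nat.mul_le_mul_right _ (by omega)
      omega)
    obtain ⟨u, rfl⟩ := Multiset.le_iff_exists_add.1 ht
    obtain ⟨t', ht', h3, h4⟩ := ih u (by
      rw [Multiset.card_add, h1] at hs
      omega)
    refine ⟨t + t', by simpa using ht', ?_, ?_⟩
    · rw [Multiset.card_add, h1, h3, e2]; ring
    · rw [Multiset.map_add, Multiset.sum_add, h2, h4, add_zero]

/-- existence of words of length one or two with given content -/
lemma exists_word [Finite H] {V k : ℕ} (hN : N = k * Nat.card H) (hV : V + Nat.card H ≤ N + 1)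
    (hws : ∀ s, ws s ≤ V) (p : Multiset S × Multiset L) (hc : card p.1 ≤ 1) {j : ℕ}
    (hj1 : 1 ≤ j) (hj2 : j ≤ 2) (hw : wt ws p = j * N) (hs : sm χ σ p = 0) :
    ∃ v : Multiset (Lt χ ws σ N), F fl v = p ∧ card v = j := by
  classical
  have hj : j = 1 ∨ j = 2 := by omega
  rcases hj with rfl | rfl
  · obtain ⟨y, hy⟩ := exists_letter (χ := χ) (ws := ws) (σ := σ) (N := N) p hc (by rw [hw, one_mul]) hs
    exact ⟨{y}, by rw [F_singleton, hy], by simp⟩
  · obtain ⟨o, ho⟩ := exists_om hc
    have hwo : wo ws o ≤ V := by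
      cases o with
      | none => simp
      | some s => exact hws s
    have hcard : wo ws o + card p.2 = 2 * N := by
      rw [← hw, wt, ho, om_map_sum_wo]
    obtain ⟨t, ht, h1, h2⟩ := egz_mul χ k p.2 (by
      have e1 : (k + 1) * Nat.card H = k * Nat.card H + Nat.card H := by ring
      rw [e1, ← hN]; omega)
    obtain ⟨u, hu⟩ := Multiset.le_iff_exists_add.1 ht
    rw [← hN] at h1
    have hp : p = ((0 : Multiset S), t) + (p.1, u) := by
      apply Prod.ext
      · simp
      · simp [hu]
    have hw1 : wt ws ((0 : Multiset S), t) = N := by simp [wt, h1]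
    have hs1 : sm χ σ ((0 : Multiset S), t) = 0 := by simp [sm, h2]
    obtain ⟨y1, hy1⟩ := exists_letter (χ := χ) (ws := ws) (σ := σ) (N := N)
      ((0 : Multiset S), t) (by simp) hw1 hs1
    obtain ⟨y2, hy2⟩ := exists_letter (χ := χ) (ws := ws) (σ := σ) (N := N)
      (p.1, u) hc (by rw [hp, wt_add, hw1] at hw; omega)
      (by rw [hp, sm_add, hs1, zero_add] at hs; exact hs)
    exact ⟨{y1, y2}, by
      rw [Multiset.insert_eq_cons, F_cons, F_singleton, hy1, hy2, ← hp], by simp⟩

/-- two labels of a word occur in a subword of length at most two -/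
lemma sub2 (w : Multiset (Lt χ ws σ N)) {x y : L} (h : {x, y} ≤ (F fl w).2) :
    ∃ v ≤ w, card v ≤ 2 ∧ {x, y} ≤ (F fl v).2 := by
  classical
  have hF : ∀ w : Multiset (Lt χ ws σ N), (F fl w).2 = (w.map (fun z => z.1.2)).sum := by
    intro w
    induction w using Multiset.induction_on with
    | empty => simp
    | cons z w ih => rw [F_cons, Prod.snd_add, ih]; simp [fl]
  have hx : x ∈ (F fl w).2 := Multiset.mem_of_le h (by simp)
  rw [hF, mem_sum'] at hx
  obtain ⟨m, hm, hxm⟩ := hx
  obtain ⟨z, hz, rfl⟩ := Multiset.mem_map.1 hm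
  obtain ⟨w₀, rfl⟩ := Multiset.exists_cons_of_mem hz
  obtain ⟨u, hu⟩ := Multiset.exists_cons_of_mem hxm
  have h1 : (F fl (z ::ₘ w₀)).2 = x ::ₘ (u + (F fl w₀).2) := by
    rw [F_cons, Prod.snd_add, fl, hu, Multiset.cons_add]
  rw [h1, Multiset.insert_eq_cons, Multiset.cons_le_cons_iff, Multiset.singleton_le,
    Multiset.mem_add] at h
  rcases h with h | h
  · refine ⟨{z}, by simp, by simp, ?_⟩
    rw [F_singleton, fl, hu, Multiset.insert_eq_cons]
    exact (Multiset.cons_le_cons_iff x).2 (Multiset.singleton_le.2 h)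
  · rw [hF, mem_sum'] at h
    obtain ⟨m, hm', hym⟩ := h
    obtain ⟨z', hz', rfl⟩ := Multiset.mem_map.1 hm'
    refine ⟨{z, z'}, ?_, by simp, ?_⟩
    · rw [Multiset.insert_eq_cons]
      exact (Multiset.cons_le_cons_iff z).2 (Multiset.singleton_le.2 hz')
    · rw [Multiset.insert_eq_cons, Multiset.insert_eq_cons, F_cons, F_singleton, Prod.snd_add, fl,
        fl, hu, Multiset.cons_add]
      refine (Multiset.cons_le_cons_iff x).2 (Multiset.singleton_le.2 ?_)
      exact Multiset.mem_add.2 (Or.inr hym)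

lemma F_fst (w : Multiset (Lt χ ws σ N)) : (F fl w).1 = (w.map (fun z => om z.1.1)).sum := by
  induction w using Multiset.induction_on with
  | empty => simp
  | cons z w ih => rw [F_cons, Prod.fst_add, ih]; simp [fl]

lemma F_snd (w : Multiset (Lt χ ws σ N)) : (F fl w).2 = (w.map (fun z => z.1.2)).sum := by
  induction w using Multiset.induction_on with
  | empty => simp
  | cons z w ih => rw [F_cons, Prod.snd_add, ih]; simp [fl]

/-- a special label and a label of a word occur in a subword of length at most two -/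
lemma sub11 (w : Multiset (Lt χ ws σ N)) {s : S} {y : L} (hs : s ∈ (F fl w).1)
    (hy : y ∈ (F fl w).2) :
    ∃ v ≤ w, card v ≤ 2 ∧ s ∈ (F fl v).1 ∧ y ∈ (F fl v).2 := by
  classical
  rw [F_fst, mem_sum'] at hs
  rw [F_snd, mem_sum'] at hy
  obtain ⟨m, hm, hsm⟩ := hs
  obtain ⟨z, hz, rfl⟩ := Multiset.mem_map.1 hm
  obtain ⟨m', hm', hym⟩ := hy
  obtain ⟨z', hz', rfl⟩ := Multiset.mem_map.1 hm'
  by_cases hzz : z = z'
  · subst hzz
    exact ⟨{z}, Multiset.singleton_le.2 hz, by simp, by simpa [fl] using hsm,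
      by simpa [fl] using hym⟩
  · obtain ⟨w₀, rfl⟩ := Multiset.exists_cons_of_mem hz
    have hz'' : z' ∈ w₀ := by
      rcases Multiset.mem_cons.1 hz' with h | h
      · exact absurd h.symm hzz
      · exact h
    refine ⟨{z, z'}, ?_, by simp, ?_, ?_⟩
    · rw [Multiset.insert_eq_cons]
      exact (Multiset.cons_le_cons_iff z).2 (Multiset.singleton_le.2 hz'')
    · rw [Multiset.insert_eq_cons, F_cons, Prod.fst_add, fl]
      exact Multiset.mem_add.2 (Or.inl hsm)
    · rw [Multiset.insert_eq_cons, F_cons, F_singleton, Prod.snd_add, fl, fl]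
      exact Multiset.mem_add.2 (Or.inr hym)

lemma sub1 (w : Multiset (Lt χ ws σ N)) {s : S} (hs : s ∈ (F fl w).1) :
    ∃ v ≤ w, card v ≤ 2 ∧ s ∈ (F fl v).1 := by
  classical
  rw [F_fst, mem_sum'] at hs
  obtain ⟨m, hm, hsm⟩ := hs
  obtain ⟨z, hz, rfl⟩ := Multiset.mem_map.1 hm
  exact ⟨{z}, Multiset.singleton_le.2 hz, by simp, by simpa [fl] using hsm⟩

/-- two special labels of a word occur in a subword of length two -/
lemma sub_spec (w : Multiset (Lt χ ws σ N)) (h : 2 ≤ card (F fl w).1) :
    ∃ v ≤ w, card v = 2 ∧ card (F fl v).1 = 2 := by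
  classical
  have h1 : ∀ w : Multiset (Lt χ ws σ N),
      card (F fl w).1 = card (w.filter (fun z => z.1.1.isSome)) := by
    intro w
    induction w using Multiset.induction_on with
    | empty => simp
    | cons z w ih =>
      rw [F_cons, Prod.fst_add, Multiset.card_add, ih, fl]
      rcases hz : z.1.1 with _ | s
      · rw [Multiset.filter_cons_of_neg _ (by simp [hz])]; simp
      · rw [Multiset.filter_cons_of_pos _ (by simp [hz])]; simp [add_comm]
  rw [h1] at h
  obtain ⟨v, hv, hc⟩ := GQ23.exists_le_card _ 2 h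
  refine ⟨v, hv.trans (Multiset.filter_le _ _), hc, ?_⟩
  rw [h1, Multiset.filter_eq_self.2, hc]
  intro z hz
  exact (Multiset.mem_filter.1 (Multiset.mem_of_le hv hz)).2

/-- every datum with special labels of weight at most `W` has the uniqueness property -/
def SG (H : Type) [AddCommGroup H] (N W : ℕ) : Prop :=
  ∀ (L S : Type) [Finite L] [Finite S] (χ : L → H) (ws : S → ℕ) (σ : S → H), (∀ s, ws s ≤ W) →
    ∃ κ : Lt χ ws σ N → ℕ, Un fl κ (fun p => card p.1 ≤ 1)

end Letters

end GQ49
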