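import Pool.Agent.Lib.MP_45c7d7_ag.Sp2

/-!
# The trivial group (helper49)
-/

namespace GQ49

open Multiset

set_option linter.unusedSectionVars false

lemma sq_lt {C a b a' b' x y : ℕ} (e1 : a' + x = a + y) (e2 : b' + y = b + x) (hxy : x < y)
    (hab : b ≤ a) (ha : a ^ 2 ≤ C) (hb : b ^ 2 ≤ C) (ha' : a' ^ 2 ≤ C) (hb' : b' ^ 2 ≤ C) :
    (C - a' ^ 2) + (C - b' ^ 2) < (C - a ^ 2) + (C - b ^ 2) := by
  have h5 : a ^ 2 + b ^ 2 < a' ^ 2 + b' ^ 2 := by
    zify at e1 e2 hxy hab ⊢
    have e3 : (a' : ℤ) = a + y - x := by linarith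
    have e4 : (b' : ℤ) = b + x - y := by linarith
    rw [e3, e4]
    nlinarith [mul_nonneg (sub_nonneg.2 hab) (sub_nonneg.2 hxy.le),
      mul_pos (sub_pos.2 hxy) (sub_pos.2 hxy)]
  omega

lemma sq_lt1 {C a a' x y : ℕ} (e1 : a' + x = a + y) (hxy : x < y)
    (ha : a ^ 2 ≤ C) (ha' : a' ^ 2 ≤ C) : (C - a' ^ 2) < (C - a ^ 2) := by
  have h5 : a ^ 2 < a' ^ 2 := Nat.pow_lt_pow_left (by omega) (by norm_num)
  omega

section Base

variable {L S H : Type} [AddCommGroup H] [Finite L] [Finite S]
variable {χ : L → H} {ws : S → ℕ} {σ : S → H} {N : ℕ}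

lemma spec_cases (w : Multiset (Lt χ ws σ N)) (h : card (F fl w).1 ≤ 1) :
    (w.filter (fun z => ¬ z.1.1 = none) = 0 ∧ (F fl w).1 = 0) ∨
    ∃ z s, w.filter (fun z => ¬ z.1.1 = none) = {z} ∧ z.1.1 = some s ∧ (F fl w).1 = {s} := by
  classical
  have h1 : ∀ w : Multiset (Lt χ ws σ N),
      (F fl w).1 = ((w.filter (fun z => ¬ z.1.1 = none)).map (fun z => om z.1.1)).sum := by
    intro w
    induction w using Multiset.induction_on with
    | empty => simp
    | cons z w ih =>
      rw [F_cons, Prod.fst_add, ih, fl]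
      by_cases hz : z.1.1 = none
      · rw [Multiset.filter_cons_of_neg _ (by simp [hz])]; simp [hz]
      · rw [Multiset.filter_cons_of_pos _ (by simp [hz])]; simp
  have h2 : card (F fl w).1 = card (w.filter (fun z => ¬ z.1.1 = none)) := by
    rw [h1]
    generalize hv : w.filter (fun z => ¬ z.1.1 = none) = v
    have hall : ∀ z ∈ v, ¬ z.1.1 = none := fun z hz => by
      rw [← hv] at hz; exact (Multiset.mem_filter.1 hz).2
    clear hv
    induction v using Multiset.induction_on with
    | empty => simp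
    | cons z v ih =>
      rw [Multiset.map_cons, Multiset.sum_cons, Multiset.card_add,
        ih (fun z hz => hall z (Multiset.mem_cons_of_mem hz)), Multiset.card_cons]
      obtain ⟨s, hs⟩ := Option.ne_none_iff_exists'.1 (hall z (Multiset.mem_cons_self _ _))
      rw [hs]; simp [add_comm]
  rw [h2] at h
  rcases Nat.lt_or_ge 0 (card (w.filter (fun z => ¬ z.1.1 = none))) with h0 | h0
  · right
    obtain ⟨z, hz⟩ := Multiset.card_eq_one.1 (le_antisymm h h0)
    have hzn : ¬ z.1.1 = none := by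
      have : z ∈ w.filter (fun z => ¬ z.1.1 = none) := by rw [hz]; simp
      exact (Multiset.mem_filter.1 this).2
    obtain ⟨s, hs⟩ := Option.ne_none_iff_exists'.1 hzn
    refine ⟨z, s, hz, hs, ?_⟩
    rw [h1, hz]; simp [hs]
  · left
    have : w.filter (fun z => ¬ z.1.1 = none) = 0 := by simpa using h0
    exact ⟨this, by rw [h1, this]; simp⟩

/-- exchanging two labels between two letters; trivial group -/
lemma exists_exch [Subsingleton H] (z z' : Lt χ ws σ N) {x y : L} (hx : x ∈ z.1.2)
    (hy : y ∈ z'.1.2) (t : L → ℕ) :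
    ∃ u u' : Lt χ ws σ N, F fl {u, u'} = F fl {z, z'} ∧ u.1.1 = z.1.1 ∧ u'.1.1 = z'.1.1 ∧
      ts t u.1.2 + t x = ts t z.1.2 + t y ∧ ts t u'.1.2 + t y = ts t z'.1.2 + t x := by
  obtain ⟨a, ha⟩ := Multiset.exists_cons_of_mem hx
  obtain ⟨a', ha'⟩ := Multiset.exists_cons_of_mem hy
  refine ⟨⟨(z.1.1, y ::ₘ a), ?_, Subsingleton.elim _ _⟩,
    ⟨(z'.1.1, x ::ₘ a'), ?_, Subsingleton.elim _ _⟩, ?_, rfl, rfl, ?_, ?_⟩
  · have h1 := z.2.1
    rw [ha] at h1
    simpa using h1
  · have h1 := z'.2.1
    rw [ha'] at h1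
    simpa using h1
  · simp only [Multiset.insert_eq_cons, F_cons, F_singleton, fl]
    rw [ha, ha']
    ext1
    · simp
    · simp only [Prod.snd_add, ← Multiset.singleton_add]; abel
  · simp only [ha, ts_cons]; ring
  · simp only [ha', ts_cons]; ring

theorem sg_base (H : Type) [AddCommGroup H] [Subsingleton H] (N W : ℕ) (hN : 0 < N) :
    SG H N W := by
  classical
  intro L S _ _ χ ws σ _
  obtain ⟨n, ⟨e⟩⟩ := Finite.exists_equiv_fin L
  set t : L → ℕ := fun l => (e l : ℕ) with ht
  have htinj : Function.Injective t := fun x y h => e.injective (Fin.ext h)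
  obtain ⟨C, hC⟩ : ∃ C, ∀ y : Lt χ ws σ N, (ts t y.1.2) ^ 2 ≤ C := by
    obtain ⟨M, hM⟩ := (Set.finite_range (fun y : Lt χ ws σ N => (ts t y.1.2) ^ 2)).bddAbove
    exact ⟨M, fun z => hM ⟨z, rfl⟩⟩
  set κ : Lt χ ws σ N → ℕ := fun y => if y.1.1 = none then C - (ts t y.1.2) ^ 2 else 0 with hκ
  refine ⟨κ, ?_⟩
  -- the canonical conditions
  have hcan : ∀ w, Pw fl κ w → card (F fl w).1 ≤ 1 →
      Can t (fun _ : L => ()) N ((w.filter (fun z => ¬ z.1.1 = none)).map (fun z => z.1.2)).sum
        ((w.filter (fun z => z.1.1 = none)).map (fun z => z.1.2)) := by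
    intro w hw hc
    constructor
    · intro β hβ
      obtain ⟨z, hz, rfl⟩ := Multiset.mem_map.1 hβ
      have h1 := z.2.1
      rw [(Multiset.mem_filter.1 hz).2] at h1
      simpa using h1
    · intros; rfl
    · intro β β' hle hts x hx y hy _
      obtain ⟨v, hv, hvm⟩ := GQ23.exists_le_map _ _ _ hle
      have hcv : card v = 2 := by
        have := congrArg card hvm; simpa using this
      obtain ⟨z, z', rfl⟩ := Multiset.card_eq_two.1 hcv
      have hz : z ∈ w.filter (fun z => z.1.1 = none) := Multiset.mem_of_le hv (by simp)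
      have hz' : z' ∈ w.filter (fun z => z.1.1 = none) := Multiset.mem_of_le hv (by simp)
      have hz1 := (Multiset.mem_filter.1 hz).2
      have hz1' := (Multiset.mem_filter.1 hz').2
      have hSt := hw {z, z'} (hv.trans (Multiset.filter_le _ _)) (by simp)
      have hpair : (z.1.2 = β ∧ z'.1.2 = β') ∨ (z'.1.2 = β ∧ z.1.2 = β') := by
        rw [Multiset.insert_eq_cons, Multiset.insert_eq_cons, Multiset.map_cons,
          Multiset.map_singleton, Multiset.cons_eq_cons] at hvm
        rcases hvm with ⟨h1, h2⟩ | ⟨-, cs, h2, h3⟩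
        · exact Or.inl ⟨h1, by simpa using h2⟩
        · have hcs : cs = 0 := by
            have := congrArg card h2
            simpa using this.symm
          subst hcs
          simp at h2 h3
          exact Or.inr ⟨h2, h3.symm⟩
      by_contra hlt
      push Not at hlt
      rcases hpair with ⟨hb, hb'⟩ | ⟨hb, hb'⟩
      · subst hb; subst hb'
        obtain ⟨u, u', hF, h1, h2, e1, e2⟩ := exists_exch z z' hx hy t
        have h3 := hSt _ hF
        have h4 := sq_lt e1 e2 hlt hts (hC z) (hC z') (hC u) (hC u')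
        simp only [Multiset.insert_eq_cons, Ky_cons, Ky_singleton, hκ, h1, h2, hz1, hz1',
          if_true] at h3
        omega
      · subst hb; subst hb'
        obtain ⟨u, u', hF, h1, h2, e1, e2⟩ := exists_exch z' z hx hy t
        have h3 := hSt {u, u'} (by rw [hF, Multiset.pair_comm])
        have h4 := sq_lt e1 e2 hlt hts (hC z') (hC z) (hC u) (hC u')
        simp only [Multiset.insert_eq_cons, Ky_cons, Ky_singleton, hκ, h1, h2, hz1, hz1',
          if_true] at h3
        omega
    · intro β hβ x hx y hy _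
      obtain ⟨z', hz', rfl⟩ := Multiset.mem_map.1 hβ
      obtain ⟨m, hm, hxm⟩ := mem_sum'.1 hx
      obtain ⟨z, hz, rfl⟩ := Multiset.mem_map.1 hm
      obtain ⟨hzw, hzn⟩ := Multiset.mem_filter.1 hz
      obtain ⟨hzw', hzn'⟩ := Multiset.mem_filter.1 hz'
      have hle : {z, z'} ≤ w := by
        obtain ⟨w₀, rfl⟩ := Multiset.exists_cons_of_mem hzw
        rw [Multiset.insert_eq_cons]
        refine (Multiset.cons_le_cons_iff z).2 (Multiset.singleton_le.2 ?_)
        rcases Multiset.mem_cons.1 hzw' with h | h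
        · rw [h] at hzn'; exact absurd hzn' hzn
        · exact h
      by_contra hlt
      push Not at hlt
      obtain ⟨u, u', hF, h1, h2, e1, e2⟩ := exists_exch z z' hxm hy t
      have h3 := hw {z, z'} hle (by simp) _ hF
      have h4 := sq_lt1 e2 hlt (hC z') (hC u')
      simp only [Multiset.insert_eq_cons, Ky_cons, Ky_singleton, hκ, h1, h2, hzn, hzn',
        if_true, if_false] at h3
      omega
  -- shape of a word
  have hshape : ∀ w : Multiset (Lt χ ws σ N), card (F fl w).1 ≤ 1 →
      w.map fl = ((w.filter (fun z => z.1.1 = none)).map (fun z => z.1.2)).map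
        (fun β => ((0 : Multiset S), β)) +
      (if (F fl w).1 = 0 then 0 else
        {((F fl w).1, ((w.filter (fun z => ¬ z.1.1 = none)).map (fun z => z.1.2)).sum)}) := by
    intro w hc
    conv_lhs => rw [← Multiset.filter_add_not (fun z : Lt χ ws σ N => z.1.1 = none) w]
    rw [Multiset.map_add, Multiset.map_map]
    congr 1
    · apply Multiset.map_congr rfl
      intro z hz
      simp [fl, (Multiset.mem_filter.1 hz).2]
    · rcases spec_cases w hc with ⟨h1, h2⟩ | ⟨z, s, h1, h2, h3⟩
      · rw [h1, h2]; simp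
      · rw [h1, h3]; simp [fl, h2]
  have hsum : ∀ w : Multiset (Lt χ ws σ N), (F fl w).2 =
      ((w.filter (fun z => ¬ z.1.1 = none)).map (fun z => z.1.2)).sum +
      ((w.filter (fun z => z.1.1 = none)).map (fun z => z.1.2)).sum := by
    intro w
    rw [F_snd]
    conv_lhs => rw [← Multiset.filter_add_not (fun z : Lt χ ws σ N => z.1.1 = none) w]
    rw [Multiset.map_add, Multiset.sum_add, add_comm]
  have hcardR : ∀ w : Multiset (Lt χ ws σ N), card (F fl w).1 ≤ 1 →
      card ((w.filter (fun z => ¬ z.1.1 = none)).map (fun z => z.1.2)).sum =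
      if (F fl w).1 = 0 then 0 else N - ((F fl w).1.map ws).sum := by
    intro w hc
    rcases spec_cases w hc with ⟨h1, h2⟩ | ⟨z, s, h1, h2, h3⟩
    · rw [h1, h2]; simp
    · rw [h1, h3]
      have h4 := z.2.1
      rw [h2] at h4
      simp at h4 ⊢
      omega
  intro w w' hw hw' hF hc
  have hc' : card (F fl w').1 ≤ 1 := hF ▸ hc
  have h1 := (hcan w hw hc).unique htinj hN _ rfl (hcan w' hw' hc') (by
    intro c
    have h5 : ∀ m : Multiset L, countP (fun _ => () = c) m = card m := fun m =>
      Multiset.countP_eq_card.2 (fun _ _ => rfl)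
    rw [h5, h5, hcardR w hc, hcardR w' hc', hF]) (by
    rw [← hsum, ← hsum, hF])
  have h2 : w.map fl = w'.map fl := by
    rw [hshape w hc, hshape w' hc', h1.1, h1.2, hF]
  exact Multiset.map_injective fl_inj h2

end Base

end GQ49
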