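import Pool.Agent.Lib.MP_45c7d7_ag.Sp3

/-!
# Going down to a subgroup (helper49)
-/

namespace GQ49

open Multiset

set_option linter.unusedSectionVars false

section Step

variable {L S H : Type} [AddCommGroup H]

/-- class of a label -/
def cl (χ : L → H) (H₁ : AddSubgroup H) (l : L) : H ⧸ H₁ := (χ l : H ⧸ H₁)

/-- pure blocks -/
abbrev Bk (χ : L → H) (H₁ : AddSubgroup H) (b : ℕ) : Type :=
  {β : Multiset L // card β = b ∧ (∀ x ∈ β, ∀ y ∈ β, cl χ H₁ x = cl χ H₁ y) ∧
    (β.map χ).sum ∈ H₁}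

/-- new special labels -/
abbrev Sb (χ : L → H) (ws : S → ℕ) (σ : S → H) (H₁ : AddSubgroup H) (b V : ℕ) : Type :=
  {τ : Option S × Multiset L // (∃ ρ ≤ V, wo ws τ.1 + card τ.2 = b * ρ) ∧
    so σ τ.1 + (τ.2.map χ).sum ∈ H₁}

variable {χ : L → H} {ws : S → ℕ} {σ : S → H} {H₁ : AddSubgroup H} {b V : ℕ}

/-- value of a block -/
def χb (β : Bk χ H₁ b) : H₁ := ⟨(β.1.map χ).sum, β.2.2.2⟩

/-- weight of a new special label -/
def wb (τ : Sb χ ws σ H₁ b V) : ℕ := (wo ws τ.1.1 + card τ.1.2) / b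

/-- value of a new special label -/
def σb (τ : Sb χ ws σ H₁ b V) : H₁ := ⟨so σ τ.1.1 + (τ.1.2.map χ).sum, τ.2.2⟩

/-- the old content of a new content -/
def gg (p : Multiset (Sb χ ws σ H₁ b V) × Multiset (Bk χ H₁ b)) : Multiset S × Multiset L :=
  ((p.1.map (fun τ => om τ.1.1)).sum,
    (p.1.map (fun τ => τ.1.2)).sum + (p.2.map (fun β => β.1)).sum)

lemma gg_add (p p' : Multiset (Sb χ ws σ H₁ b V) × Multiset (Bk χ H₁ b)) :
    gg (p + p') = gg p + gg p' := by
  ext1
  · simp [gg]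
  · simp only [gg, Prod.snd_add, Prod.fst_add, Multiset.map_add, Multiset.sum_add]; abel

lemma gg_zero : gg (0 : Multiset (Sb χ ws σ H₁ b V) × Multiset (Bk χ H₁ b)) = 0 := by
  simp [gg]

lemma wb_eq (hb : 0 < b) (τ : Sb χ ws σ H₁ b V) : wo ws τ.1.1 + card τ.1.2 = b * wb τ := by
  obtain ⟨ρ, -, h⟩ := τ.2.1
  rw [wb, h, Nat.mul_div_cancel_left _ hb]

lemma wb_le (hb : 0 < b) (τ : Sb χ ws σ H₁ b V) : wb τ ≤ V := by
  obtain ⟨ρ, h1, h⟩ := τ.2.1
  rw [wb, h, Nat.mul_div_cancel_left _ hb]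
  exact h1

lemma wt_gg (hb : 0 < b) (p : Multiset (Sb χ ws σ H₁ b V) × Multiset (Bk χ H₁ b)) :
    wt ws (gg p) = b * wt wb p := by
  obtain ⟨T, B⟩ := p
  have h1 : ∀ T : Multiset (Sb χ ws σ H₁ b V),
      (((T.map (fun τ => om τ.1.1)).sum).map ws).sum + card (T.map (fun τ => τ.1.2)).sum
        = b * (T.map wb).sum := by
    intro T
    induction T using Multiset.induction_on with
    | empty => simp
    | cons τ T ih =>
      rw [Multiset.map_cons, Multiset.map_cons, Multiset.map_cons, Multiset.sum_cons,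
        Multiset.sum_cons, Multiset.sum_cons, Multiset.map_add, Multiset.sum_add,
        Multiset.card_add, om_map_sum_wo, mul_add, ← ih, ← wb_eq hb]
      ring
  have h2 : ∀ B : Multiset (Bk χ H₁ b), card (B.map (fun β => β.1)).sum = b * card B := by
    intro B
    induction B using Multiset.induction_on with
    | empty => simp
    | cons β B ih =>
      rw [Multiset.map_cons, Multiset.sum_cons, Multiset.card_add, ih, β.2.1, Multiset.card_cons]
      ring
  simp only [wt, gg, Multiset.card_add, h2]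
  rw [← add_assoc, h1]
  ring

lemma sm_gg (p : Multiset (Sb χ ws σ H₁ b V) × Multiset (Bk χ H₁ b)) :
    sm χ σ (gg p) = ((sm χb σb p : H₁) : H) := by
  obtain ⟨T, B⟩ := p
  have h1 : ∀ T : Multiset (Sb χ ws σ H₁ b V),
      (Multiset.map σ (T.map (fun τ : Sb χ ws σ H₁ b V => om τ.1.1)).sum).sum +
        (Multiset.map χ (T.map (fun τ : Sb χ ws σ H₁ b V => τ.1.2)).sum).sum
        = (((T.map σb).sum : H₁) : H) := by
    intro T
    induction T using Multiset.induction_on with
    | empty => simp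
    | cons τ T ih =>
      rw [Multiset.map_cons, Multiset.map_cons, Multiset.map_cons, Multiset.sum_cons,
        Multiset.sum_cons, Multiset.sum_cons, Multiset.map_add, Multiset.sum_add,
        Multiset.map_add, Multiset.sum_add, om_map_sum_so, AddSubgroup.coe_add, ← ih, σb]
      exact add_add_add_comm _ _ _ _
  have h2 : ∀ B : Multiset (Bk χ H₁ b),
      (Multiset.map χ (B.map (fun β : Bk χ H₁ b => β.1)).sum).sum
      = (((B.map χb).sum : H₁) : H) := by
    intro B
    induction B using Multiset.induction_on with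
    | empty => simp
    | cons β B ih =>
      rw [Multiset.map_cons, Multiset.sum_cons, Multiset.map_add, Multiset.sum_add, ih,
        Multiset.map_cons, Multiset.sum_cons, AddSubgroup.coe_add, χb]
  simp only [sm, gg, Multiset.map_add, Multiset.sum_add, h2]
  rw [← add_assoc, h1, AddSubgroup.coe_add]

lemma cl_eq {x y : L} : cl χ H₁ x = cl χ H₁ y ↔ χ y - χ x ∈ H₁ := by
  rw [cl, cl, QuotientAddGroup.eq, neg_add_eq_sub]

/-- a multiset of `b` labels of one class is a block -/
lemma exists_block (hbl : ∀ l, b • χ l ∈ H₁) (t : Multiset L) (ht : card t = b)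
    (hp : ∀ x ∈ t, ∀ y ∈ t, cl χ H₁ x = cl χ H₁ y) : ∃ β : Bk χ H₁ b, β.1 = t := by
  refine ⟨⟨t, ht, hp, ?_⟩, rfl⟩
  rcases t.empty_or_exists_mem with rfl | ⟨x, hx⟩
  · simp
  · have h1 : ∀ u : Multiset L, (∀ y ∈ u, cl χ H₁ x = cl χ H₁ y) →
        (u.map χ).sum - card u • χ x ∈ H₁ := by
      intro u
      induction u using Multiset.induction_on with
      | empty => intro _; simp
      | cons y u ih =>
        intro h
        have h2 := ih (fun z hz => h z (Multiset.mem_cons_of_mem hz))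
        have h3 := cl_eq.1 (h y (Multiset.mem_cons_self _ _))
        rw [Multiset.map_cons, Multiset.sum_cons, Multiset.card_cons, succ_nsmul]
        have h4 := H₁.add_mem h2 h3
        convert h4 using 1
        abel
    have h2 := h1 t (fun y hy => hp x hx y hy)
    rw [ht] at h2
    have h3 := H₁.add_mem h2 (hbl x)
    simpa using h3

/-- extraction of blocks -/
lemma extract [DecidableEq (H ⧸ H₁)] (hb : 0 < b) (hbl : ∀ l, b • χ l ∈ H₁) (n : ℕ) :
    ∀ m : Multiset L, card m = n →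
    ∃ (R : Multiset L) (B : Multiset (Bk χ H₁ b)), m = R + (B.map (fun β => β.1)).sum ∧
      ∀ c, countP (fun x => cl χ H₁ x = c) R < b := by
  classical
  induction n using Nat.strong_induction_on with
  | _ n ih =>
    intro m hm
    by_cases h : ∀ c, countP (fun x => cl χ H₁ x = c) m < b
    · exact ⟨m, 0, by simp, h⟩
    · push Not at h
      obtain ⟨c, hc⟩ := h
      rw [Multiset.countP_eq_card_filter] at hc
      obtain ⟨t, ht, hct⟩ := GQ23.exists_le_card _ _ hc
      have htc : ∀ x ∈ t, cl χ H₁ x = c := fun x hx =>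
        (Multiset.mem_filter.1 (Multiset.mem_of_le ht hx)).2
      obtain ⟨β, hβ⟩ := exists_block hbl t hct (fun x hx y hy => by rw [htc x hx, htc y hy])
      obtain ⟨u, hu⟩ := Multiset.le_iff_exists_add.1 (ht.trans (Multiset.filter_le _ _))
      have hcu : card u < n := by
        have := congrArg card hu
        rw [Multiset.card_add, hct, hm] at this
        omega
      obtain ⟨R, B, h1, h2⟩ := ih (card u) hcu u rfl
      refine ⟨R, β ::ₘ B, ?_, h2⟩
      rw [Multiset.map_cons, Multiset.sum_cons, hβ, hu, h1]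
      abel

lemma card_rem [Finite L] [DecidableEq (H ⧸ H₁)] (hb : 0 < b) {r : ℕ}
    (hr : (Set.range (cl χ H₁)).ncard ≤ r) (R : Multiset L)
    (h : ∀ c, countP (fun x => cl χ H₁ x = c) R < b) : card R ≤ (b - 1) * r := by
  classical
  have h1 : card R = ∑ c ∈ (R.map (cl χ H₁)).toFinset, count c (R.map (cl χ H₁)) := by
    rw [Multiset.toFinset_sum_count_eq, Multiset.card_map]
  have h2 : ∀ c ∈ (R.map (cl χ H₁)).toFinset, count c (R.map (cl χ H₁)) ≤ b - 1 := by
    intro c _
    have h3 : count c (R.map (cl χ H₁)) = countP (fun x => cl χ H₁ x = c) R := by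
      rw [Multiset.count_map, Multiset.countP_eq_card_filter]
      congr 1
      apply Multiset.filter_congr
      intro x _
      exact eq_comm
    have := h c
    omega
  have h3 : (R.map (cl χ H₁)).toFinset.card ≤ r := by
    refine le_trans ?_ hr
    rw [← Set.ncard_coe_finset]
    refine Set.ncard_le_ncard ?_ (Set.finite_range _)
    intro c hc
    simp only [Finset.mem_coe, Multiset.mem_toFinset, Multiset.mem_map] at hc
    obtain ⟨x, -, rfl⟩ := hc
    exact ⟨x, rfl⟩
  rw [h1]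
  calc _ ≤ ∑ _c ∈ (R.map (cl χ H₁)).toFinset, (b - 1) := Finset.sum_le_sum h2
    _ = (R.map (cl χ H₁)).toFinset.card * (b - 1) := by simp
    _ ≤ r * (b - 1) := Nat.mul_le_mul_right _ h3
    _ = (b - 1) * r := mul_comm _ _

/-- existence of a decomposition with at most one special label -/
lemma exists_dec [Finite L] (hb : 0 < b) (hbl : ∀ l, b • χ l ∈ H₁) {r W : ℕ}
    (hr : (Set.range (cl χ H₁)).ncard ≤ r) (hW : ∀ s, ws s ≤ W)
    (hV : W + (b - 1) * r < b * (V + 1)) (p : Multiset S × Multiset L) (hc : card p.1 ≤ 1) {j : ℕ}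
    (hw : wt ws p = b * j) (hs : sm χ σ p = 0) :
    ∃ p₁ : Multiset (Sb χ ws σ H₁ b V) × Multiset (Bk χ H₁ b), card p₁.1 ≤ 1 ∧ gg p₁ = p := by
  classical
  obtain ⟨o, ho⟩ := exists_om hc
  obtain ⟨R, B, h1, h2⟩ := extract (H₁ := H₁) hb hbl _ p.2 rfl
  have hR := card_rem hb hr R h2
  have hwo : wo ws o ≤ W := by
    cases o with
    | none => simp
    | some s => exact hW s
  have hB : card (B.map (fun β => β.1)).sum = b * card B := by
    clear h1
    induction B using Multiset.induction_on with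
    | empty => simp
    | cons β B ih =>
      rw [Multiset.map_cons, Multiset.sum_cons, Multiset.card_add, ih, β.2.1, Multiset.card_cons]
      ring
  have hBs : (Multiset.map χ (B.map (fun β : Bk χ H₁ b => β.1)).sum).sum ∈ H₁ := by
    clear h1 hB
    induction B using Multiset.induction_on with
    | empty => simp
    | cons β B ih =>
      rw [Multiset.map_cons, Multiset.sum_cons, Multiset.map_add, Multiset.sum_add]
      exact H₁.add_mem β.2.2.2 ih
  have hw' : wo ws o + card R + b * card B = b * j := by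
    rw [← hw, wt, ho, om_map_sum_wo, h1, Multiset.card_add, hB, add_assoc]
  have hle : card B ≤ j := by
    have h3 : b * card B ≤ b * j := by omega
    exact Nat.le_of_mul_le_mul_left h3 hb
  obtain ⟨ρ, rfl⟩ := Nat.exists_eq_add_of_le hle
  have hρ : wo ws o + card R = b * ρ := by
    rw [mul_add] at hw'; omega
  have hρV : ρ ≤ V := by
    have h3 : b * ρ < b * (V + 1) := by omega
    have h4 := Nat.lt_of_mul_lt_mul_left h3
    omega
  have hval : so σ o + (R.map χ).sum ∈ H₁ := by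
    rw [sm, ho, om_map_sum_so, h1, Multiset.map_add, Multiset.sum_add, ← add_assoc] at hs
    rw [eq_neg_of_add_eq_zero_left hs]
    exact H₁.neg_mem hBs
  refine ⟨({⟨(o, R), ⟨ρ, hρV, hρ⟩, hval⟩}, B), by simp, ?_⟩
  apply Prod.ext
  · simp [gg, ho]
  · simp [gg, h1]

lemma swapB (β : Bk χ H₁ b) {x y : L} (hx : x ∈ β.1) (hxy : cl χ H₁ x = cl χ H₁ y) :
    ∃ β' : Bk χ H₁ b, β'.1 + {x} = β.1 + {y} := by
  obtain ⟨a, ha⟩ := Multiset.exists_cons_of_mem hx
  have hp : ∀ z ∈ y ::ₘ a, cl χ H₁ z = cl χ H₁ x := by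
    intro z hz
    rcases Multiset.mem_cons.1 hz with rfl | hz
    · exact hxy.symm
    · exact β.2.2.1 z (by rw [ha]; exact Multiset.mem_cons_of_mem hz) x hx
  refine ⟨⟨y ::ₘ a, ?_, ?_, ?_⟩, ?_⟩
  · rw [← β.2.1, ha, Multiset.card_cons, Multiset.card_cons]
  · intro u hu v hv
    rw [hp u hu, hp v hv]
  · have h1 := β.2.2.2
    rw [ha, Multiset.map_cons, Multiset.sum_cons] at h1
    have h2 := H₁.add_mem h1 (cl_eq.1 hxy)
    rw [Multiset.map_cons, Multiset.sum_cons]
    convert h2 using 1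
    abel
  · simp only [ha, ← Multiset.singleton_add]
    abel

lemma swapS (τ : Sb χ ws σ H₁ b V) {x y : L} (hx : x ∈ τ.1.2) (hxy : cl χ H₁ x = cl χ H₁ y) :
    ∃ τ' : Sb χ ws σ H₁ b V, τ'.1.1 = τ.1.1 ∧ τ'.1.2 + {x} = τ.1.2 + {y} := by
  obtain ⟨a, ha⟩ := Multiset.exists_cons_of_mem hx
  obtain ⟨ρ, h1, h2⟩ := τ.2.1
  refine ⟨⟨(τ.1.1, y ::ₘ a), ⟨ρ, h1, ?_⟩, ?_⟩, rfl, ?_⟩
  · rw [← h2, ha, Multiset.card_cons, Multiset.card_cons]
  · have h1 := τ.2.2
    rw [ha, Multiset.map_cons, Multiset.sum_cons] at h1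
    have h2 := H₁.add_mem h1 (cl_eq.1 hxy)
    rw [Multiset.map_cons, Multiset.sum_cons]
    convert h2 using 1
    abel
  · simp only [ha, ← Multiset.singleton_add]
    abel

/-- costs -/
def cst (t : L → ℕ) (C M : ℕ) (p : Multiset (Sb χ ws σ H₁ b V) × Multiset (Bk χ H₁ b)) : ℕ :=
  (p.1.map (fun τ => M + (C + 1) * card τ.1.2)).sum + (p.2.map (fun β => C - (ts t β.1) ^ 2)).sum

lemma cst_add (t : L → ℕ) (C M : ℕ)
    (p p' : Multiset (Sb χ ws σ H₁ b V) × Multiset (Bk χ H₁ b)) :
    cst t C M (p + p') = cst t C M p + cst t C M p' := by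
  simp only [cst, Prod.fst_add, Prod.snd_add, Multiset.map_add, Multiset.sum_add]; ring

lemma cst_zero (t : L → ℕ) (C M : ℕ) :
    cst t C M (0 : Multiset (Sb χ ws σ H₁ b V) × Multiset (Bk χ H₁ b)) = 0 := by
  simp [cst]

lemma om_fst_card (z : Option (Sb χ ws σ H₁ b V) × Multiset (Bk χ H₁ b)) :
    card (gg (om z.1, z.2)).1 ≤ 1 := by
  cases hz : z.1 with
  | none => simp [gg]
  | some τ => simpa [gg] using card_om τ.1.1

/-- the old letter of a new letter -/
lemma exists_D {N N₁ : ℕ} (hN : N = b * N₁) (hb : 0 < b)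
    (z : Lt (χb (χ := χ) (H₁ := H₁) (b := b)) (wb (χ := χ) (ws := ws) (σ := σ) (H₁ := H₁) (b := b)
      (V := V)) σb N₁) :
    ∃ y : Lt χ ws σ N, fl y = gg (fl z) := by
  refine exists_letter _ (om_fst_card z.1) ?_ ?_
  · rw [wt_gg hb, wt_fl, hN]
  · rw [sm_gg, sm_fl]; rfl

end Step

end GQ49
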