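import Pool.Agent.Lib.MP_45c7d7_ag.Sp4

/-!
# Going down to a subgroup: minimal words (helper49)
-/

namespace GQ49

open Multiset

set_option linter.unusedSectionVars false

section Step

variable {L S H : Type} [AddCommGroup H] [Finite L] [Finite S]
variable {χ : L → H} {ws : S → ℕ} {σ : S → H} {H₁ : AddSubgroup H} {b V N N₁ : ℕ}

/-- new letters -/
abbrev Y1 (χ : L → H) (ws : S → ℕ) (σ : S → H) (H₁ : AddSubgroup H) (b V N₁ : ℕ) : Type :=
  Lt (χb (χ := χ) (H₁ := H₁) (b := b))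
    (wb (χ := χ) (ws := ws) (σ := σ) (H₁ := H₁) (b := b) (V := V)) σb N₁

/-- the old letter of a new letter -/
noncomputable def DD (hN : N = b * N₁) (hb : 0 < b) (z : Y1 χ ws σ H₁ b V N₁) : Lt χ ws σ N :=
  (exists_D hN hb z).choose

lemma fl_DD (hN : N = b * N₁) (hb : 0 < b) (z : Y1 χ ws σ H₁ b V N₁) :
    fl (DD hN hb z) = gg (fl z) := (exists_D hN hb z).choose_spec

lemma F_DD (hN : N = b * N₁) (hb : 0 < b) (w : Multiset (Y1 χ ws σ H₁ b V N₁)) :
    F (fun z => fl (DD hN hb z)) w = gg (F fl w) := by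
  induction w using Multiset.induction_on with
  | empty => rw [F_zero, F_zero, gg_zero]
  | cons z w ih => rw [F_cons, F_cons, gg_add, ih, fl_DD]

/-- the new key -/
def KK (t : L → ℕ) (C M M₀ : ℕ) (κ₁ : Y1 χ ws σ H₁ b V N₁ → ℕ) (z : Y1 χ ws σ H₁ b V N₁) : ℕ :=
  M₀ * cst t C M (fl z) + κ₁ z

lemma Ky_KK (t : L → ℕ) (C M M₀ : ℕ) (κ₁ : Y1 χ ws σ H₁ b V N₁ → ℕ)
    (w : Multiset (Y1 χ ws σ H₁ b V N₁)) :
    Ky (KK t C M M₀ κ₁) w = M₀ * cst t C M (F fl w) + Ky κ₁ w := by
  induction w using Multiset.induction_on with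
  | empty => rw [F_zero, cst_zero]; simp
  | cons z w ih => rw [Ky_cons, Ky_cons, F_cons, cst_add, ih, KK]; ring

/-- standard words of length at most two have minimal cost -/
lemma min_cst [Finite H₁] (hN : N = b * N₁) (hb : 0 < b) {k : ℕ}
    (hN₁ : N₁ = k * Nat.card H₁) (hV : V + Nat.card H₁ ≤ N₁ + 1)
    (t : L → ℕ) (C M M₀ B₀ : ℕ) (κ₁ : Y1 χ ws σ H₁ b V N₁ → ℕ) (hκ : ∀ z, κ₁ z ≤ B₀)
    (hM₀ : 2 * B₀ < M₀) (v : Multiset (Y1 χ ws σ H₁ b V N₁))
    (hSt : St (fun z => fl (DD hN hb z)) (KK t C M M₀ κ₁) v) (hv : card v ≤ 2)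
    (p₁ : Multiset (Sb χ ws σ H₁ b V) × Multiset (Bk χ H₁ b)) (hc : card p₁.1 ≤ 1)
    (hg : gg p₁ = gg (F fl v)) : cst t C M (F fl v) ≤ cst t C M p₁ := by
  rcases Nat.eq_zero_or_pos (card v) with h0 | h0
  · rw [Multiset.card_eq_zero] at h0
    rw [h0, F_zero, cst_zero]; exact Nat.zero_le _
  · have hw : wt wb p₁ = card v * N₁ := by
      have h1 : b * wt wb p₁ = b * wt wb (F fl v) := by
        rw [← wt_gg hb, ← wt_gg hb, hg]
      rw [Nat.eq_of_mul_eq_mul_left hb h1, wt_F]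
    have hs : sm χb σb p₁ = 0 := by
      have h1 : ((sm χb σb p₁ : H₁) : H) = ((sm χb σb (F fl v) : H₁) : H) := by
        rw [← sm_gg, ← sm_gg, hg]
      rw [sm_F] at h1
      exact Subtype.ext h1
    obtain ⟨v', h1, h2⟩ := exists_word (χ := χb (χ := χ) (H₁ := H₁) (b := b))
      (ws := wb (χ := χ) (ws := ws) (σ := σ) (H₁ := H₁) (b := b) (V := V)) (σ := σb)
      hN₁ hV (fun τ => wb_le hb τ) p₁ hc h0 hv hw hs
    have h3 := hSt v' (by rw [F_DD, F_DD, h1, hg])
    rw [Ky_KK, Ky_KK, h1] at h3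
    have h4 : Ky κ₁ v' ≤ 2 * B₀ := by
      have h5 : ∀ u : Multiset (Y1 χ ws σ H₁ b V N₁), Ky κ₁ u ≤ card u * B₀ := by
        intro u
        induction u using Multiset.induction_on with
        | empty => simp
        | cons z u ih =>
          rw [Ky_cons, Multiset.card_cons, add_mul, one_mul]
          have := hκ z
          omega
      refine (h5 v').trans ?_
      rw [h2]
      exact Nat.mul_le_mul_right _ hv
    by_contra hlt
    push Not at hlt
    have h6 : M₀ * (cst t C M p₁ + 1) ≤ M₀ * cst t C M (F fl v) := Nat.mul_le_mul_left _ hlt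
    rw [mul_add, mul_one] at h6
    omega

/-- the minimality property of the words we consider -/
def Mn (t : L → ℕ) (C M : ℕ) (w : Multiset (Y1 χ ws σ H₁ b V N₁)) : Prop :=
  ∀ v ≤ w, card v ≤ 2 → ∀ p₁ : Multiset (Sb χ ws σ H₁ b V) × Multiset (Bk χ H₁ b),
    card p₁.1 ≤ 1 → gg p₁ = gg (F fl v) → cst t C M (F fl v) ≤ cst t C M p₁

lemma gg_fst_le {w v : Multiset (Y1 χ ws σ H₁ b V N₁)} (hv : v ≤ w) :
    card (gg (F fl v)).1 ≤ card (gg (F fl w)).1 := by
  obtain ⟨u, rfl⟩ := Multiset.le_iff_exists_add.1 hv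
  rw [F_add, gg_add, Prod.fst_add, Multiset.card_add]
  omega

lemma F_fst_le {w v : Multiset (Y1 χ ws σ H₁ b V N₁)} (hv : v ≤ w) :
    card (F fl v).1 ≤ card (F fl w).1 := by
  obtain ⟨u, rfl⟩ := Multiset.le_iff_exists_add.1 hv
  rw [F_add, Prod.fst_add, Multiset.card_add]
  omega

/-- (a) at most one special label -/
lemma cond_a (hb : 0 < b) (hbl : ∀ l, b • χ l ∈ H₁) {r W : ℕ}
    (hr : (Set.range (cl χ H₁)).ncard ≤ r) (hW : ∀ s, ws s ≤ W)
    (hV : W + (b - 1) * r < b * (V + 1)) {t : L → ℕ} {C M : ℕ}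
    (hM : (C + 1) * (b * V) + C * (2 * N₁) < M) {w : Multiset (Y1 χ ws σ H₁ b V N₁)}
    (hw : Mn t C M w) (hc : card (gg (F fl w)).1 ≤ 1) : card (F fl w).1 ≤ 1 := by
  by_contra hlt
  push Not at hlt
  obtain ⟨v, hv, hcv, h2⟩ := sub_spec w hlt
  have hwt : wt wb (F fl v) = 2 * N₁ := by rw [wt_F, hcv]
  obtain ⟨p₁, hp1, hp2⟩ := exists_dec (σ := σ) (V := V) hb hbl hr hW hV (gg (F fl v))
    ((gg_fst_le hv).trans hc) (j := 2 * N₁) (by rw [wt_gg hb, hwt])
    (by rw [sm_gg, sm_F]; rfl)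
  have h3 := hw v hv hcv.le p₁ hp1 hp2
  have hwt₁ : wt wb p₁ = 2 * N₁ := by
    have h4 : b * wt wb p₁ = b * (2 * N₁) := by rw [← wt_gg hb, hp2, wt_gg hb, hwt]
    exact Nat.eq_of_mul_eq_mul_left hb h4
  have h5 : 2 * M ≤ cst t C M (F fl v) := by
    have h6 : ∀ T : Multiset (Sb χ ws σ H₁ b V),
        card T * M ≤ (T.map (fun τ => M + (C + 1) * card τ.1.2)).sum := by
      intro T
      induction T using Multiset.induction_on with
      | empty => simp
      | cons τ T ih =>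
        rw [Multiset.map_cons, Multiset.sum_cons, Multiset.card_cons, add_mul, one_mul]
        omega
    have h7 := h6 (F fl v).1
    rw [h2] at h7
    exact h7.trans (Nat.le_add_right _ _)
  have h8 : cst t C M p₁ < 2 * M := by
    have h9 : (p₁.1.map (fun τ => M + (C + 1) * card τ.1.2)).sum ≤ M + (C + 1) * (b * V) := by
      obtain ⟨o, ho⟩ := exists_om hp1
      rw [ho]
      cases o with
      | none => simp
      | some τ =>
        simp only [om_some, Multiset.map_singleton, Multiset.sum_singleton]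
        obtain ⟨ρ, h10, h11⟩ := τ.2.1
        have h12 : card τ.1.2 ≤ b * V := by
          have h13 : b * ρ ≤ b * V := Nat.mul_le_mul_left _ h10
          omega
        exact Nat.add_le_add_left (Nat.mul_le_mul_left _ h12) _
    have h14 : (p₁.2.map (fun β => C - (ts t β.1) ^ 2)).sum ≤ C * (2 * N₁) := by
      have h15 : ∀ B : Multiset (Bk χ H₁ b),
          (B.map (fun β => C - (ts t β.1) ^ 2)).sum ≤ C * card B := by
        intro B
        induction B using Multiset.induction_on with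
        | empty => simp
        | cons β B ih =>
          rw [Multiset.map_cons, Multiset.sum_cons, Multiset.card_cons, mul_add, mul_one]
          omega
      refine (h15 _).trans (Nat.mul_le_mul_left _ ?_)
      rw [← hwt₁, wt]
      omega
    rw [cst]
    omega
  omega

/-- (b) the trivial special label does not occur -/
lemma cond_b {t : L → ℕ} {C M : ℕ} (hM : 0 < M) {w : Multiset (Y1 χ ws σ H₁ b V N₁)}
    (hw : Mn t C M w) (ha : card (F fl w).1 ≤ 1) :
    ∀ τ ∈ (F fl w).1, τ.1 ≠ (none, 0) := by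
  intro τ hτ h0
  obtain ⟨v, hv, hcv, hτv⟩ := sub1 w hτ
  obtain ⟨T₀, hT₀⟩ := Multiset.exists_cons_of_mem hτv
  have h1 : F fl v = (τ ::ₘ T₀, (F fl v).2) := Prod.ext hT₀ rfl
  have hle := (F_fst_le hv).trans ha
  rw [hT₀, Multiset.card_cons] at hle
  have h2 := hw v hv hcv (T₀, (F fl v).2) (by show card T₀ ≤ 1; omega) (by
    conv_rhs => rw [h1]
    simp [gg, h0])
  rw [h1] at h2
  simp only [cst, Multiset.map_cons, Multiset.sum_cons] at h2
  omega

/-- (c) the remainder has fewer than `b` labels of each class -/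
lemma cond_c [DecidableEq (H ⧸ H₁)] (hb : 0 < b) (hbl : ∀ l, b • χ l ∈ H₁)
    {t : L → ℕ} {C M : ℕ} {w : Multiset (Y1 χ ws σ H₁ b V N₁)}
    (hw : Mn t C M w) (ha : card (F fl w).1 ≤ 1) :
    ∀ τ ∈ (F fl w).1, ∀ c, countP (fun x => cl χ H₁ x = c) τ.1.2 < b := by
  classical
  intro τ hτ c
  by_contra hlt
  push Not at hlt
  rw [Multiset.countP_eq_card_filter] at hlt
  obtain ⟨s, hs, hcs⟩ := GQ23.exists_le_card _ _ hlt
  have hsc : ∀ x ∈ s, cl χ H₁ x = c := fun x hx =>
    (Multiset.mem_filter.1 (Multiset.mem_of_le hs hx)).2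
  obtain ⟨β, hβ⟩ := exists_block hbl s hcs (fun x hx y hy => by rw [hsc x hx, hsc y hy])
  obtain ⟨u, hu⟩ := Multiset.le_iff_exists_add.1 (hs.trans (Multiset.filter_le _ _))
  obtain ⟨ρ, hρ1, hρ2⟩ := τ.2.1
  have hval := τ.2.2
  have hcu : card τ.1.2 = b + card u := by rw [hu, Multiset.card_add, hcs]
  have hτ' : (∃ ρ ≤ V, wo ws τ.1.1 + card u = b * ρ) ∧ so σ τ.1.1 + (u.map χ).sum ∈ H₁ := by
    constructor
    · refine ⟨ρ - 1, by omega, ?_⟩
      have h1 : 0 < ρ := by
        rcases Nat.eq_zero_or_pos ρ with h | h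
        · rw [h, mul_zero] at hρ2; omega
        · exact h
      obtain ⟨ρ', rfl⟩ : ∃ ρ', ρ = ρ' + 1 := ⟨ρ - 1, by omega⟩
      rw [mul_add, mul_one] at hρ2
      simp only [Nat.add_sub_cancel]
      omega
    · rw [hu, Multiset.map_add, Multiset.sum_add, ← hβ] at hval
      have h2 := H₁.sub_mem hval β.2.2.2
      convert h2 using 1
      abel
  obtain ⟨v, hv, hcv, hτv⟩ := sub1 w hτ
  obtain ⟨T₀, hT₀⟩ := Multiset.exists_cons_of_mem hτv
  have h1 : F fl v = (τ ::ₘ T₀, (F fl v).2) := Prod.ext hT₀ rfl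
  have hle := (F_fst_le hv).trans ha
  rw [hT₀, Multiset.card_cons] at hle
  have h2 := hw v hv hcv (⟨(τ.1.1, u), hτ'⟩ ::ₘ T₀, β ::ₘ (F fl v).2)
    (by simpa using hle) (by
    conv_rhs => rw [h1]
    ext1
    · simp [gg]
    · simp only [gg, Multiset.map_cons, Multiset.sum_cons, hβ]
      rw [hu]
      abel)
  rw [h1] at h2
  simp only [cst, Multiset.map_cons, Multiset.sum_cons, hcu] at h2
  have h3 : (C + 1) * (b + card u) = (C + 1) * b + (C + 1) * card u := by ring
  have h4 : C + 1 ≤ (C + 1) * b := Nat.le_mul_of_pos_right _ hb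
  rw [h3] at h2
  omega

lemma pair_cases {α : Type} {a b c d : α} (h : ({a, b} : Multiset α) = {c, d}) :
    (a = c ∧ b = d) ∨ (b = c ∧ a = d) := by
  rw [Multiset.insert_eq_cons, Multiset.insert_eq_cons, Multiset.cons_eq_cons] at h
  rcases h with ⟨h1, h2⟩ | ⟨-, cs, h2, h3⟩
  · exact Or.inl ⟨h1, by simpa using h2⟩
  · have hcs : cs = 0 := by
      have := congrArg card h2
      simpa using this.symm
    subst hcs
    simp at h2 h3
    exact Or.inr ⟨h2, h3.symm⟩

/-- (d) the blocks and the remainder are canonical -/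
lemma cond_d {t : L → ℕ} {C M : ℕ} (hC : ∀ β : Bk χ H₁ b, (ts t β.1) ^ 2 ≤ C)
    {w : Multiset (Y1 χ ws σ H₁ b V N₁)} (hw : Mn t C M w) (ha : card (F fl w).1 ≤ 1) :
    Can t (cl χ H₁) b ((F fl w).1.map (fun τ => τ.1.2)).sum
      ((F fl w).2.map (fun β => β.1)) := by
  classical
  constructor
  · intro β hβ
    obtain ⟨z, -, rfl⟩ := Multiset.mem_map.1 hβ
    exact z.2.1
  · intro β hβ
    obtain ⟨z, -, rfl⟩ := Multiset.mem_map.1 hβ
    exact z.2.2.1
  · -- two blocks
    have main : ∀ β β' : Bk χ H₁ b, {β, β'} ≤ (F fl w).2 → ts t β'.1 ≤ ts t β.1 → ∀ x ∈ β.1,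
        ∀ y ∈ β'.1, cl χ H₁ x = cl χ H₁ y → t y ≤ t x := by
      intro β β' hle hts x hx y hy hxy
      by_contra hlt
      push Not at hlt
      obtain ⟨v, hv, hcv, hβv⟩ := sub2 w hle
      obtain ⟨B₀, hB₀⟩ := Multiset.le_iff_exists_add.1 hβv
      obtain ⟨β₁, hβ₁⟩ := swapB β hx hxy
      obtain ⟨β₁', hβ₁'⟩ := swapB β' hy hxy.symm
      have h1 : F fl v = ((F fl v).1, {β, β'} + B₀) := Prod.ext rfl hB₀
      have hsum : β₁.1 + β₁'.1 = β.1 + β'.1 := by
        have h3 : (β₁.1 + β₁'.1) + ({x} + {y}) = (β.1 + β'.1) + ({x} + {y}) := by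
          calc _ = (β₁.1 + {x}) + (β₁'.1 + {y}) := by abel
            _ = (β.1 + {y}) + (β'.1 + {x}) := by rw [hβ₁, hβ₁']
            _ = _ := by abel
        exact add_right_cancel h3
      have h2 := hw v hv hcv ((F fl v).1, {β₁, β₁'} + B₀) ((F_fst_le hv).trans ha) (by
        conv_rhs => rw [h1]
        ext1
        · simp [gg]
        · simp only [gg, Multiset.map_add, Multiset.sum_add, Multiset.insert_eq_cons,
            Multiset.map_cons, Multiset.map_singleton, Multiset.sum_cons, Multiset.sum_singleton]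
          rw [hsum])
      rw [h1] at h2
      have e1 : ts t β₁.1 + t x = ts t β.1 + t y := by
        have := congrArg (ts t) hβ₁
        rw [ts_add, ts_add] at this
        simpa [ts] using this
      have e2 : ts t β₁'.1 + t y = ts t β'.1 + t x := by
        have := congrArg (ts t) hβ₁'
        rw [ts_add, ts_add] at this
        simpa [ts] using this
      have h4 := sq_lt e1 e2 hlt hts (hC β) (hC β') (hC β₁) (hC β₁')
      simp only [cst, Multiset.map_add, Multiset.sum_add, Multiset.insert_eq_cons,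
        Multiset.map_cons, Multiset.map_singleton, Multiset.sum_cons, Multiset.sum_singleton] at h2
      omega
    intro β β' hle hts x hx y hy hxy
    obtain ⟨v, hv, hvm⟩ := GQ23.exists_le_map _ _ _ hle
    have hcv : card v = 2 := by
      have := congrArg card hvm; simpa using this
    obtain ⟨z, z', rfl⟩ := Multiset.card_eq_two.1 hcv
    rw [Multiset.insert_eq_cons, Multiset.map_cons, Multiset.map_singleton,
      ← Multiset.insert_eq_cons] at hvm
    rcases pair_cases hvm with ⟨h1, h2⟩ | ⟨h1, h2⟩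
    · subst h1; subst h2
      exact main z z' hv hts x hx y hy hxy
    · subst h1; subst h2
      exact main z' z (by rw [Multiset.pair_comm]; exact hv) hts x hx y hy hxy
  · -- a remainder and a block
    intro β hβ x hx y hy hxy
    obtain ⟨z, hz, rfl⟩ := Multiset.mem_map.1 hβ
    obtain ⟨m, hm, hxm⟩ := mem_sum'.1 hx
    obtain ⟨τ, hτ, rfl⟩ := Multiset.mem_map.1 hm
    by_contra hlt
    push Not at hlt
    obtain ⟨v, hv, hcv, hτv, hzv⟩ := sub11 w hτ hz
    obtain ⟨T₀, hT₀⟩ := Multiset.exists_cons_of_mem hτv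
    obtain ⟨B₀, hB₀⟩ := Multiset.exists_cons_of_mem hzv
    obtain ⟨β₁, hβ₁⟩ := swapB z hy hxy.symm
    obtain ⟨τ₁, hτo, hτ₁⟩ := swapS τ hxm hxy
    have h1 : F fl v = (τ ::ₘ T₀, z ::ₘ B₀) := Prod.ext hT₀ hB₀
    have hle := (F_fst_le hv).trans ha
    rw [hT₀, Multiset.card_cons] at hle
    have hsum : τ₁.1.2 + β₁.1 = τ.1.2 + z.1 := by
      have h3 : (τ₁.1.2 + β₁.1) + ({x} + {y}) = (τ.1.2 + z.1) + ({x} + {y}) := by
        calc _ = (τ₁.1.2 + {x}) + (β₁.1 + {y}) := by abel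
          _ = (τ.1.2 + {y}) + (z.1 + {x}) := by rw [hτ₁, hβ₁]
          _ = _ := by abel
      exact add_right_cancel h3
    have h2 := hw v hv hcv (τ₁ ::ₘ T₀, β₁ ::ₘ B₀) (by simpa using hle) (by
      conv_rhs => rw [h1]
      ext1
      · simp [gg, hτo]
      · simp only [gg, Multiset.map_cons, Multiset.sum_cons]
        calc _ = (τ₁.1.2 + β₁.1) + ((T₀.map (fun τ => τ.1.2)).sum +
              (B₀.map (fun β => β.1)).sum) := by abel
          _ = (τ.1.2 + z.1) + ((T₀.map (fun τ => τ.1.2)).sum +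
              (B₀.map (fun β => β.1)).sum) := by rw [hsum]
          _ = _ := by abel)
    rw [h1] at h2
    have e1 : ts t β₁.1 + t y = ts t z.1 + t x := by
      have := congrArg (ts t) hβ₁
      rw [ts_add, ts_add] at this
      simpa [ts] using this
    have e2 : card τ₁.1.2 = card τ.1.2 := by
      have := congrArg card hτ₁
      simpa using this
    have h4 := sq_lt1 e1 hlt (hC z) (hC β₁)
    simp only [cst, Multiset.map_cons, Multiset.sum_cons, e2] at h2
    omega

end Step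

end GQ49
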