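import Pool.Agent.Lib.MP_45c7d7_ag.Sp5

/-!
# Going down to a subgroup: the step (helper49)
-/

namespace GQ49

open Multiset

set_option linter.unusedSectionVars false

section Step

variable {L S H : Type} [AddCommGroup H] [Finite L] [Finite S]
variable {χ : L → H} {ws : S → ℕ} {σ : S → H} {H₁ : AddSubgroup H} {b V N N₁ : ℕ}

instance finite_Bk : Finite (Bk χ H₁ b) := by
  let f : Bk χ H₁ b → {m : Multiset L // card m ≤ b} := fun β => ⟨β.1, β.2.1.le⟩
  refine Finite.of_injective f ?_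
  intro x y hxy
  exact Subtype.ext (congrArg (fun z => z.1) hxy)

instance finite_Sb : Finite (Sb χ ws σ H₁ b V) := by
  let f : Sb χ ws σ H₁ b V → Option S × {m : Multiset L // card m ≤ b * V} :=
    fun τ => (τ.1.1, ⟨τ.1.2, by
      obtain ⟨ρ, h1, h2⟩ := τ.2.1
      have h3 : b * ρ ≤ b * V := Nat.mul_le_mul_left _ h1
      omega⟩)
  refine Finite.of_injective f ?_
  intro x y hxy
  have h1 := congrArg Prod.fst hxy
  have h2 := congrArg (fun z => (Prod.snd z).1) hxy
  exact Subtype.ext (Prod.ext h1 h2)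

lemma exists_bound {α : Type} [Finite α] (f : α → ℕ) : ∃ C, ∀ a, f a ≤ C := by
  obtain ⟨M, hM⟩ := (Set.finite_range f).bddAbove
  exact ⟨M, fun z => hM ⟨z, rfl⟩⟩

lemma dvd_count [DecidableEq (H ⧸ H₁)] (B : Multiset (Bk χ H₁ b)) (c : H ⧸ H₁) :
    ∃ m, countP (fun x => cl χ H₁ x = c) (B.map (fun β => β.1)).sum = b * m := by
  induction B using Multiset.induction_on with
  | empty => exact ⟨0, by simp⟩
  | cons β B ih =>
    obtain ⟨m, hm⟩ := ih
    rw [Multiset.map_cons, Multiset.sum_cons, Multiset.countP_add, hm]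
    rcases Nat.eq_zero_or_pos (countP (fun x => cl χ H₁ x = c) β.1) with h | h
    · exact ⟨m, by rw [h, zero_add]⟩
    · obtain ⟨x, hx, hxc⟩ := Multiset.countP_pos.1 h
      have h1 : countP (fun x => cl χ H₁ x = c) β.1 = card β.1 :=
        Multiset.countP_eq_card.2 (fun y hy => by rw [β.2.2.1 y hy x hx, hxc])
      exact ⟨m + 1, by rw [h1, β.2.1]; ring⟩

lemma rem_lt [DecidableEq (H ⧸ H₁)] (hb : 0 < b) (T : Multiset (Sb χ ws σ H₁ b V))
    (hT : card T ≤ 1) (hc : ∀ τ ∈ T, ∀ c, countP (fun x => cl χ H₁ x = c) τ.1.2 < b)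
    (c : H ⧸ H₁) : countP (fun x => cl χ H₁ x = c) (T.map (fun τ => τ.1.2)).sum < b := by
  obtain ⟨o, rfl⟩ := exists_om hT
  cases o with
  | none => simpa using hb
  | some τ => simpa using hc τ (by simp) c

lemma eq_of_data (T T' : Multiset (Sb χ ws σ H₁ b V)) (hT : card T ≤ 1) (hT' : card T' ≤ 1)
    (h0 : ∀ τ ∈ T, τ.1 ≠ (none, 0)) (h0' : ∀ τ ∈ T', τ.1 ≠ (none, 0))
    (h1 : (T.map (fun τ => om τ.1.1)).sum = (T'.map (fun τ => om τ.1.1)).sum)
    (h2 : (T.map (fun τ => τ.1.2)).sum = (T'.map (fun τ => τ.1.2)).sum) : T = T' := by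
  obtain ⟨o, rfl⟩ := exists_om hT
  obtain ⟨o', rfl⟩ := exists_om hT'
  cases o with
  | none =>
    cases o' with
    | none => rfl
    | some τ' =>
      exfalso
      simp only [om_none, om_some, Multiset.map_zero, Multiset.sum_zero, Multiset.map_singleton,
        Multiset.sum_singleton] at h1 h2
      refine h0' τ' (by simp) (Prod.ext ?_ h2.symm)
      exact om_inj (o' := none) (by rw [om_none]; exact h1.symm)
  | some τ =>
    cases o' with
    | none =>
      exfalso
      simp only [om_none, om_some, Multiset.map_zero, Multiset.sum_zero, Multiset.map_singleton,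
        Multiset.sum_singleton] at h1 h2
      refine h0 τ (by simp) (Prod.ext ?_ h2)
      exact om_inj (o' := none) (by rw [om_none]; exact h1)
    | some τ' =>
      simp only [om_some, Multiset.map_singleton, Multiset.sum_singleton] at h1 h2
      have : τ = τ' := Subtype.ext (Prod.ext (om_inj h1) h2)
      rw [this]

theorem sg_step [Finite H₁] (hb : 0 < b) (hN : N = b * N₁) (hN0 : 0 < N) {k r W : ℕ}
    (hN₁ : N₁ = k * Nat.card H₁) (hV' : V + Nat.card H₁ ≤ N₁ + 1)
    (hV : W + (b - 1) * r < b * (V + 1)) (hSG : SG H₁ N₁ V) (hW : ∀ s, ws s ≤ W)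
    (hbl : ∀ l, b • χ l ∈ H₁) (hr : (Set.range (cl χ H₁)).ncard ≤ r) :
    ∃ κ : Lt χ ws σ N → ℕ, Un fl κ (fun p => card p.1 ≤ 1) := by
  classical
  obtain ⟨κ₁, hκ₁⟩ := hSG (Bk χ H₁ b) (Sb χ ws σ H₁ b V) χb wb σb (fun τ => wb_le hb τ)
  obtain ⟨n, ⟨e⟩⟩ := Finite.exists_equiv_fin L
  set t : L → ℕ := fun l => (e l : ℕ) with ht
  have htinj : Function.Injective t := fun x y h => e.injective (Fin.ext h)
  obtain ⟨C, hC⟩ := exists_bound (fun β : Bk χ H₁ b => (ts t β.1) ^ 2)
  obtain ⟨B₀, hB₀⟩ := exists_bound κ₁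
  set M := (C + 1) * (b * V) + C * (2 * N₁) + 1 with hM
  set K : Y1 χ ws σ H₁ b V N₁ → ℕ := KK t C M (2 * B₀ + 1) κ₁ with hK
  have hun : Un (fun z => fl (DD hN hb z)) K (fun p => card p.1 ≤ 1) := by
    intro w w' hw hw' hF hQ
    have hQ' : card (gg (F fl w')).1 ≤ 1 := by
      have := hQ
      simp only [hF] at this
      rwa [F_DD] at this
    simp only [F_DD] at hQ
    rw [F_DD, F_DD] at hF
    have hMn : ∀ w : Multiset (Y1 χ ws σ H₁ b V N₁), Pw (fun z => fl (DD hN hb z)) K w →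
        Mn t C M w := fun w hw v hv hcv p₁ hc hg =>
      min_cst hN hb hN₁ hV' t C M (2 * B₀ + 1) B₀ κ₁ hB₀ (by omega) v (hw v hv hcv) hcv p₁ hc hg
    have m := hMn w hw
    have m' := hMn w' hw'
    have a := cond_a hb hbl hr hW hV (by rw [hM]; exact Nat.lt_succ_self _) m hQ
    have a' := cond_a hb hbl hr hW hV (by rw [hM]; exact Nat.lt_succ_self _) m' hQ'
    have b1 := cond_b (by rw [hM]; exact Nat.succ_pos _) m a
    have b1' := cond_b (by rw [hM]; exact Nat.succ_pos _) m' a'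
    have c1 := rem_lt hb _ a (cond_c hb hbl m a)
    have c1' := rem_lt hb _ a' (cond_c hb hbl m' a')
    have d1 := cond_d hC m a
    have d1' := cond_d hC m' a'
    have hF1 : ((F fl w).1.map (fun τ => om τ.1.1)).sum =
        ((F fl w').1.map (fun τ => om τ.1.1)).sum := congrArg Prod.fst hF
    have hF2 : ((F fl w).1.map (fun τ => τ.1.2)).sum + ((F fl w).2.map (fun β => β.1)).sum =
        ((F fl w').1.map (fun τ => τ.1.2)).sum + ((F fl w').2.map (fun β => β.1)).sum :=
      congrArg Prod.snd hF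
    have hcls : ∀ c, countP (fun x => cl χ H₁ x = c) ((F fl w).1.map (fun τ => τ.1.2)).sum =
        countP (fun x => cl χ H₁ x = c) ((F fl w').1.map (fun τ => τ.1.2)).sum := by
      intro c
      have h1 := congrArg (countP (fun x => cl χ H₁ x = c)) hF2
      rw [Multiset.countP_add, Multiset.countP_add] at h1
      obtain ⟨m₁, hm₁⟩ := dvd_count (F fl w).2 c
      obtain ⟨m₂, hm₂⟩ := dvd_count (F fl w').2 c
      rw [hm₁, hm₂] at h1
      have h2 := congrArg (fun x => x % b) h1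
      simp only [Nat.add_mul_mod_self_left] at h2
      rwa [Nat.mod_eq_of_lt (c1 c), Nat.mod_eq_of_lt (c1' c)] at h2
    obtain ⟨hB, hR⟩ := d1.unique htinj hb _ rfl d1' hcls hF2
    have hT := eq_of_data _ _ a a' b1 b1' hF1 hR
    have hB' : (F fl w).2 = (F fl w').2 := Multiset.map_injective Subtype.val_injective hB
    have hFw : F fl w = F fl w' := Prod.ext hT hB'
    have hP : ∀ w : Multiset (Y1 χ ws σ H₁ b V N₁), Pw (fun z => fl (DD hN hb z)) K w →
        Pw fl κ₁ w := by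
      intro w hw u hu hcu w'' hw''
      have h1 := hw u hu hcu w'' (by rw [F_DD, F_DD, hw''])
      rw [hK, Ky_KK, Ky_KK, hw''] at h1
      omega
    exact hκ₁ w w' (hP w hw) (hP w' hw') hFw a
  refine transfer fl (DD hN hb) ?_ K (fun p => card p.1 ≤ 1) ?_ ?_ fl_inj hun
  · intro y
    obtain ⟨p₁, hp1, hp2⟩ := exists_dec (σ := σ) (V := V) (H₁ := H₁) hb hbl hr hW hV (fl y)
      (by show card (om y.1.1) ≤ 1; exact card_om _) (j := N₁) (by rw [wt_fl, hN]) (sm_fl y)
    obtain ⟨z, hz⟩ := exists_letter (χ := χb (χ := χ) (H₁ := H₁) (b := b))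
      (ws := wb (χ := χ) (ws := ws) (σ := σ) (H₁ := H₁) (b := b) (V := V)) (σ := σb) (N := N₁)
      p₁ hp1 (by
        have h4 : b * wt wb p₁ = b * N₁ := by rw [← wt_gg hb, hp2, wt_fl, hN]
        exact Nat.eq_of_mul_eq_mul_left hb h4) (by
        have h1 := sm_gg p₁
        rw [hp2, sm_fl] at h1
        exact (Subtype.ext h1).symm)
    refine ⟨z, fl_inj ?_⟩
    rw [fl_DD, hz, hp2]
  · intro p p' h
    simp only [Prod.fst_add, Multiset.card_add] at h
    omega
  · exact card_of_F hN0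

end Step

end GQ49
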