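import Pool.Agent.Lib.MP_45c7d7_ag.Sp6

/-!
# Chains of subgroups (helper49)
-/

namespace GQ49

open Multiset

set_option linter.unusedSectionVars false

/-- the numerical condition: `V_0 = V`, `V_j = V_{j-1} / p_j + (p_j - 1)` (integer part), and
`V_j + P_j ≤ k P_j + 1` for all `j`, where `P_j` is the product of the primes after the `j`-th -/
def Chain (k : ℕ) : ℕ → List ℕ → Prop
  | V, [] => V ≤ k
  | V, p :: ps => V + (p :: ps).prod ≤ k * (p :: ps).prod + 1 ∧ Chain k (V / p + (p - 1)) ps

lemma Chain.head {k V : ℕ} {ps : List ℕ} (h : Chain k V ps) : V + ps.prod ≤ k * ps.prod + 1 := by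
  cases ps with
  | nil =>
    have h' : V ≤ k := h
    simpa using h'
  | cons p ps => exact h.1

lemma Chain.of_le {k : ℕ} (hk : 0 < k) : ∀ (ps : List ℕ) (V : ℕ), (∀ p ∈ ps, p.Prime) →
    (∀ p ∈ ps, p ≤ k + 1) → V ≤ k → (∀ p ∈ ps, V < p) → ps.SortedLE → Chain k V ps := by
  intro ps
  induction ps with
  | nil => intro V _ _ hV _ _; exact hV
  | cons p ps ih =>
    intro V hp hle hV hlt hs
    have hpos : 0 < (p :: ps).prod := by
      apply Nat.pos_of_ne_zero
      intro h0
      exact (hp 0 (List.prod_eq_zero_iff.1 h0)).ne_zero rfl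
    refine ⟨?_, ?_⟩
    · obtain ⟨k', rfl⟩ : ∃ k', k = k' + 1 := ⟨k - 1, by omega⟩
      have : k' ≤ k' * (p :: ps).prod := Nat.le_mul_of_pos_right _ hpos
      rw [add_mul, one_mul]
      omega
    · have h0 : V / p = 0 := Nat.div_eq_of_lt (hlt p (by simp))
      have hp0 := (hp p (by simp)).pos
      have hpk := hle p (by simp)
      rw [h0, zero_add]
      refine ih (p - 1) (fun q hq => hp q (by simp [hq])) (fun q hq => hle q (by simp [hq]))
        (by omega) ?_ ?_
      · intro q hq
        have h1 : p ≤ q := by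
          have := hs.pairwise
          exact (List.pairwise_cons.1 this).1 q hq
        omega
      · exact (List.pairwise_cons.1 hs.pairwise).2.sortedLE

lemma exists_index_prime (p : ℕ) [hp : Fact p.Prime] (n : ℕ) : ∀ (H : Type) [AddCommGroup H]
    [Finite H], Nat.card H = n → p ∣ n → ∃ H₁ : AddSubgroup H, H₁.index = p := by
  classical
  induction n using Nat.strong_induction_on with
  | _ n ih =>
    intro H _ _ hH hpn
    have hpos : 0 < Nat.card H := Nat.card_pos
    by_cases hn : n = p
    · exact ⟨⊥, by rw [AddSubgroup.index_bot, hH, hn]⟩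
    · obtain ⟨m, rfl⟩ := hpn
      have hm1 : m ≠ 1 := by rintro rfl; simp at hn
      have hq := Nat.minFac_prime hm1
      obtain ⟨m', hm'⟩ := Nat.minFac_dvd m
      set q := m.minFac with hqd
      have : Fact q.Prime := ⟨hq⟩
      obtain ⟨x, hx⟩ := exists_prime_addOrderOf_dvd_card' (G := H) q (by
        rw [hH, hm']; exact ⟨p * m', by ring⟩)
      set Z := AddSubgroup.zmultiples x with hZ
      have hcz : Nat.card Z = q := by rw [hZ, Nat.card_zmultiples, hx]
      have hmul := AddSubgroup.card_eq_card_quotient_mul_card_addSubgroup Z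
      rw [hcz, hH, hm'] at hmul
      have hq0 : 0 < q := hq.pos
      have hcq : Nat.card (H ⧸ Z) = p * m' := by
        have h1 : p * m' * q = Nat.card (H ⧸ Z) * q := by rw [← hmul]; ring
        exact (Nat.eq_of_mul_eq_mul_right hq0 h1).symm
      have hlt : p * m' < p * m := by
        rw [hm']
        have hm'0 : 0 < m' := by
          rcases Nat.eq_zero_or_pos m' with h | h
          · rw [h, mul_zero] at hcq
            have := Nat.card_pos (α := H ⧸ Z)
            omega
          · exact h
        have h2 : m' < q * m' := by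
          have := hq.one_lt
          nlinarith
        exact Nat.mul_lt_mul_of_pos_left h2 hp.out.pos
      obtain ⟨B, hB⟩ := ih (p * m') hlt (H ⧸ Z) hcq ⟨m', rfl⟩
      refine ⟨B.comap (QuotientAddGroup.mk' Z), ?_⟩
      rw [AddSubgroup.index_comap_of_surjective _ (QuotientAddGroup.mk'_surjective Z), hB]

theorem sg_chain {k : ℕ} (hk : 0 < k) : ∀ (ps : List ℕ), (∀ p ∈ ps, p.Prime) →
    ∀ (H : Type) [AddCommGroup H] [Finite H], Nat.card H = ps.prod → ∀ W, Chain k W ps →
    SG H (k * ps.prod) W := by
  intro ps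
  induction ps with
  | nil =>
    intro _ H _ _ hH W _
    have : Subsingleton H := (Nat.card_eq_one_iff_unique.1 (by rw [hH, List.prod_nil])).1
    exact sg_base H _ _ (by simpa using hk)
  | cons p ps ih =>
    intro hp H _ _ hH W hC
    have hpp : p.Prime := hp p (by simp)
    have : Fact p.Prime := ⟨hpp⟩
    obtain ⟨H₁, hH₁⟩ := exists_index_prime p _ H rfl (by
      rw [hH, List.prod_cons]; exact ⟨_, rfl⟩)
    have hmul : Nat.card H₁ * H₁.index = Nat.card H := H₁.card_mul_index
    rw [hH₁, hH, List.prod_cons] at hmul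
    have hcard : Nat.card H₁ = ps.prod := by
      have h1 : Nat.card H₁ * p = ps.prod * p := by rw [hmul]; ring
      exact Nat.eq_of_mul_eq_mul_right hpp.pos h1
    have hC' := hC.2
    have hSG := ih (fun q hq => hp q (by simp [hq])) H₁ hcard _ hC'
    intro L S _ _ χ ws σ hW
    have hpos : 0 < (p :: ps).prod := by rw [← hH]; exact Nat.card_pos
    refine sg_step (H₁ := H₁) (b := p) (V := W / p + (p - 1)) (N₁ := k * ps.prod) (k := k)
      (r := p) (W := W) hpp.pos ?_ (Nat.mul_pos hk hpos) (by rw [hcard]) ?_ ?_ hSG hW ?_ ?_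
    · rw [List.prod_cons]; ring
    · rw [hcard]; exact hC'.head
    · obtain ⟨p', rfl⟩ : ∃ p', p = p' + 1 := ⟨p - 1, by have := hpp.pos; omega⟩
      have h1 := Nat.lt_mul_div_succ W (Nat.succ_pos p')
      simp only [Nat.add_sub_cancel, Nat.succ_eq_add_one] at h1 ⊢
      nlinarith
    · intro l
      have := AddSubgroup.nsmul_index_mem H₁ (χ l)
      rwa [hH₁] at this
    · refine (Set.ncard_le_ncard (Set.subset_univ _) (Set.toFinite _)).trans ?_
      rw [Set.ncard_univ, ← hH₁]
      exact le_refl _

end GQ49
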