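import Pool.Agent.Lib.MP_45c7d7_ag.Sp7

/-!
# Orders on words without special labels (helper49)
-/

namespace GQ49

open Multiset

set_option linter.unusedSectionVars false

section Top

variable {L H : Type} [AddCommGroup H]

/-- the letters without special labels -/
lemma qorder_of_sg {χ : L → H} {N : ℕ} (hN : Nat.card H = N)
    (h : ∃ κ : Lt χ (fun _ : Empty => 0) (fun _ : Empty => (0 : H)) N → ℕ,
      Un fl κ (fun p => card p.1 ≤ 1)) :
    GQ23.QOrder (fun ω : Multiset L => card ω = Nat.card H ∧ (ω.map χ).sum = 0) := by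
  classical
  subst hN
  obtain ⟨κ, hκ⟩ := h
  let ι : {ω : Multiset L // card ω = Nat.card H ∧ (ω.map χ).sum = 0} →
      Lt χ (fun _ : Empty => 0) (fun _ : Empty => (0 : H)) (Nat.card H) :=
    fun ω => ⟨(none, ω.1), by simpa using ω.2.1, by simpa using ω.2.2⟩
  have hι1 : ∀ ω, fl (ι ω) = ((0 : Multiset Empty), ω.1) := fun ω => rfl
  have hιs : ∀ y, ∃ ω, ι ω = y := by
    rintro ⟨⟨o, m⟩, h1, h2⟩
    cases o with
    | none => exact ⟨⟨m, by simpa using h1, by simpa using h2⟩, rfl⟩
    | some s => exact s.elim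
  have hιi : Function.Injective ι := by
    intro a b hab
    have := congrArg fl hab
    rw [hι1, hι1] at this
    exact Subtype.ext (congrArg Prod.snd this)
  have hF : ∀ α : Multiset {ω : Multiset L // card ω = Nat.card H ∧ (ω.map χ).sum = 0},
      F fl (α.map ι) = ((0 : Multiset Empty), GQ23.FL Subtype.val α) := by
    intro α
    induction α using Multiset.induction_on with
    | empty => rfl
    | cons ω α ih =>
      rw [Multiset.map_cons, F_cons, ih, hι1, GQ23.FL_cons, Prod.mk_add_mk, add_zero]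
  have hK : ∀ α : Multiset {ω : Multiset L // card ω = Nat.card H ∧ (ω.map χ).sum = 0},
      Ky κ (α.map ι) = GQ23.KEY (fun ω => κ (ι ω)) α := by
    intro α
    simp only [Ky, GQ23.KEY, Multiset.map_map, Function.comp_def]
  have hlift : ∀ w : Multiset (Lt χ (fun _ : Empty => 0) (fun _ : Empty => (0 : H)) (Nat.card H)),
      ∃ α, Multiset.map ι α = w := by
    intro w
    induction w using Multiset.induction_on with
    | empty => exact ⟨0, rfl⟩
    | cons y w ih =>
      obtain ⟨α, rfl⟩ := ih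
      obtain ⟨ω, rfl⟩ := hιs y
      exact ⟨ω ::ₘ α, by rw [Multiset.map_cons]⟩
  have hP : ∀ α, GQ23.PW Subtype.val (fun ω => κ (ι ω)) α → Pw fl κ (Multiset.map ι α) := by
    intro α hα u hu hcu w' hw'
    obtain ⟨β, hβ, rfl⟩ := GQ23.exists_le_map ι α u hu
    obtain ⟨β', rfl⟩ := hlift w'
    rw [hF, hF] at hw'
    have h1 := hα β hβ (by simpa using hcu) β' (congrArg Prod.snd hw')
    rw [hK, hK]
    exact h1
  have hU : ∀ α α', GQ23.PW Subtype.val (fun ω => κ (ι ω)) α →
      GQ23.PW Subtype.val (fun ω => κ (ι ω)) α' →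
      GQ23.FL Subtype.val α = GQ23.FL Subtype.val α' → α = α' := by
    intro α α' hα hα' hFL
    have h1 := hκ _ _ (hP α hα) (hP α' hα') (by rw [hF, hF, hFL]) (by rw [hF]; simp)
    exact Multiset.map_injective hιi h1
  refine ⟨ℕ, inferInstance, inferInstance, inferInstance, inferInstance, fun ω => κ (ι ω), ?_, ?_⟩
  · intro α hα
    obtain ⟨β, h1, h2⟩ := GQ23.exists_std Subtype.val (fun ω => κ (ι ω)) α
    rw [hU α β hα h2.pw h1.symm]
    exact h2
  · intro α α' hα hα' hFL
    exact hU α α' hα.pw hα'.pw hFL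

theorem qorder_chain [Finite L] [Finite H] (χ : L → H) (H₁ : AddSubgroup H) {b k r : ℕ}
    (hidx : H₁.index = b * k) (hbl : ∀ l l', b • (χ l - χ l') ∈ H₁)
    (hr : (Set.range (fun l => (χ l : H ⧸ H₁))).ncard ≤ r) (ps : List ℕ)
    (hps : ∀ p ∈ ps, p.Prime) (hprod : Nat.card H₁ = ps.prod)
    (hC : Chain k ((b - 1) * r / b) ps) :
    GQ23.QOrder (fun ω : Multiset L => card ω = Nat.card H ∧ (ω.map χ).sum = 0) := by
  classical
  have hidx0 : H₁.index ≠ 0 := AddSubgroup.index_ne_zero_of_finite
  have hb : 0 < b := by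
    rcases Nat.eq_zero_or_pos b with h | h
    · rw [h, zero_mul] at hidx; exact absurd hidx hidx0
    · exact h
  have hk : 0 < k := by
    rcases Nat.eq_zero_or_pos k with h | h
    · rw [h, mul_zero] at hidx; exact absurd hidx hidx0
    · exact h
  have hcard : Nat.card H = b * (k * ps.prod) := by
    rw [← H₁.card_mul_index, hidx, hprod]; ring
  -- translation
  obtain ⟨c, hc⟩ : ∃ c : H, ∀ l, b • (χ l - c) ∈ H₁ := by
    rcases isEmpty_or_nonempty L with h | ⟨⟨l₀⟩⟩
    · exact ⟨0, fun l => (h.false l).elim⟩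
    · exact ⟨χ l₀, fun l => hbl l l₀⟩
  have hsum : ∀ ω : Multiset L, card ω = Nat.card H →
      (ω.map (fun l => χ l - c)).sum = (ω.map χ).sum := by
    intro ω hω
    rw [Multiset.sum_map_sub, Multiset.map_const', Multiset.sum_replicate, hω,
      card_nsmul_eq_zero' , sub_zero]
  have hPeq : (fun ω : Multiset L => card ω = Nat.card H ∧ (ω.map χ).sum = 0) =
      (fun ω : Multiset L => card ω = Nat.card H ∧ (ω.map (fun l => χ l - c)).sum = 0) := by
    funext ω
    apply propext
    apply and_congr_right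
    intro hω
    rw [hsum ω hω]
  rw [hPeq]
  refine qorder_of_sg hcard ?_
  have hSG := sg_chain hk ps hps H₁ hprod _ hC
  have hpos : 0 < Nat.card H := Nat.card_pos
  rw [hcard] at hpos
  refine sg_step (H₁ := H₁) (b := b) (V := (b - 1) * r / b) (N₁ := k * ps.prod) (k := k)
      (r := r) (W := 0) hb rfl hpos (by rw [hprod]) ?_ ?_ hSG (fun s => s.elim) hc ?_
  · rw [hprod]; exact hC.head
  · rw [zero_add]
    exact Nat.lt_mul_div_succ _ hb
  · refine le_trans ?_ hr
    -- translation of classes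
    have h1 : Set.range (cl (fun l => χ l - c) H₁) =
        (fun x : H ⧸ H₁ => x - (c : H ⧸ H₁)) '' Set.range (fun l => (χ l : H ⧸ H₁)) := by
      rw [← Set.range_comp]
      rfl
    rw [h1]
    exact Set.ncard_image_le (Set.toFinite _)

end Top

end GQ49
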