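import Pool.Agent.Lib.MP_45c7d7_ag.Sp8
import Pool.Agent.Lib.MP_45c7d7_ag.Group

/-!
# Finite diagonal groups and chains (helper49)
-/

namespace GQ49

open MvPolynomial GQ23

universe u

variable {K : Type u} [Field K] {n : ℕ}

/-- The number of different characters `g ↦ g i i`, `i = 0, …, n`, on the group `G₁`. -/
noncomputable def weights {K : Type u} [Field K] {n : ℕ}
    (G₁ : Subgroup (GL (Fin (n + 1)) K)) : ℕ :=
  (Set.range (fun (i : Fin (n + 1)) (g : G₁) =>
    (g.1 : Matrix (Fin (n + 1)) (Fin (n + 1)) K) i i)).ncard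

theorem exists_quadraticGroebner_chain [IsAlgClosed K] (G : Subgroup (GL (Fin (n + 1)) K))
    [Finite G] (hK : (Nat.card G : K) ≠ 0)
    (hG : ∀ g ∈ G, (g : Matrix (Fin (n + 1)) (Fin (n + 1)) K).IsDiag)
    (G₁ : Subgroup (GL (Fin (n + 1)) K)) (hle : G₁ ≤ G) (b k : ℕ) (hcard₁ : Nat.card G₁ = b * k)
    (hb : ∀ g ∈ G₁, ∀ i j, ((g : Matrix (Fin (n + 1)) (Fin (n + 1)) K) i i) ^ b =
      ((g : Matrix (Fin (n + 1)) (Fin (n + 1)) K) j j) ^ b)
    (ps : List ℕ) (hps : ∀ p ∈ ps, p.Prime) (hprod : Nat.card G = Nat.card G₁ * ps.prod)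
    (hC : Chain k ((b - 1) * weights G₁ / b) ps) :
    ∃ m : MonomialOrder.{0, 0} (Omega G), QuadraticGroebner m (toricIdeal K (Omega G)) := by
  classical
  have hfinΩ := finite_Omega G
  refine quadraticGroebner_of_qorder K (Nat.card G) Nat.card_pos (fun s hs => hs.1) ?_
  -- `G` is commutative
  have hcomm : ∀ g h : G, g * h = h * g := by
    intro g h
    apply Subtype.ext
    apply Units.ext
    show (g.1 : Matrix (Fin (n + 1)) (Fin (n + 1)) K) * h.1 = h.1 * g.1
    have e1 := (hG g.1 g.2).diagonal_diag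
    have e2 := (hG h.1 h.2).diagonal_diag
    rw [← e1, ← e2, Matrix.diagonal_mul_diagonal, Matrix.diagonal_mul_diagonal]
    congr 1
    ext i
    exact mul_comm _ _
  let _ : CommGroup G := { (inferInstance : Group G) with mul_comm := hcomm }
  have hexp : (Monoid.exponent G : K) ≠ 0 := by
    intro h0
    apply hK
    obtain ⟨c, hc⟩ := Group.exponent_dvd_nat_card (G := G)
    rw [hc, Nat.cast_mul, h0, zero_mul]
  have : NeZero (Monoid.exponent G : K) := ⟨hexp⟩
  have hcard : Nat.card (G →* Kˣ) = Nat.card G :=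
    CommGroup.card_monoidHom_of_hasEnoughRootsOfUnity G K
  have hfinM : Finite (G →* Kˣ) := Nat.finite_of_card_ne_zero (by rw [hcard]; exact Nat.card_pos.ne')
  -- transport to a type in the lowest universe
  obtain ⟨ι, _, p, _, ex, ⟨e⟩⟩ := AddCommGroup.equiv_directSum_zmod_of_finite (Additive (G →* Kˣ))
  set H0 := DirectSum ι (fun i => ZMod (p i ^ ex i)) with hH0
  have hfinH : Finite H0 := Finite.of_equiv _ e.toEquiv
  have hcardH : Nat.card H0 = Nat.card G := by
    rw [← hcard]; exact (Nat.card_congr e.toEquiv).symm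
  set χ : Fin (n + 1) → H0 := fun i => e (Additive.ofMul (chi G hG i)) with hχ
  have hsum : ∀ w : Multiset (Fin (n + 1)), (w.map χ).sum = 0 ↔ (w.map (chi G hG)).prod = 1 := by
    intro w
    have e1 : (w.map χ).sum = e (Additive.ofMul ((w.map (chi G hG)).prod)) := by
      induction w using Multiset.induction_on with
      | empty => simp
      | cons j w ih =>
        rw [Multiset.map_cons, Multiset.sum_cons, ih, Multiset.map_cons, Multiset.prod_cons,
          ofMul_mul, map_add]
    rw [e1]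
    constructor
    · intro h
      have h1 : Additive.ofMul ((w.map (chi G hG)).prod) = 0 := by
        apply e.injective; rw [h, map_zero]
      exact h1
    · intro h
      rw [h]; simp
  -- the characters which are trivial on `G₁`
  set G₁' : Subgroup G := G₁.subgroupOf G with hG₁'
  have hcG₁' : Nat.card G₁' = Nat.card G₁ :=
    Nat.card_congr (Subgroup.subgroupOfEquivOfLe hle).toEquiv
  set P : Subgroup (G →* Kˣ) := (MonoidHom.domRestrictHom G₁' Kˣ).ker with hP
  have hPcard : Nat.card P = Nat.card (G ⧸ G₁') := CommGroup.card_domRestrictHom_ker K G₁'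
  have hmemP : ∀ η : G →* Kˣ, (∀ g : G, g.1 ∈ G₁ → η g = 1) → η ∈ P := by
    intro η hη
    rw [hP, MonoidHom.mem_ker]
    ext g
    have := hη g.1 g.2
    simpa using this
  let eh : Additive (G →* Kˣ) →+ H0 := e.toAddMonoidHom
  have heh : Function.Injective eh := e.injective
  set B : AddSubgroup H0 := (Subgroup.toAddSubgroup P).map eh with hB
  have hBcard : Nat.card B = Nat.card (G ⧸ G₁') := by
    rw [← hPcard]
    exact (Nat.card_congr (AddSubgroup.equivMapOfInjective
      (Subgroup.toAddSubgroup P) eh heh).toEquiv).symm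
  have hmul := Subgroup.card_eq_card_quotient_mul_card_subgroup G₁'
  have hpos₁ : 0 < Nat.card G₁' := Nat.card_pos
  have hBprod : Nat.card B = ps.prod := by
    rw [hBcard]
    rw [hprod, hcG₁', mul_comm] at hmul
    rw [← hcG₁'] at hmul
    exact (Nat.eq_of_mul_eq_mul_right hpos₁ hmul).symm
  have hBidx : B.index = b * k := by
    have h1 := B.card_mul_index
    rw [hcardH, hprod, hBprod, mul_comm (Nat.card G₁)] at h1
    have h2 : 0 < ps.prod := by rw [← hBprod]; exact Nat.card_pos
    rw [Nat.eq_of_mul_eq_mul_left h2 h1, hcard₁]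
  have hbl : ∀ i j : Fin (n + 1), b • (χ i - χ j) ∈ B := by
    intro i j
    have hη : (chi G hG i * (chi G hG j)⁻¹) ^ b ∈ P := by
      refine hmemP _ ?_
      intro g hg
      rw [MonoidHom.pow_apply, MonoidHom.mul_apply, MonoidHom.inv_apply, mul_pow, inv_pow,
        mul_inv_eq_one]
      apply Units.ext
      rw [Units.val_pow_eq_pow_val, Units.val_pow_eq_pow_val, chi_apply, chi_apply]
      exact hb g.1 hg i j
    refine ⟨Additive.ofMul ((chi G hG i * (chi G hG j)⁻¹) ^ b), hη, ?_⟩
    have h1 : Additive.ofMul ((chi G hG i * (chi G hG j)⁻¹) ^ b) =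
        b • (Additive.ofMul (chi G hG i) + -Additive.ofMul (chi G hG j)) := rfl
    show e (Additive.ofMul ((chi G hG i * (chi G hG j)⁻¹) ^ b)) = b • (χ i - χ j)
    have h2 : e (-Additive.ofMul (chi G hG j)) = -e (Additive.ofMul (chi G hG j)) :=
      map_neg e (Additive.ofMul (chi G hG j))
    rw [h1, map_nsmul, map_add, h2, sub_eq_add_neg]
  have hkey : ∀ i j : Fin (n + 1),
      (∀ g : G₁, (g.1 : Matrix (Fin (n + 1)) (Fin (n + 1)) K) i i =
        (g.1 : Matrix (Fin (n + 1)) (Fin (n + 1)) K) j j) →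
      (χ i : H0 ⧸ B) = (χ j : H0 ⧸ B) := by
    intro i j hij
    rw [QuotientAddGroup.eq]
    have hη : (chi G hG i)⁻¹ * chi G hG j ∈ P := by
      refine hmemP _ ?_
      intro g hg
      rw [MonoidHom.mul_apply, MonoidHom.inv_apply, inv_mul_eq_one]
      apply Units.ext
      rw [chi_apply, chi_apply]
      exact hij ⟨g.1, hg⟩
    refine ⟨Additive.ofMul ((chi G hG i)⁻¹ * chi G hG j), hη, ?_⟩
    show e (Additive.ofMul ((chi G hG i)⁻¹ * chi G hG j)) = -χ i + χ j
    have h1 : Additive.ofMul ((chi G hG i)⁻¹ * chi G hG j) =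
        -Additive.ofMul (chi G hG i) + Additive.ofMul (chi G hG j) := rfl
    have h2 : e (-Additive.ofMul (chi G hG i)) = -e (Additive.ofMul (chi G hG i)) :=
      map_neg e (Additive.ofMul (chi G hG i))
    rw [h1, map_add, h2]
  have hncard : (Set.range (fun i => (χ i : H0 ⧸ B))).ncard ≤ weights G₁ := by
    unfold weights
    set ψ := (fun (i : Fin (n + 1)) (g : G₁) =>
      (g.1 : Matrix (Fin (n + 1)) (Fin (n + 1)) K) i i) with hψ
    have h1 : Set.range (fun i => (χ i : H0 ⧸ B)) ⊆
        (fun f => if h : ∃ i, ψ i = f then (χ h.choose : H0 ⧸ B) else 0) '' Set.range ψ := by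
      rintro _ ⟨i, rfl⟩
      refine ⟨ψ i, ⟨i, rfl⟩, ?_⟩
      have hex : ∃ i', ψ i' = ψ i := ⟨i, rfl⟩
      show (if h : ∃ i', ψ i' = ψ i then (χ h.choose : H0 ⧸ B) else 0) = (χ i : H0 ⧸ B)
      rw [dif_pos hex]
      apply hkey
      intro g
      exact congrFun hex.choose_spec g
    exact (Set.ncard_le_ncard h1 (Set.toFinite _)).trans (Set.ncard_image_le (Set.toFinite _))
  have hmain := qorder_chain χ B hBidx hbl hncard ps hps hBprod hC
  have hPeq : (fun ω : Multiset (Fin (n + 1)) => ω.card = Nat.card H0 ∧ (ω.map χ).sum = 0) =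
      (fun ω : Multiset (Fin (n + 1)) => ∃ v ∈ Omega G, Finsupp.toMultiset v = ω) := by
    funext ω
    apply propext
    rw [hcardH, hsum]
    constructor
    · rintro ⟨h1, h2⟩
      obtain ⟨v, rfl⟩ := toM_surj ω
      exact ⟨v, (mem_Omega G hG v).2 ⟨h1, h2⟩, rfl⟩
    · rintro ⟨v, hv, rfl⟩
      exact (mem_Omega G hG v).1 hv
  rw [hPeq] at hmain
  exact hmain

end GQ49
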