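import Pool.Agent.Lib.MP_45c7d7_ag.Words

/-!
# The pairing step (helper23)

`A₁ ≤ A` is a subgroup of index two.  The new letters are the multisets `{x, x'}` of two letters with
`lab x + lab x' ∈ A₁`.  Words are ordered by the key of the underlying word first, then by a weight
whose unique minimum is the consecutive pairing of the letters of each class.
-/

namespace GQ23

open Multiset

set_option linter.unusedSectionVars false

section Step

variable {L Y A Γ : Type} [AddCommGroup A] [AddCommMonoid Γ] [LinearOrder Γ]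
  [IsOrderedCancelAddMonoid Γ] [WellFoundedLT Γ]

/-- pairs of letters of the same class -/
abbrev PairT (lab : Y → A) (A₁ : AddSubgroup A) : Type :=
  {z : Multiset Y // card z = 2 ∧ (z.map lab).sum ∈ A₁}

variable {lab : Y → A} {A₁ : AddSubgroup A}

/-- the underlying word -/
def un (W : Multiset (PairT lab A₁)) : Multiset Y := (W.map Subtype.val).sum

@[simp] lemma un_zero : un (0 : Multiset (PairT lab A₁)) = 0 := by simp [un]

@[simp] lemma un_cons (z : PairT lab A₁) (W : Multiset (PairT lab A₁)) :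
    un (z ::ₘ W) = z.1 + un W := by simp [un]

@[simp] lemma un_add (V W : Multiset (PairT lab A₁)) : un (V + W) = un V + un W := by simp [un]

@[simp] lemma un_singleton (z : PairT lab A₁) : un ({z} : Multiset (PairT lab A₁)) = z.1 := by
  simp [un]

lemma card_un (W : Multiset (PairT lab A₁)) : card (un W) = 2 * card W := by
  induction W using Multiset.induction_on with
  | empty => simp
  | cons z W ih => simp [ih, z.2.1]; ring

lemma mem_un {x : Y} {W : Multiset (PairT lab A₁)} : x ∈ un W ↔ ∃ z ∈ W, x ∈ z.1 := by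
  induction W using Multiset.induction_on with
  | empty => simp
  | cons z W ih =>
    rw [un_cons, Multiset.mem_add, ih]
    constructor
    · rintro (h | ⟨z', h1, h2⟩)
      · exact ⟨z, Multiset.mem_cons_self _ _, h⟩
      · exact ⟨z', Multiset.mem_cons_of_mem h1, h2⟩
    · rintro ⟨z', h1, h2⟩
      rcases Multiset.mem_cons.1 h1 with rfl | h3
      · exact Or.inl h2
      · exact Or.inr ⟨z', h3, h2⟩

lemma un_mono {V W : Multiset (PairT lab A₁)} (h : V ≤ W) : un V ≤ un W := by
  obtain ⟨u, rfl⟩ := Multiset.le_iff_exists_add.1 h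
  simp

/-- the flattening of pairs -/
def fl2 (fl : Y → Multiset L) (z : PairT lab A₁) : Multiset L := FL fl z.1

/-- the label of pairs -/
def lab2 (z : PairT lab A₁) : A₁ := ⟨(z.1.map lab).sum, z.2.2⟩

/-- the content of pairs -/
def c2 (c : Y → ℕ) (z : PairT lab A₁) : ℕ := (z.1.map c).sum

/-- the key of pairs -/
def κ2 (κ : Y → Γ) (ρ : Y → ℕ) (C : ℕ) (z : PairT lab A₁) : Γ ×ₗ ℕ :=
  toLex (KEY κ z.1, C - (z.1.map ρ).prod)

lemma FL_fl2 (fl : Y → Multiset L) (W : Multiset (PairT lab A₁)) :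
    FL (fl2 fl) W = FL fl (un W) := by
  induction W using Multiset.induction_on with
  | empty => simp
  | cons z W ih => simp [ih, fl2]

omit [IsOrderedCancelAddMonoid Γ] [WellFoundedLT Γ] [LinearOrder Γ] in
lemma KEY_κ2 (κ : Y → Γ) (ρ : Y → ℕ) (C : ℕ) (W : Multiset (PairT lab A₁)) :
    KEY (κ2 κ ρ C) W =
      toLex (KEY κ (un W), (W.map (fun z => C - (z.1.map ρ).prod)).sum) := by
  induction W using Multiset.induction_on with
  | empty => simp; rfl
  | cons z W ih =>
    rw [KEY_cons, ih, un_cons, KEY_add, Multiset.map_cons, Multiset.sum_cons]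
    rfl

lemma lab2_sum (W : Multiset (PairT lab A₁)) :
    (((W.map lab2).sum : A₁) : A) = ((un W).map lab).sum := by
  induction W using Multiset.induction_on with
  | empty => simp
  | cons z W ih =>
    rw [Multiset.map_cons, Multiset.sum_cons, un_cons, Multiset.map_add, Multiset.sum_add, ← ih]
    rfl

lemma c2_sum (c : Y → ℕ) (W : Multiset (PairT lab A₁)) :
    (W.map (c2 c)).sum = ((un W).map c).sum := by
  induction W using Multiset.induction_on with
  | empty => simp
  | cons z W ih =>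
    rw [Multiset.map_cons, Multiset.sum_cons, un_cons, Multiset.map_add, Multiset.sum_add, ← ih]
    rfl

lemma exists_pair_le {w : Multiset Y} (hidx : A₁.index = 2) (hc : 3 ≤ card w) :
    ∃ x x' : Y, ({x, x'} : Multiset Y) ≤ w ∧ lab x + lab x' ∈ A₁ := by
  obtain ⟨t, ht, h3⟩ := exists_le_card w 3 hc
  obtain ⟨x, y, z, rfl⟩ := Multiset.card_eq_three.1 h3
  have key : ∀ a b : A, a + b ∈ A₁ ↔ (a ∈ A₁ ↔ b ∈ A₁) :=
    fun a b => AddSubgroup.add_mem_iff_of_index_two hidx
  have e1 : ({x, y} : Multiset Y) ≤ {x, y, z} := by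
    have : ({x, y, z} : Multiset Y) = {x, y} + {z} := rfl
    rw [this]; exact Multiset.le_add_right _ _
  have e2 : ({y, z} : Multiset Y) ≤ {x, y, z} := Multiset.le_cons_self _ _
  have e3 : ({x, z} : Multiset Y) ≤ {x, y, z} := by
    have : ({x, y, z} : Multiset Y) = {y} + {x, z} := by
      rw [Multiset.singleton_add]; exact Multiset.cons_swap x y {z}
    rw [this]; exact Multiset.le_add_left _ _
  by_cases hx : lab x ∈ A₁ <;> by_cases hy : lab y ∈ A₁ <;> by_cases hz : lab z ∈ A₁
  · exact ⟨x, y, e1.trans ht, (key _ _).2 (by tauto)⟩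
  · exact ⟨x, y, e1.trans ht, (key _ _).2 (by tauto)⟩
  · exact ⟨x, z, e3.trans ht, (key _ _).2 (by tauto)⟩
  · exact ⟨y, z, e2.trans ht, (key _ _).2 (by tauto)⟩
  · exact ⟨y, z, e2.trans ht, (key _ _).2 (by tauto)⟩
  · exact ⟨x, z, e3.trans ht, (key _ _).2 (by tauto)⟩
  · exact ⟨x, y, e1.trans ht, (key _ _).2 (by tauto)⟩
  · exact ⟨x, y, e1.trans ht, (key _ _).2 (by tauto)⟩

lemma exists_un (hidx : A₁.index = 2) (n : ℕ) : ∀ w : Multiset Y, card w = 2 * n →
    (w.map lab).sum ∈ A₁ → ∃ W : Multiset (PairT lab A₁), un W = w := by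
  induction n with
  | zero =>
    intro w hw _
    refine ⟨0, ?_⟩
    have : w = 0 := by simpa using hw
    simp [this]
  | succ n ih =>
    intro w hw hs
    have hex : ∃ x x' : Y, ({x, x'} : Multiset Y) ≤ w ∧ lab x + lab x' ∈ A₁ := by
      by_cases h2 : card w = 2
      · obtain ⟨x, y, rfl⟩ := Multiset.card_eq_two.1 h2
        exact ⟨x, y, le_rfl, by simpa using hs⟩
      · exact exists_pair_le hidx (by omega)
    obtain ⟨x, x', hle, hmem⟩ := hex
    obtain ⟨u, rfl⟩ := Multiset.le_iff_exists_add.1 hle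
    have hu : card u = 2 * n := by
      rw [Multiset.card_add] at hw
      have : card ({x, x'} : Multiset Y) = 2 := rfl
      omega
    have hus : (u.map lab).sum ∈ A₁ := by
      rw [Multiset.map_add, Multiset.sum_add] at hs
      have : (({x, x'} : Multiset Y).map lab).sum = lab x + lab x' := by simp
      rw [this] at hs
      exact (A₁.add_mem_cancel_left hmem).1 hs
    obtain ⟨W, hW⟩ := ih u hu hus
    refine ⟨⟨{x, x'}, rfl, by simpa using hmem⟩ ::ₘ W, ?_⟩
    rw [un_cons, hW]

lemma exists_cover (W : Multiset (PairT lab A₁)) : ∀ b ≤ un W,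
    ∃ V ≤ W, card V ≤ card b ∧ b ≤ un V := by
  classical
  induction W using Multiset.induction_on with
  | empty =>
    intro b hb
    exact ⟨0, le_rfl, by simp, by simpa using hb⟩
  | cons z W ih =>
    intro b hb
    rw [un_cons] at hb
    have h1 : b - z.1 ≤ un W := by rwa [tsub_le_iff_left]
    obtain ⟨V, hV, hc, hle⟩ := ih _ h1
    by_cases hz : b - z.1 = b
    · rw [hz] at hc hle
      exact ⟨V, hV.trans (Multiset.le_cons_self _ _), hc, hle⟩
    · refine ⟨z ::ₘ V, Multiset.cons_le_cons _ hV, ?_, ?_⟩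
      · have h2 : b - z.1 < b := lt_of_le_of_ne tsub_le_self hz
        have h3 := Multiset.card_lt_card h2
        rw [Multiset.card_cons]
        omega
      · rw [un_cons]
        rw [← tsub_le_iff_left]
        exact hle

lemma filter_un_le (c : Y → ℕ) (W : Multiset (PairT lab A₁)) :
    (un W).filter (fun y => 0 < c y) ≤ un (W.filter (fun z => 0 < c2 c z)) := by
  induction W using Multiset.induction_on with
  | empty => simp
  | cons z W ih =>
    rw [un_cons, Multiset.filter_add]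
    by_cases hz : 0 < c2 c z
    · rw [Multiset.filter_cons_of_pos (p := fun z => 0 < c2 c z) _ hz, un_cons]
      exact add_le_add (Multiset.filter_le _ _) ih
    · rw [Multiset.filter_cons_of_neg (p := fun z => 0 < c2 c z) _ hz]
      have h0 : z.1.filter (fun y => 0 < c y) = 0 := by
        rw [Multiset.filter_eq_nil]
        intro y hy hcy
        apply hz
        exact lt_of_lt_of_le hcy (Multiset.single_le_sum (by simp) _ (Multiset.mem_map_of_mem c hy))
      rw [h0, zero_add]
      exact ih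

lemma exists_rank [Finite Y] (c : Y → ℕ) : ∃ ρ : Y → ℕ, Function.Injective ρ ∧
    ∀ y y', ρ y ≤ ρ y' → c y' ≤ c y := by
  obtain ⟨n, ⟨e⟩⟩ := Finite.exists_equiv_fin Y
  obtain ⟨M, hM⟩ : ∃ M, ∀ y, c y ≤ M := by
    obtain ⟨M, hM⟩ := (Set.finite_range c).bddAbove
    exact ⟨M, fun y => hM ⟨y, rfl⟩⟩
  have key : ∀ y y', (M - c y) * (n + 1) + (e y : ℕ) ≤ (M - c y') * (n + 1) + (e y' : ℕ) →
      c y' ≤ c y := by
    intro y y' h
    by_contra hlt
    push Not at hlt
    have h1 := hM y'
    have h2 := (e y').2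
    have h3 : M - c y' + 1 ≤ M - c y := by omega
    have h4 : (M - c y' + 1) * (n + 1) ≤ (M - c y) * (n + 1) := Nat.mul_le_mul_right _ h3
    have h5 : (M - c y' + 1) * (n + 1) = (M - c y') * (n + 1) + (n + 1) := by ring
    omega
  refine ⟨fun y => (M - c y) * (n + 1) + (e y : ℕ), ?_, key⟩
  intro y y' h
  have h1 := key y y' (le_of_eq h)
  have h2 := key y' y (le_of_eq h.symm)
  have h3 : c y = c y' := le_antisymm h2 h1
  simp only [h3] at h
  exact e.injective (Fin.ext (by omega))

/-- the prerequisites of the pairing step -/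
structure Rk (κ : Y → Γ) (lab : Y → A) (A₁ : AddSubgroup A) (ρ : Y → ℕ) (C : ℕ) : Prop where
  inj : Function.Injective ρ
  le : ∀ z : PairT lab A₁, (z.1.map ρ).prod ≤ C

variable {fl : Y → Multiset L} {κ : Y → Γ} {ρ : Y → ℕ} {C : ℕ}

omit [WellFoundedLT Γ] in
lemma Std_un (hidx : A₁.index = 2)
    (hsc : ∀ w w', FL fl w = FL fl w' → card w = card w')
    (hsl : ∀ w w', FL fl w = FL fl w' → (w.map lab).sum = (w'.map lab).sum)
    {W : Multiset (PairT lab A₁)} (hW : Std (fl2 fl) (κ2 κ ρ C) W) : Std fl κ (un W) := by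
  intro w' hw'
  have h1 : card w' = 2 * card W := by rw [hsc _ _ hw', card_un]
  have h2 : (w'.map lab).sum ∈ A₁ := by
    rw [hsl _ _ hw', ← lab2_sum]
    exact (W.map lab2).sum.2
  obtain ⟨W', rfl⟩ := exists_un hidx (card W) w' h1 h2
  have h3 := hW W' (by rw [FL_fl2, FL_fl2, hw'])
  rw [KEY_κ2, KEY_κ2, Prod.Lex.toLex_le_toLex] at h3
  rcases h3 with h3 | h3
  · exact h3.le
  · exact h3.1.le

omit [WellFoundedLT Γ] in
lemma consec (hρ : Rk κ lab A₁ ρ C) {z1 z2 : PairT lab A₁} {x x' y y' : Y} (h1 : z1.1 = {x, x'})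
    (h2 : z2.1 = {y, y'}) (hcl : lab x + lab y ∈ A₁)
    (hstd : Std (fl2 fl) (κ2 κ ρ C) {z1, z2}) : 
    ρ x' ≤ ρ y ∨ ρ y' ≤ ρ x := by
  by_contra hcon
  push Not at hcon
  obtain ⟨hc1, hc2⟩ := hcon
  have m1 : lab x + lab x' ∈ A₁ := by
    have := z1.2.2; rw [h1] at this; simpa using this
  have m2 : lab y + lab y' ∈ A₁ := by
    have := z2.2.2; rw [h2] at this; simpa using this
  have m3 : lab x' + lab y' ∈ A₁ := by
    have h := A₁.sub_mem (A₁.add_mem m1 m2) hcl
    have e : lab x + lab x' + (lab y + lab y') - (lab x + lab y) = lab x' + lab y' := by abel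
    rwa [e] at h
  set z3 : PairT lab A₁ := ⟨{x, y}, rfl, by simpa using hcl⟩ with hz3
  set z4 : PairT lab A₁ := ⟨{x', y'}, rfl, by simpa using m3⟩ with hz4
  have hun : un ({z3, z4} : Multiset (PairT lab A₁)) = un {z1, z2} := by
    have e1 : un ({z3, z4} : Multiset (PairT lab A₁)) = {x, y} + {x', y'} := by
      rw [Multiset.insert_eq_cons, un_cons, un_singleton]
    have e2 : un ({z1, z2} : Multiset (PairT lab A₁)) = {x, x'} + {y, y'} := by
      rw [Multiset.insert_eq_cons, un_cons, un_singleton, h1, h2]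
    rw [e1, e2]
    simp only [Multiset.insert_eq_cons, ← Multiset.singleton_add]
    abel
  have h3 := hstd {z3, z4} (by rw [FL_fl2, FL_fl2, hun])
  rw [KEY_κ2, KEY_κ2, hun, Prod.Lex.toLex_le_toLex] at h3
  rcases h3 with h3 | ⟨-, h3⟩
  · exact lt_irrefl _ h3
  · have b1 := hρ.le z1
    have b2 := hρ.le z2
    have b3 := hρ.le z3
    have b4 := hρ.le z4
    simp only [Multiset.insert_eq_cons, Multiset.map_cons, Multiset.map_singleton,
      Multiset.sum_cons, Multiset.sum_singleton] at h3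
    have p1 : (z1.1.map ρ).prod = ρ x * ρ x' := by rw [h1]; simp
    have p2 : (z2.1.map ρ).prod = ρ y * ρ y' := by rw [h2]; simp
    have p3 : (z3.1.map ρ).prod = ρ x * ρ y := by simp [hz3]
    have p4 : (z4.1.map ρ).prod = ρ x' * ρ y' := by simp [hz4]
    rw [p1] at b1 h3
    rw [p2] at b2 h3
    rw [p3] at b3 h3
    rw [p4] at b4 h3
    have h4 : ρ x * ρ y + ρ x' * ρ y' ≤ ρ x * ρ x' + ρ y * ρ y' := by omega
    zify at h4 hc1 hc2
    nlinarith [mul_pos (sub_pos.2 hc1) (sub_pos.2 hc2)]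

/-- for a nonempty pairwise standard word: a pair containing the smallest letter, with the smallest
possible partner -/
lemma exists_first (hρ : Rk κ lab A₁ ρ C) (hidx : A₁.index = 2)
    {W : Multiset (PairT lab A₁)} (hW : PW (fl2 fl) (κ2 κ ρ C) W) {x : Y} (hx : x ∈ un W)
    (hmin : ∀ u ∈ un W, ρ x ≤ ρ u) :
    ∃ (z : PairT lab A₁) (V : Multiset (PairT lab A₁)) (p : Y), W = z ::ₘ V ∧ z.1 = {x, p} ∧
      ∀ u ∈ un V, lab x + lab u ∈ A₁ → ρ p ≤ ρ u := by
  classical
  -- candidates for the partner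
  have hcand : ∃ p, ∃ z ∈ W, z.1 = {x, p} := by
    obtain ⟨z, hz, hxz⟩ := mem_un.1 hx
    obtain ⟨a, b, hab⟩ := Multiset.card_eq_two.1 z.2.1
    rw [hab] at hxz
    simp only [Multiset.insert_eq_cons, Multiset.mem_cons, Multiset.mem_singleton] at hxz
    rcases hxz with rfl | rfl
    · exact ⟨b, z, hz, hab⟩
    · exact ⟨a, z, hz, by rw [hab]; exact Multiset.pair_comm _ _⟩
  obtain ⟨p, ⟨z, hz, hzp⟩, hpmin⟩ : ∃ p, (∃ z ∈ W, z.1 = {x, p}) ∧
      ∀ q, (∃ z ∈ W, z.1 = {x, q}) → ρ p ≤ ρ q := by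
    obtain ⟨p, hp, hpm⟩ := (measure ρ).wf.has_min {p | ∃ z ∈ W, z.1 = {x, p}} hcand
    exact ⟨p, hp, fun q hq => not_lt.1 (hpm q hq)⟩
  obtain ⟨V, rfl⟩ := Multiset.exists_cons_of_mem hz
  refine ⟨z, V, p, rfl, hzp, ?_⟩
  intro u hu hcl
  obtain ⟨z2, hz2, huz⟩ := mem_un.1 hu
  have hxp : ρ x ≤ ρ p := hmin p (by rw [un_cons, hzp]; simp)
  have key : ∀ a b : A, a + b ∈ A₁ ↔ (a ∈ A₁ ↔ b ∈ A₁) :=
    fun a b => AddSubgroup.add_mem_iff_of_index_two hidx
  -- write `z2 = {y, y'}` with `ρ y ≤ ρ y'`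
  obtain ⟨y, y', hyy, hle⟩ : ∃ y y', z2.1 = {y, y'} ∧ ρ y ≤ ρ y' := by
    obtain ⟨a, b, hab⟩ := Multiset.card_eq_two.1 z2.2.1
    rcases le_total (ρ a) (ρ b) with h | h
    · exact ⟨a, b, hab, h⟩
    · exact ⟨b, a, by rw [hab]; exact Multiset.pair_comm _ _, h⟩
  have hyu : y = u ∨ y' = u := by
    rw [hyy] at huz
    simp only [Multiset.insert_eq_cons, Multiset.mem_cons, Multiset.mem_singleton] at huz
    tauto
  have m2 : lab y + lab y' ∈ A₁ := by
    have := z2.2.2; rw [hyy] at this; simpa using this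
  have hcl' : lab x + lab y ∈ A₁ := by
    rcases hyu with rfl | rfl
    · exact hcl
    · rw [key] at hcl m2 ⊢; tauto
  have hst : Std (fl2 fl) (κ2 κ ρ C) ({z, z2} : Multiset (PairT lab A₁)) := by
    apply hW
    · rw [Multiset.insert_eq_cons]
      exact Multiset.cons_le_cons _ (Multiset.singleton_le.2 hz2)
    · rfl
  have hyu2 : ρ y ≤ ρ u := by
    rcases hyu with rfl | rfl
    · exact le_rfl
    · exact hle
  rcases consec hρ hzp hyy hcl' hst with h | h
  · exact h.trans hyu2
  · have hxy : ρ x ≤ ρ y := by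
      apply hmin
      exact mem_un.2 ⟨z2, Multiset.mem_cons_of_mem hz2, by rw [hyy]; simp⟩
    have e1 : y = x := hρ.inj (by omega)
    have e2 : y' = x := hρ.inj (by omega)
    have h5 := hpmin x ⟨z2, Multiset.mem_cons_of_mem hz2, by rw [hyy, e1, e2]⟩
    rw [e1] at hyu2
    omega

/-- uniqueness of the consecutive pairing -/
lemma un_inj (hρ : Rk κ lab A₁ ρ C) (hidx : A₁.index = 2) (n : ℕ) :
    ∀ {W W' : Multiset (PairT lab A₁)}, card W = n →
    PW (fl2 fl) (κ2 κ ρ C) W → PW (fl2 fl) (κ2 κ ρ C) W' → un W = un W' → W = W' := by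
  induction n with
  | zero =>
    intro W W' hc _ _ hu
    have h0 : W = 0 := by simpa using hc
    subst h0
    have h1 := card_un W'
    rw [← hu] at h1
    have h2 : card W' = 0 := by
      simp only [un_zero, Multiset.card_zero] at h1
      omega
    exact (Multiset.card_eq_zero.1 h2).symm
  | succ n ih =>
    intro W W' hc hW hW' hu
    obtain ⟨x, hx, hmin⟩ : ∃ x ∈ un W, ∀ u ∈ un W, ρ x ≤ ρ u := by
      have hne : ∃ x, x ∈ un W := by
        apply Multiset.card_pos_iff_exists_mem.1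
        rw [card_un]; omega
      obtain ⟨x, hx, hxm⟩ := (measure ρ).wf.has_min {x | x ∈ un W} hne
      exact ⟨x, hx, fun u hu => not_lt.1 (hxm u hu)⟩
    obtain ⟨z, V, p, rfl, hzp, hp⟩ := exists_first hρ hidx hW hx hmin
    obtain ⟨z', V', p', rfl, hzp', hp'⟩ := exists_first hρ hidx hW' (hu ▸ hx) (hu ▸ hmin)
    have hu2 : p ::ₘ un V = p' ::ₘ un V' := by
      rw [un_cons, un_cons, hzp, hzp'] at hu
      simp only [Multiset.insert_eq_cons, Multiset.cons_add, Multiset.singleton_add] at hu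
      exact (Multiset.cons_inj_right x).1 hu
    have m1 : lab x + lab p ∈ A₁ := by
      have := z.2.2; rw [hzp] at this; simpa using this
    have m2 : lab x + lab p' ∈ A₁ := by
      have := z'.2.2; rw [hzp'] at this; simpa using this
    have hpp : p = p' := by
      apply hρ.inj
      apply le_antisymm
      · have h1 : p' ∈ p ::ₘ un V := by rw [hu2]; exact Multiset.mem_cons_self _ _
        rcases Multiset.mem_cons.1 h1 with h | h
        · rw [h]
        · exact hp _ h m2
      · have h1 : p ∈ p' ::ₘ un V' := by rw [← hu2]; exact Multiset.mem_cons_self _ _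
        rcases Multiset.mem_cons.1 h1 with h | h
        · rw [h]
        · exact hp' _ h m1
    subst hpp
    have hzz : z = z' := Subtype.ext (by rw [hzp, hzp'])
    subst hzz
    rw [Multiset.cons_inj_right] at hu2
    rw [ih (by simpa using hc) (hW.mono (Multiset.le_cons_self _ _))
      (hW'.mono (Multiset.le_cons_self _ _)) hu2]

omit [WellFoundedLT Γ] in
lemma PW_un (hidx : A₁.index = 2)
    (hsc : ∀ w w', FL fl w = FL fl w' → card w = card w')
    (hsl : ∀ w w', FL fl w = FL fl w' → (w.map lab).sum = (w'.map lab).sum)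
    {W : Multiset (PairT lab A₁)} (hW : PW (fl2 fl) (κ2 κ ρ C) W) : PW fl κ (un W) := by
  intro b hb hc
  obtain ⟨V, hV, hcV, hbV⟩ := exists_cover W b hb
  exact (Std_un hidx hsc hsl (hW V hV (hcV.trans hc))).mono hbV

end Step

end GQ23
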