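import Pool.Agent.Lib.MP_45c7d7_ag.Step

/-!
# The tower of index two subgroups (helper23)

The concentration of contents under consecutive pairing and the induction over a tower of index two
subgroups.
-/

namespace GQ23

open Multiset

set_option linter.unusedSectionVars false

section Srt

lemma sort2 {α : Type} (f : α → ℕ) {W : Multiset α} (h : card W = 2) :
    ∃ a b, W = {a, b} ∧ f a ≤ f b := by
  obtain ⟨a, b, rfl⟩ := Multiset.card_eq_two.1 h
  rcases le_total (f a) (f b) with h | h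
  · exact ⟨a, b, rfl, h⟩
  · exact ⟨b, a, Multiset.pair_comm _ _, h⟩

lemma sort3 {α : Type} (f : α → ℕ) {W : Multiset α} (h : card W = 3) :
    ∃ a b c, W = {a, b, c} ∧ f a ≤ f b ∧ f b ≤ f c := by
  obtain ⟨a, b, c, rfl⟩ := Multiset.card_eq_three.1 h
  have e1 : ({a, b, c} : Multiset α) = {b, a, c} := Multiset.cons_swap a b {c}
  have e2 : ({a, b, c} : Multiset α) = {a, c, b} := by
    show a ::ₘ {b, c} = a ::ₘ {c, b}
    rw [Multiset.pair_comm b c]
  have e3 : ({a, b, c} : Multiset α) = {b, c, a} := by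
    rw [e1]; show b ::ₘ {a, c} = b ::ₘ {c, a}; rw [Multiset.pair_comm a c]
  have e4 : ({a, b, c} : Multiset α) = {c, a, b} := by
    rw [e2]; exact Multiset.cons_swap a c {b}
  have e5 : ({a, b, c} : Multiset α) = {c, b, a} := by
    rw [e4]; show c ::ₘ {a, b} = c ::ₘ {b, a}; rw [Multiset.pair_comm a b]
  rcases le_total (f a) (f b) with h1 | h1 <;> rcases le_total (f b) (f c) with h2 | h2 <;>
    rcases le_total (f a) (f c) with h3 | h3
  · exact ⟨a, b, c, rfl, h1, h2⟩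
  · exact ⟨a, b, c, rfl, h1, h2⟩
  · exact ⟨a, c, b, e2, h3, h2⟩
  · exact ⟨c, a, b, e4, h3, h1⟩
  · exact ⟨b, a, c, e1, h1, h3⟩
  · exact ⟨b, c, a, e3, h2, h3⟩
  · exact ⟨c, b, a, e5, h2, h1⟩
  · exact ⟨c, b, a, e5, h2, h1⟩

end Srt

section Conc

variable {L Y A Γ : Type} [AddCommGroup A] [AddCommMonoid Γ] [LinearOrder Γ]
  [IsOrderedCancelAddMonoid Γ] [WellFoundedLT Γ]

variable {lab : Y → A} {A₁ : AddSubgroup A}
variable {fl : Y → Multiset L} {κ : Y → Γ} {ρ : Y → ℕ} {C : ℕ} {c : Y → ℕ} {K R : ℕ}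

lemma exists_mnmx (ρ : Y → ℕ) (z : PairT lab A₁) :
    ∃ p : Y × Y, z.1 = {p.1, p.2} ∧ ρ p.1 ≤ ρ p.2 := by
  obtain ⟨a, b, h1, h2⟩ := sort2 ρ z.2.1
  exact ⟨(a, b), h1, h2⟩

/-- the smaller letter of a pair -/
noncomputable def mn (ρ : Y → ℕ) (z : PairT lab A₁) : Y := (exists_mnmx ρ z).choose.1

/-- the larger letter of a pair -/
noncomputable def mx (ρ : Y → ℕ) (z : PairT lab A₁) : Y := (exists_mnmx ρ z).choose.2

lemma mnmx (ρ : Y → ℕ) (z : PairT lab A₁) : z.1 = {mn ρ z, mx ρ z} :=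
  (exists_mnmx ρ z).choose_spec.1

lemma mn_le_mx (ρ : Y → ℕ) (z : PairT lab A₁) : ρ (mn ρ z) ≤ ρ (mx ρ z) :=
  (exists_mnmx ρ z).choose_spec.2

lemma c2_eq (ρ : Y → ℕ) (z : PairT lab A₁) : c2 c z = c (mn ρ z) + c (mx ρ z) := by
  rw [c2, mnmx ρ z]; simp

/-- in the same class, ordered by the sum of the ranks -/
def Bef (ρ : Y → ℕ) (a b : PairT lab A₁) : Prop :=
  (lab (mn ρ a) ∈ A₁ ↔ lab (mn ρ b) ∈ A₁) ∧ ρ (mn ρ a) + ρ (mx ρ a) ≤ ρ (mn ρ b) + ρ (mx ρ b)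

lemma Bef.le (hρ : Rk κ lab A₁ ρ C) (hidx : A₁.index = 2) {a b : PairT lab A₁}
    (hab : Bef ρ a b) (hstd : Std (fl2 fl) (κ2 κ ρ C) {a, b}) :
    ρ (mx ρ a) ≤ ρ (mn ρ b) := by
  have h1 := mn_le_mx ρ a
  have h2 := mn_le_mx ρ b
  have h3 := hab.2
  rcases consec hρ (mnmx ρ a) (mnmx ρ b)
    ((AddSubgroup.add_mem_iff_of_index_two hidx).2 hab.1) hstd with h | h <;> omega

lemma pair_le_of_mem {α : Type} {V : Multiset α} {a b : α} {u : Multiset α}
    (h : {a, b} + u = V) : ({a, b} : Multiset α) ≤ V := by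
  rw [← h]; exact Multiset.le_add_right _ _

/-- chain of contents of two consecutive pairs of the same class -/
lemma Bef.chain (hρ : Rk κ lab A₁ ρ C) (hρc : ∀ y y', ρ y ≤ ρ y' → c y' ≤ c y)
    (hidx : A₁.index = 2) {a b : PairT lab A₁}
    (hab : Bef ρ a b) {W : Multiset (PairT lab A₁)} (hW : PW (fl2 fl) (κ2 κ ρ C) W)
    (hle : ({a, b} : Multiset (PairT lab A₁)) ≤ W) :
    c (mx ρ a) ≤ c (mn ρ a) ∧ c (mn ρ b) ≤ c (mx ρ a) ∧ c (mx ρ b) ≤ c (mn ρ b) :=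
  ⟨hρc _ _ (mn_le_mx ρ a), hρc _ _ (hab.le hρ hidx (hW _ hle le_rfl)), hρc _ _ (mn_le_mx ρ b)⟩

lemma s3' (h3 : ∀ w, PW fl κ w → card w = 3 → (∀ y ∈ w, 0 < c y) →
      ∃ v ≤ w, card v = 2 ∧ K + 1 ≤ (v.map c).sum) {x y z : Y} (hp : PW fl κ {x, y, z})
    (hx : 0 < c x) (hy : 0 < c y) (hz : 0 < c z) :
    K + 1 ≤ c x + c y ∨ K + 1 ≤ c x + c z ∨ K + 1 ≤ c y + c z := by
  obtain ⟨v, hv, hcv, hs⟩ := h3 _ hp rfl (by
    intro t ht
    simp only [Multiset.insert_eq_cons, Multiset.mem_cons, Multiset.mem_singleton] at ht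
    rcases ht with rfl | rfl | rfl <;> assumption)
  obtain ⟨u, hu⟩ := Multiset.le_iff_exists_add.1 hv
  have hcu : card u = 1 := by
    have := congrArg card hu
    rw [Multiset.card_add, hcv] at this
    have e : card ({x, y, z} : Multiset Y) = 3 := rfl
    omega
  obtain ⟨t, rfl⟩ := Multiset.card_eq_one.1 hcu
  have ht : c x + c y + c z = (v.map c).sum + c t := by
    have := congrArg (fun w => (w.map c).sum) hu
    simpa [add_assoc] using this
  have htm : t ∈ ({x, y, z} : Multiset Y) := by rw [hu]; simp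
  simp only [Multiset.insert_eq_cons, Multiset.mem_cons, Multiset.mem_singleton] at htm
  rcases htm with rfl | rfl | rfl
  · right; right; omega
  · right; left; omega
  · left; omega

lemma s4' (h4 : ∀ w, PW fl κ w → card w = 4 → (∀ y ∈ w, 0 < c y) → ∃ y ∈ w, K ≤ c y)
    {x y z t : Y} (hp : PW fl κ {x, y, z, t})
    (hx : 0 < c x) (hy : 0 < c y) (hz : 0 < c z) (ht : 0 < c t) :
    K ≤ c x ∨ K ≤ c y ∨ K ≤ c z ∨ K ≤ c t := by
  obtain ⟨v, hv, hs⟩ := h4 _ hp rfl (by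
    intro t ht
    simp only [Multiset.insert_eq_cons, Multiset.mem_cons, Multiset.mem_singleton] at ht
    rcases ht with rfl | rfl | rfl | rfl <;> assumption)
  simp only [Multiset.insert_eq_cons, Multiset.mem_cons, Multiset.mem_singleton] at hv
  rcases hv with rfl | rfl | rfl | rfl
  · exact Or.inl hs
  · exact Or.inr (Or.inl hs)
  · exact Or.inr (Or.inr (Or.inl hs))
  · exact Or.inr (Or.inr (Or.inr hs))

/-- three pairs of the same class -/
lemma conc3 (hρ : Rk κ lab A₁ ρ C) (hρc : ∀ y y', ρ y ≤ ρ y' → c y' ≤ c y)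
    (hidx : A₁.index = 2)
    (h4 : ∀ w, PW fl κ w → card w = 4 → (∀ y ∈ w, 0 < c y) → ∃ y ∈ w, K ≤ c y)
    {W : Multiset (PairT lab A₁)} (hW : PW (fl2 fl) (κ2 κ ρ C) W) (hU : PW fl κ (un W))
    {a b d : PairT lab A₁} (hle : ({a, b, d} : Multiset (PairT lab A₁)) ≤ W)
    (hab : Bef ρ a b) (hbd : Bef ρ b d) (hd : 0 < c2 c d) : 2 * K ≤ c2 c a := by
  have l1 : ({a, b} : Multiset (PairT lab A₁)) ≤ W := by
    refine le_trans (pair_le_of_mem (u := {d}) ?_) hle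
    rfl
  have l2 : ({b, d} : Multiset (PairT lab A₁)) ≤ W := by
    refine le_trans ?_ hle
    exact Multiset.le_cons_self _ _
  obtain ⟨q1, q2, q3⟩ := hab.chain hρ hρc hidx hW l1
  obtain ⟨q4, q5, q6⟩ := hbd.chain hρ hρc hidx hW l2
  rw [c2_eq ρ] at hd
  have hun : un ({a, b, d} : Multiset (PairT lab A₁)) =
      {mn ρ a, mx ρ a} + ({mn ρ b, mx ρ b} + {mn ρ d, mx ρ d}) := by
    rw [Multiset.insert_eq_cons, Multiset.insert_eq_cons, un_cons, un_cons, un_singleton,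
      mnmx ρ a, mnmx ρ b, mnmx ρ d]
  have hunW : un ({a, b, d} : Multiset (PairT lab A₁)) ≤ un W := un_mono hle
  have k1 : PW fl κ {mn ρ a, mx ρ a, mn ρ b, mx ρ b} := by
    apply hU.mono
    refine le_trans ?_ hunW
    rw [hun, Multiset.le_iff_exists_add]
    refine ⟨{mn ρ d, mx ρ d}, ?_⟩
    simp only [Multiset.insert_eq_cons, ← Multiset.singleton_add]
    abel
  have k2 : PW fl κ {mx ρ a, mn ρ b, mx ρ b, mn ρ d} := by
    apply hU.mono
    refine le_trans ?_ hunW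
    rw [hun, Multiset.le_iff_exists_add]
    refine ⟨{mn ρ a, mx ρ d}, ?_⟩
    simp only [Multiset.insert_eq_cons, ← Multiset.singleton_add]
    abel
  have r1 := s4' h4 k1 (by omega) (by omega) (by omega) (by omega)
  have r2 := s4' h4 k2 (by omega) (by omega) (by omega) (by omega)
  rw [c2_eq ρ]
  omega

/-- two pairs of one class: the two middle letters -/
lemma conc2 (hρ : Rk κ lab A₁ ρ C) (hρc : ∀ y y', ρ y ≤ ρ y' → c y' ≤ c y)
    (hidx : A₁.index = 2)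
    {W : Multiset (PairT lab A₁)} (hW : PW (fl2 fl) (κ2 κ ρ C) W)
    {a b : PairT lab A₁} (hle : ({a, b} : Multiset (PairT lab A₁)) ≤ W)
    (hab : Bef ρ a b) (hb : 0 < c2 c b) (ha : c2 c a < 2 * K) :
    0 < c (mx ρ a) ∧ c (mx ρ a) < K ∧ 0 < c (mn ρ b) ∧ c (mn ρ b) < K := by
  obtain ⟨q1, q2, q3⟩ := hab.chain hρ hρc hidx hW hle
  rw [c2_eq ρ] at ha hb
  omega

lemma s4_step (hρ : Rk κ lab A₁ ρ C) (hρc : ∀ y y', ρ y ≤ ρ y' → c y' ≤ c y)
    (hidx : A₁.index = 2)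
    (h4 : ∀ w, PW fl κ w → card w = 4 → (∀ y ∈ w, 0 < c y) → ∃ y ∈ w, K ≤ c y)
    {W : Multiset (PairT lab A₁)} (hW : PW (fl2 fl) (κ2 κ ρ C) W) (hU : PW fl κ (un W))
    (hcard : card W = 4) (hpos : ∀ z ∈ W, 0 < c2 c z) : ∃ z ∈ W, 2 * K ≤ c2 c z := by
  classical
  by_contra hcon
  push Not at hcon
  set T := W.filter (fun z => lab (mn ρ z) ∈ A₁) with hT
  set F := W.filter (fun z => ¬ lab (mn ρ z) ∈ A₁) with hF
  have hTF : T + F = W := Multiset.filter_add_not _ _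
  have hcTF : card T + card F = 4 := by rw [← Multiset.card_add, hTF, hcard]
  have hTW : T ≤ W := Multiset.filter_le _ _
  have hFW : F ≤ W := Multiset.filter_le _ _
  have hTm : ∀ z ∈ T, lab (mn ρ z) ∈ A₁ := fun z hz => (Multiset.mem_filter.1 hz).2
  have hFm : ∀ z ∈ F, ¬ lab (mn ρ z) ∈ A₁ := fun z hz => (Multiset.mem_filter.1 hz).2
  -- three of the same class
  have three : ∀ V ≤ W, 3 ≤ card V → (∀ z ∈ V, ∀ z' ∈ V, (lab (mn ρ z) ∈ A₁ ↔ lab (mn ρ z') ∈ A₁)) →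
      False := by
    intro V hV h3 hcl
    obtain ⟨t, ht, hct⟩ := exists_le_card V 3 h3
    obtain ⟨x, y, z, rfl, hxy, hyz⟩ := sort3 (fun z => ρ (mn ρ z) + ρ (mx ρ z)) hct
    have mx' : x ∈ V := Multiset.mem_of_le ht (by simp)
    have my : y ∈ V := Multiset.mem_of_le ht (by simp)
    have mz : z ∈ V := Multiset.mem_of_le ht (by simp)
    have h := conc3 hρ hρc hidx h4 hW hU (ht.trans hV) ⟨hcl x mx' y my, hxy⟩
      ⟨hcl y my z mz, hyz⟩ (hpos z (Multiset.mem_of_le hV mz))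
    exact absurd h (not_le.2 (hcon x (Multiset.mem_of_le hV mx')))
  by_cases hT3 : 3 ≤ card T
  · exact three T hTW hT3 (fun z hz z' hz' => iff_of_true (hTm z hz) (hTm z' hz'))
  by_cases hF3 : 3 ≤ card F
  · exact three F hFW hF3 (fun z hz z' hz' => iff_of_false (hFm z hz) (hFm z' hz'))
  have hT2 : card T = 2 := by omega
  have hF2 : card F = 2 := by omega
  obtain ⟨a, b, hTab, hab⟩ := sort2 (fun z => ρ (mn ρ z) + ρ (mx ρ z)) hT2
  obtain ⟨d, e, hFde, hde⟩ := sort2 (fun z => ρ (mn ρ z) + ρ (mx ρ z)) hF2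
  have ma : a ∈ T := by rw [hTab]; simp
  have mb : b ∈ T := by rw [hTab]; simp
  have md : d ∈ F := by rw [hFde]; simp
  have me : e ∈ F := by rw [hFde]; simp
  obtain ⟨q1, q2, q3, q4⟩ := conc2 (K := K) hρ hρc hidx hW (hTab ▸ hTW)
    ⟨iff_of_true (hTm a ma) (hTm b mb), hab⟩ (hpos b (Multiset.mem_of_le hTW mb))
    (hcon a (Multiset.mem_of_le hTW ma))
  obtain ⟨r1, r2, r3, r4⟩ := conc2 (K := K) hρ hρc hidx hW (hFde ▸ hFW)
    ⟨iff_of_false (hFm d md) (hFm e me), hde⟩ (hpos e (Multiset.mem_of_le hFW me))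
    (hcon d (Multiset.mem_of_le hFW md))
  have hun : un W = {mn ρ a, mx ρ a} + {mn ρ b, mx ρ b} + ({mn ρ d, mx ρ d} + {mn ρ e, mx ρ e}) := by
    rw [← hTF, hTab, hFde, un_add]
    rw [Multiset.insert_eq_cons, Multiset.insert_eq_cons, un_cons, un_cons, un_singleton,
      un_singleton, mnmx ρ a, mnmx ρ b, mnmx ρ d, mnmx ρ e]
  have k1 : PW fl κ {mx ρ a, mn ρ b, mx ρ d, mn ρ e} := by
    apply hU.mono
    rw [hun, Multiset.le_iff_exists_add]
    refine ⟨{mn ρ a, mx ρ b, mn ρ d, mx ρ e}, ?_⟩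
    simp only [Multiset.insert_eq_cons, ← Multiset.singleton_add]
    abel
  have := s4' h4 k1 q1 q3 r1 r3
  omega

lemma s3_two (hρ : Rk κ lab A₁ ρ C) (hρc : ∀ y y', ρ y ≤ ρ y' → c y' ≤ c y)
    (hidx : A₁.index = 2) (_hK : ∀ y, c y ≤ K)
    (h4 : ∀ w, PW fl κ w → card w = 4 → (∀ y ∈ w, 0 < c y) → ∃ y ∈ w, K ≤ c y)
    (h3 : ∀ w, PW fl κ w → card w = 3 → (∀ y ∈ w, 0 < c y) →
      ∃ v ≤ w, card v = 2 ∧ K + 1 ≤ (v.map c).sum)
    {W : Multiset (PairT lab A₁)} (hW : PW (fl2 fl) (κ2 κ ρ C) W) (hU : PW fl κ (un W))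
    {a b d : PairT lab A₁} (hWe : W = {a, b} + {d}) (hab : Bef ρ a b)
    (hb : 0 < c2 c b) (hd : 0 < c2 c d) :
    ∃ V ≤ W, card V = 2 ∧ 2 * K + 1 ≤ (V.map (c2 c)).sum := by
  have lab' : ({a, b} : Multiset (PairT lab A₁)) ≤ W := by
    rw [hWe]; exact Multiset.le_add_right _ _
  have lad : ({a, d} : Multiset (PairT lab A₁)) ≤ W := by
    rw [hWe, Multiset.le_iff_exists_add]
    refine ⟨{b}, ?_⟩
    simp only [Multiset.insert_eq_cons, ← Multiset.singleton_add]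
    abel
  obtain ⟨q1, q2, q3⟩ := hab.chain hρ hρc hidx hW lab'
  have q4 : c (mx ρ d) ≤ c (mn ρ d) := hρc _ _ (mn_le_mx ρ d)
  have ea := c2_eq (c := c) ρ a
  have eb := c2_eq (c := c) ρ b
  have ed := c2_eq (c := c) ρ d
  have hun : un W = {mn ρ a, mx ρ a} + {mn ρ b, mx ρ b} + {mn ρ d, mx ρ d} := by
    rw [hWe, un_add, un_singleton]
    rw [Multiset.insert_eq_cons, un_cons, un_singleton, mnmx ρ a, mnmx ρ b, mnmx ρ d]
  have k1 : PW fl κ {mn ρ a, mx ρ a, mn ρ b, mn ρ d} := by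
    apply hU.mono
    rw [hun, Multiset.le_iff_exists_add]
    refine ⟨{mx ρ b, mx ρ d}, ?_⟩
    simp only [Multiset.insert_eq_cons, ← Multiset.singleton_add]
    abel
  have k2 : PW fl κ {mx ρ a, mn ρ b, mn ρ d} := k1.mono (Multiset.le_cons_self _ _)
  have k3 : PW fl κ {mn ρ a, mx ρ a, mn ρ b} := by
    apply k1.mono
    rw [Multiset.le_iff_exists_add]
    refine ⟨{mn ρ d}, ?_⟩
    rfl
  have r1 := s4' h4 k1 (by omega) (by omega) (by omega) (by omega)
  have r2 := s3' h3 k2 (by omega) (by omega) (by omega)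
  have r3 := s3' h3 k3 (by omega) (by omega) (by omega)
  by_cases hcase : 2 * K + 1 ≤ c2 c a + c2 c b
  · exact ⟨{a, b}, lab', rfl, by simpa using hcase⟩
  · refine ⟨{a, d}, lad, rfl, ?_⟩
    have : 2 * K + 1 ≤ c2 c a + c2 c d := by omega
    simpa using this

lemma s3_step (hρ : Rk κ lab A₁ ρ C) (hρc : ∀ y y', ρ y ≤ ρ y' → c y' ≤ c y)
    (hidx : A₁.index = 2) (hK : ∀ y, c y ≤ K)
    (h4 : ∀ w, PW fl κ w → card w = 4 → (∀ y ∈ w, 0 < c y) → ∃ y ∈ w, K ≤ c y)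
    (h3 : ∀ w, PW fl κ w → card w = 3 → (∀ y ∈ w, 0 < c y) →
      ∃ v ≤ w, card v = 2 ∧ K + 1 ≤ (v.map c).sum)
    {W : Multiset (PairT lab A₁)} (hW : PW (fl2 fl) (κ2 κ ρ C) W) (hU : PW fl κ (un W))
    (hcard : card W = 3) (hpos : ∀ z ∈ W, 0 < c2 c z) :
    ∃ V ≤ W, card V = 2 ∧ 2 * K + 1 ≤ (V.map (c2 c)).sum := by
  classical
  set T := W.filter (fun z => lab (mn ρ z) ∈ A₁) with hT
  set F := W.filter (fun z => ¬ lab (mn ρ z) ∈ A₁) with hF
  have hTF : T + F = W := Multiset.filter_add_not _ _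
  have hcTF : card T + card F = 3 := by rw [← Multiset.card_add, hTF, hcard]
  have hTW : T ≤ W := Multiset.filter_le _ _
  have hFW : F ≤ W := Multiset.filter_le _ _
  have hTm : ∀ z ∈ T, lab (mn ρ z) ∈ A₁ := fun z hz => (Multiset.mem_filter.1 hz).2
  have hFm : ∀ z ∈ F, ¬ lab (mn ρ z) ∈ A₁ := fun z hz => (Multiset.mem_filter.1 hz).2
  have three : ∀ V ≤ W, 3 ≤ card V → (∀ z ∈ V, ∀ z' ∈ V, (lab (mn ρ z) ∈ A₁ ↔ lab (mn ρ z') ∈ A₁)) →
      ∃ V ≤ W, card V = 2 ∧ 2 * K + 1 ≤ (V.map (c2 c)).sum := by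
    intro V hV h3 hcl
    obtain ⟨t, ht, hct⟩ := exists_le_card V 3 h3
    obtain ⟨x, y, z, rfl, hxy, hyz⟩ := sort3 (fun z => ρ (mn ρ z) + ρ (mx ρ z)) hct
    have mx' : x ∈ V := Multiset.mem_of_le ht (by simp)
    have my : y ∈ V := Multiset.mem_of_le ht (by simp)
    have mz : z ∈ V := Multiset.mem_of_le ht (by simp)
    have h := conc3 hρ hρc hidx h4 hW hU (ht.trans hV) ⟨hcl x mx' y my, hxy⟩
      ⟨hcl y my z mz, hyz⟩ (hpos z (Multiset.mem_of_le hV mz))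
    refine ⟨{x, y}, le_trans ?_ (ht.trans hV), rfl, ?_⟩
    · exact pair_le_of_mem (u := {z}) rfl
    · have := hpos y (Multiset.mem_of_le hV my)
      have h5 : 2 * K + 1 ≤ c2 c x + c2 c y := by omega
      simpa using h5
  by_cases hT3 : 3 ≤ card T
  · exact three T hTW hT3 (fun z hz z' hz' => iff_of_true (hTm z hz) (hTm z' hz'))
  by_cases hF3 : 3 ≤ card F
  · exact three F hFW hF3 (fun z hz z' hz' => iff_of_false (hFm z hz) (hFm z' hz'))
  by_cases hT2 : card T = 2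
  · obtain ⟨a, b, hTab, hab⟩ := sort2 (fun z => ρ (mn ρ z) + ρ (mx ρ z)) hT2
    obtain ⟨d, hFd⟩ := Multiset.card_eq_one.1 (show card F = 1 by omega)
    have ma : a ∈ T := by rw [hTab]; simp
    have mb : b ∈ T := by rw [hTab]; simp
    have md : d ∈ F := by rw [hFd]; simp
    exact s3_two hρ hρc hidx hK h4 h3 hW hU (by rw [← hTF, hTab, hFd])
      ⟨iff_of_true (hTm a ma) (hTm b mb), hab⟩ (hpos b (Multiset.mem_of_le hTW mb))
      (hpos d (Multiset.mem_of_le hFW md))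
  · obtain ⟨a, b, hFab, hab⟩ := sort2 (fun z => ρ (mn ρ z) + ρ (mx ρ z))
      (show card F = 2 by omega)
    obtain ⟨d, hTd⟩ := Multiset.card_eq_one.1 (show card T = 1 by omega)
    have ma : a ∈ F := by rw [hFab]; simp
    have mb : b ∈ F := by rw [hFab]; simp
    have md : d ∈ T := by rw [hTd]; simp
    exact s3_two hρ hρc hidx hK h4 h3 hW hU (by rw [← hTF, hFab, hTd, add_comm])
      ⟨iff_of_false (hFm a ma) (hFm b mb), hab⟩ (hpos b (Multiset.mem_of_le hFW mb))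
      (hpos d (Multiset.mem_of_le hTW md))

/-- if the underlying word of a pairwise standard word is standard, then it is standard -/
lemma Std_of_un (hρ : Rk κ lab A₁ ρ C) (hidx : A₁.index = 2)
    (hsc : ∀ w w', FL fl w = FL fl w' → card w = card w')
    (hsl : ∀ w w', FL fl w = FL fl w' → (w.map lab).sum = (w'.map lab).sum)
    (huq : ∀ w w', Std fl κ w → Std fl κ w' → FL fl w = FL fl w' → w = w')
    {W : Multiset (PairT lab A₁)} (hW : PW (fl2 fl) (κ2 κ ρ C) W)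
    (hU : Std fl κ (un W)) : Std (fl2 fl) (κ2 κ ρ C) W := by
  obtain ⟨W0, h1, h2⟩ := exists_std (fl2 fl) (κ2 κ ρ C) W
  have h3 := Std_un hidx hsc hsl h2
  have h4 : un W0 = un W := huq _ _ h3 hU (by rw [← FL_fl2, ← FL_fl2, h1])
  have h5 := un_inj hρ hidx (card W0) rfl h2.pw hW h4
  rw [← h5]; exact h2

/-- the pairing step preserves the properties of the tower -/
theorem Good.step (h : Good fl κ lab c K R) (hρ : Rk κ lab A₁ ρ C)
    (hρc : ∀ y y', ρ y ≤ ρ y' → c y' ≤ c y) (hidx : A₁.index = 2) :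
    Good (fl2 fl) (κ2 κ ρ C) (lab2 : PairT lab A₁ → A₁) (c2 c) (2 * K) R where
  sat_card := by
    intro W W' hF
    rw [FL_fl2, FL_fl2] at hF
    have := h.sat_card _ _ hF
    rw [card_un, card_un] at this
    omega
  sat_lab := by
    intro W W' hF
    rw [FL_fl2, FL_fl2] at hF
    apply Subtype.ext
    rw [lab2_sum, lab2_sum]
    exact h.sat_lab _ _ hF
  uniq := by
    intro W W' hW hW' hF
    have h1 := Std_un hidx h.sat_card h.sat_lab hW
    have h2 := Std_un hidx h.sat_card h.sat_lab hW'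
    rw [FL_fl2, FL_fl2] at hF
    exact un_inj hρ hidx (card W) rfl hW.pw hW'.pw (h.uniq _ _ h1 h2 hF)
  pair := by
    intro W hW hWc
    refine Std_of_un hρ hidx h.sat_card h.sat_lab h.uniq hW ?_
    apply h.pair _ (PW_un hidx h.sat_card h.sat_lab hW)
    exact (Std_un hidx h.sat_card h.sat_lab hWc).mono (filter_un_le c W)
  bound := by
    intro W hW
    rw [c2_sum]
    exact h.bound _ (Std_un hidx h.sat_card h.sat_lab hW)
  le := by
    intro z
    rw [c2_eq ρ]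
    have h1 := h.le (mn ρ z)
    have h2 := h.le (mx ρ z)
    omega
  s4 := by
    intro W hW hc hpos
    exact s4_step hρ hρc hidx h.s4 hW (PW_un hidx h.sat_card h.sat_lab hW) hc hpos
  s3 := by
    intro W hW hc hpos
    exact s3_step hρ hρc hidx h.le h.s4 h.s3 hW (PW_un hidx h.sat_card h.sat_lab hW) hc hpos

end Conc

section Main

instance finite_pairT {Y A : Type} [Finite Y] [AddCommGroup A] (lab : Y → A) (A₁ : AddSubgroup A) :
    Finite (PairT lab A₁) := by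
  have h : Finite (Sym Y 2) := inferInstance
  let f : PairT lab A₁ → Sym Y 2 := fun z => ⟨z.1, z.2.1⟩
  refine Finite.of_injective f (fun a b hab => Subtype.ext ?_)
  have h1 : (f a).1 = (f b).1 := by rw [hab]
  exact h1

lemma exists_index_two (a : ℕ) (A : Type) [AddCommGroup A] (hA : Nat.card A = 2 ^ (a + 1)) :
    ∃ A₁ : AddSubgroup A, Nat.card A₁ = 2 ^ a ∧ A₁.index = 2 := by
  have hfin : Finite A := Nat.finite_of_card_ne_zero (by rw [hA]; positivity)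
  have hfin' : Finite (Multiplicative A) := hfin
  have : Fact (Nat.Prime 2) := ⟨Nat.prime_two⟩
  obtain ⟨H, hH⟩ := Sylow.exists_subgroup_card_pow_prime (G := Multiplicative A) 2 (n := a)
    (by
      have : Nat.card (Multiplicative A) = 2 ^ (a + 1) := hA
      rw [this]; exact pow_dvd_pow 2 (Nat.le_succ a))
  refine ⟨AddSubgroup.toSubgroup.symm H, ?_, ?_⟩
  · exact hH
  · have h1 := AddSubgroup.card_mul_index (AddSubgroup.toSubgroup.symm H)
    have h2 : Nat.card (AddSubgroup.toSubgroup.symm H) = 2 ^ a := hH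
    rw [h2, hA, pow_succ] at h1
    exact Nat.eq_of_mul_eq_mul_left (by positivity) h1

theorem tower (L : Type) (R : ℕ) (P : Multiset L → Prop) (a : ℕ) :
    ∀ (Y A Γ : Type) [Finite Y] [AddCommGroup A] [AddCommMonoid Γ] [LinearOrder Γ]
    [IsOrderedCancelAddMonoid Γ] [WellFoundedLT Γ] (fl : Y → Multiset L) (κ : Y → Γ) (lab : Y → A)
    (c : Y → ℕ) (K : ℕ), Nat.card A = 2 ^ a → Good fl κ lab c K R → R ≤ K * 2 ^ a →
    (∀ ω, P ω ↔ ∃ z : Multiset Y, card z = 2 ^ a ∧ (z.map lab).sum = 0 ∧ FL fl z = ω) →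
    QOrder P := by
  induction a with
  | zero =>
    intro Y A Γ _ _ _ _ _ _ fl κ lab c K hA h hR hP
    have : Subsingleton A := by
      rw [pow_zero] at hA
      exact (Nat.card_eq_one_iff_unique.1 hA).1
    refine h.qorder_zero (by simpa using hR) P ?_
    intro ω
    rw [hP]
    constructor
    · rintro ⟨z, h1, -, h3⟩
      rw [pow_zero] at h1
      obtain ⟨y, rfl⟩ := Multiset.card_eq_one.1 h1
      exact ⟨y, by simpa using h3⟩
    · rintro ⟨y, rfl⟩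
      exact ⟨{y}, by simp, Subsingleton.elim _ _, by simp⟩
  | succ a ih =>
    intro Y A Γ _ _ _ _ _ _ fl κ lab c K hA h hR hP
    obtain ⟨A₁, hA₁, hidx⟩ := exists_index_two a A hA
    obtain ⟨ρ, hinj, hρc⟩ := exists_rank c
    obtain ⟨C, hC⟩ : ∃ C, ∀ z : PairT lab A₁, (z.1.map ρ).prod ≤ C := by
      obtain ⟨M, hM⟩ := (Set.finite_range (fun z : PairT lab A₁ => (z.1.map ρ).prod)).bddAbove
      exact ⟨M, fun z => hM ⟨z, rfl⟩⟩
    have hρ : Rk κ lab A₁ ρ C := ⟨hinj, hC⟩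
    refine ih (PairT lab A₁) A₁ (Γ ×ₗ ℕ) (fl2 fl) (κ2 κ ρ C) lab2 (c2 c) (2 * K) hA₁
      (h.step hρ hρc hidx) (by rw [pow_succ] at hR; linarith) ?_
    intro ω
    rw [hP]
    constructor
    · rintro ⟨z, h1, h2, h3⟩
      obtain ⟨W, rfl⟩ := exists_un hidx (2 ^ a) z (by rw [h1]; ring) (by rw [h2]; exact A₁.zero_mem)
      refine ⟨W, ?_, ?_, ?_⟩
      · rw [card_un, pow_succ] at h1
        omega
      · apply Subtype.ext
        rw [lab2_sum, h2]; rfl
      · rw [FL_fl2, h3]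
    · rintro ⟨W, h1, h2, h3⟩
      refine ⟨un W, ?_, ?_, ?_⟩
      · rw [card_un, h1]; ring
      · rw [← lab2_sum, h2]; rfl
      · rw [← FL_fl2, h3]

end Main

end GQ23
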