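import Mathlib

/-!
# Words, flattening and standard words (helper23)

A *word* over a finite alphabet `Y` is a multiset over `Y`; `fl : Y → Multiset L` flattens a letter of
`Y` into a multiset of letters of `L`, and `κ : Y → Γ` is an additive key with values in a well
ordered cancellative monoid.  A word is *standard* if its key is minimal in its fibre.
-/

namespace GQ23

open Multiset

set_option linter.unusedSectionVars false

variable {L Y A Γ : Type} [AddCommMonoid Γ] [LinearOrder Γ] [IsOrderedCancelAddMonoid Γ]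
  [WellFoundedLT Γ]

lemma exists_le_card {α : Type} (s : Multiset α) (n : ℕ) (h : n ≤ card s) :
    ∃ t ≤ s, card t = n := by
  have h1 : 0 < card (Multiset.powersetCard n s) := by
    rw [Multiset.card_powersetCard]; exact Nat.choose_pos h
  obtain ⟨t, ht⟩ := Multiset.card_pos_iff_exists_mem.1 h1
  exact ⟨t, Multiset.mem_powersetCard.1 ht⟩

lemma exists_le_map {α β : Type} (f : α → β) (s : Multiset α) (b : Multiset β)
    (h : b ≤ s.map f) : ∃ t ≤ s, t.map f = b := by
  have h1 : b ∈ Multiset.powersetCard (card b) (s.map f) := Multiset.mem_powersetCard.2 ⟨h, rfl⟩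
  rw [Multiset.powersetCard_map, Multiset.mem_map] at h1
  obtain ⟨t, ht, rfl⟩ := h1
  exact ⟨t, (Multiset.mem_powersetCard.1 ht).1, rfl⟩

/-- the flattening of a word -/
def FL (fl : Y → Multiset L) (w : Multiset Y) : Multiset L := (w.map fl).sum

/-- the key of a word -/
def KEY (κ : Y → Γ) (w : Multiset Y) : Γ := (w.map κ).sum

/-- standard words: minimal key in the fibre of the flattening -/
def Std (fl : Y → Multiset L) (κ : Y → Γ) (w : Multiset Y) : Prop :=
  ∀ w', FL fl w' = FL fl w → KEY κ w ≤ KEY κ w'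

/-- pairwise standard words -/
def PW (fl : Y → Multiset L) (κ : Y → Γ) (w : Multiset Y) : Prop :=
  ∀ b ≤ w, card b ≤ 2 → Std fl κ b

@[simp] lemma FL_add (fl : Y → Multiset L) (v w : Multiset Y) :
    FL fl (v + w) = FL fl v + FL fl w := by simp [FL]

@[simp] lemma FL_zero (fl : Y → Multiset L) : FL fl 0 = 0 := by simp [FL]

@[simp] lemma FL_cons (fl : Y → Multiset L) (y : Y) (w : Multiset Y) :
    FL fl (y ::ₘ w) = fl y + FL fl w := by simp [FL]

@[simp] lemma FL_singleton (fl : Y → Multiset L) (y : Y) :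
    FL fl {y} = fl y := by simp [FL]

omit [LinearOrder Γ] [IsOrderedCancelAddMonoid Γ] [WellFoundedLT Γ] in
@[simp] lemma KEY_add (κ : Y → Γ) (v w : Multiset Y) :
    KEY κ (v + w) = KEY κ v + KEY κ w := by simp [KEY]

omit [LinearOrder Γ] [IsOrderedCancelAddMonoid Γ] [WellFoundedLT Γ] in
@[simp] lemma KEY_zero (κ : Y → Γ) : KEY κ (0 : Multiset Y) = 0 := by simp [KEY]

omit [LinearOrder Γ] [IsOrderedCancelAddMonoid Γ] [WellFoundedLT Γ] in
@[simp] lemma KEY_cons (κ : Y → Γ) (y : Y) (w : Multiset Y) :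
    KEY κ (y ::ₘ w) = κ y + KEY κ w := by simp [KEY]

omit [LinearOrder Γ] [IsOrderedCancelAddMonoid Γ] [WellFoundedLT Γ] in
@[simp] lemma KEY_singleton (κ : Y → Γ) (y : Y) : KEY κ ({y} : Multiset Y) = κ y := by simp [KEY]

variable {fl : Y → Multiset L} {κ : Y → Γ}

omit [WellFoundedLT Γ] in
lemma Std.mono {v w : Multiset Y} (hw : Std fl κ w) (h : v ≤ w) : Std fl κ v := by
  obtain ⟨u, rfl⟩ := Multiset.le_iff_exists_add.1 h
  intro v' hv'
  have h1 := hw (v' + u) (by rw [FL_add, FL_add, hv'])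
  rw [KEY_add, KEY_add] at h1
  exact le_of_add_le_add_right h1

omit [IsOrderedCancelAddMonoid Γ] [WellFoundedLT Γ] in
lemma PW.mono {v w : Multiset Y} (hw : PW fl κ w) (h : v ≤ w) : PW fl κ v :=
  fun b hb hc => hw b (hb.trans h) hc

omit [WellFoundedLT Γ] in
lemma Std.pw {w : Multiset Y} (hw : Std fl κ w) : PW fl κ w := fun _ hb _ => hw.mono hb

omit [IsOrderedCancelAddMonoid Γ] in
lemma exists_std (fl : Y → Multiset L) (κ : Y → Γ) (w : Multiset Y) :
    ∃ w', FL fl w' = FL fl w ∧ Std fl κ w' := by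
  obtain ⟨g, ⟨w', h1, h2⟩, h3⟩ := (wellFounded_lt (α := Γ)).has_min
    (KEY κ '' {w' | FL fl w' = FL fl w}) ⟨_, w, rfl, rfl⟩
  refine ⟨w', h1, fun v hv => ?_⟩
  rw [h2]
  exact not_lt.1 (h3 _ ⟨v, hv.trans h1, rfl⟩)

/-- the properties carried through the tower of index two subgroups -/
structure Good [AddCommGroup A] (fl : Y → Multiset L) (κ : Y → Γ) (lab : Y → A) (c : Y → ℕ)
    (K R : ℕ) : Prop where
  sat_card : ∀ w w', FL fl w = FL fl w' → card w = card w'
  sat_lab : ∀ w w', FL fl w = FL fl w' → (w.map lab).sum = (w'.map lab).sum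
  uniq : ∀ w w', Std fl κ w → Std fl κ w' → FL fl w = FL fl w' → w = w'
  pair : ∀ w, PW fl κ w → Std fl κ (w.filter (fun y => 0 < c y)) → Std fl κ w
  bound : ∀ w, Std fl κ w → (w.map c).sum ≤ R
  le : ∀ y, c y ≤ K
  s4 : ∀ w, PW fl κ w → card w = 4 → (∀ y ∈ w, 0 < c y) → ∃ y ∈ w, K ≤ c y
  s3 : ∀ w, PW fl κ w → card w = 3 → (∀ y ∈ w, 0 < c y) →
    ∃ v ≤ w, card v = 2 ∧ K + 1 ≤ (v.map c).sum

/-- there is an order on words in the alphabet `{ω // P ω}` for which standardness is a quadratic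
condition and standard words are unique in their fibre. -/
def QOrder (P : Multiset L → Prop) : Prop :=
  ∃ (Γ : Type) (_ : AddCommMonoid Γ) (_ : LinearOrder Γ) (_ : IsOrderedCancelAddMonoid Γ)
    (_ : WellFoundedLT Γ) (κ : {ω : Multiset L // P ω} → Γ),
    (∀ α, PW Subtype.val κ α → Std Subtype.val κ α) ∧
    (∀ α α', Std Subtype.val κ α → Std Subtype.val κ α' →
      FL Subtype.val α = FL Subtype.val α' → α = α')

omit [WellFoundedLT Γ] in
lemma Good.std_of_pw [AddCommGroup A] {lab : Y → A} {c : Y → ℕ} {K R : ℕ}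
    (h : Good fl κ lab c K R) (hR : R ≤ K) {w : Multiset Y} (hw : PW fl κ w) : Std fl κ w := by
  classical
  refine h.pair w hw ?_
  by_cases hc : card (w.filter (fun y => 0 < c y)) ≤ 2
  · exact hw _ (Multiset.filter_le _ _) hc
  · push Not at hc
    exfalso
    obtain ⟨t, ht, hct⟩ := exists_le_card (w.filter (fun y => 0 < c y)) 3 hc
    obtain ⟨v, hv, hcv, hs⟩ := h.s3 t (hw.mono (ht.trans (Multiset.filter_le _ _))) hct
      (fun y hy => (Multiset.mem_filter.1 (Multiset.mem_of_le ht hy)).2)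
    have h1 := h.bound v (hw v (hv.trans (ht.trans (Multiset.filter_le _ _))) hcv.le)
    omega

lemma Good.qorder_zero [AddCommGroup A] [Subsingleton A] {lab : Y → A} {c : Y → ℕ} {K R : ℕ}
    (h : Good fl κ lab c K R) (hR : R ≤ K) (P : Multiset L → Prop)
    (hP : ∀ ω, P ω ↔ ∃ y, fl y = ω) : QOrder P := by
  classical
  have hsel : ∀ ω : {ω : Multiset L // P ω}, ∃ y, fl y = ω.1 ∧ Std fl κ {y} := by
    rintro ⟨ω, hω⟩
    obtain ⟨y, hy⟩ := (hP ω).1 hω
    obtain ⟨w', h1, h2⟩ := exists_std fl κ ({y} : Multiset Y)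
    have h3 := h.sat_card _ _ h1
    rw [Multiset.card_singleton, Multiset.card_eq_one] at h3
    obtain ⟨y', rfl⟩ := h3
    refine ⟨y', ?_, h2⟩
    rw [FL_singleton, FL_singleton] at h1
    exact h1.trans hy
  choose ε hε1 hε2 using hsel
  have hinj : Function.Injective ε := by
    intro a b hab
    apply Subtype.ext
    rw [← hε1 a, ← hε1 b, hab]
  refine ⟨Γ, inferInstance, inferInstance, inferInstance, inferInstance, fun ω => κ (ε ω), ?_⟩
  have hFL : ∀ α : Multiset {ω : Multiset L // P ω}, FL Subtype.val α = FL fl (α.map ε) := by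
    intro α
    simp only [FL, Multiset.map_map]
    congr 1
    apply Multiset.map_congr rfl
    intro x _
    exact (hε1 x).symm
  have hKEY : ∀ α : Multiset {ω : Multiset L // P ω},
      KEY (fun ω => κ (ε ω)) α = KEY κ (α.map ε) := by
    intro α
    simp only [KEY, Multiset.map_map, Function.comp_def]
  have hlift : ∀ w, Std fl κ w → ∃ α : Multiset {ω : Multiset L // P ω}, α.map ε = w := by
    intro w hw
    refine ⟨w.map (fun y => ⟨fl y, (hP _).2 ⟨y, rfl⟩⟩), ?_⟩
    rw [Multiset.map_map]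
    conv_rhs => rw [← Multiset.map_id w]
    apply Multiset.map_congr rfl
    intro y hy
    have h1 : Std fl κ {y} := hw.mono (Multiset.singleton_le.2 hy)
    have h2 := h.uniq _ _ (hε2 ⟨fl y, (hP _).2 ⟨y, rfl⟩⟩) h1
      (by rw [FL_singleton, FL_singleton, hε1])
    simpa using h2
  have hstd : ∀ α : Multiset {ω : Multiset L // P ω},
      Std Subtype.val (fun ω => κ (ε ω)) α ↔ Std fl κ (α.map ε) := by
    intro α
    constructor
    · intro hα
      obtain ⟨w, h1, h2⟩ := exists_std fl κ (α.map ε)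
      obtain ⟨β, rfl⟩ := hlift w h2
      have h3 := hα β (by rw [hFL, hFL, h1])
      rw [hKEY, hKEY] at h3
      intro w' hw'
      exact h3.trans (h2 w' (hw'.trans h1.symm))
    · intro hα β hβ
      rw [hFL, hFL] at hβ
      rw [hKEY, hKEY]
      exact hα _ hβ
  constructor
  · intro α hα
    rw [hstd]
    apply h.std_of_pw hR
    intro b hb hcb
    obtain ⟨β, hβ, rfl⟩ := exists_le_map ε α b hb
    exact (hstd β).1 (hα β hβ (by simpa using hcb))
  · intro α α' hα hα' hF
    have h1 := h.uniq _ _ ((hstd α).1 hα) ((hstd α').1 hα') (by rw [← hFL, ← hFL, hF])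
    exact Multiset.map_injective hinj h1

end GQ23
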